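import Pool.Agent.P.MP_3540e7_al.T5.Iface

/-! Step AB. -/

set_option autoImplicit false
set_option linter.unusedSectionVars false

namespace Pool.Agent.P.MP_3540e7_al.T5

open Subgroup
open scoped commutatorElement

theorem p_AB (hRAT : S_RAT) (hLFD : S_LFD) (hKER : S_KER) (hLIN : S_LIN) (hPRE : S_PRE) (hQUO : S_QUO) (hABC : S_ABC) (hFIN : S_FIN) (hHOM : S_HOM) :
    S_AB := by
  intro G _ _ Γ R B _ _ x hΓ hc hx hR hBR hB hP hW
  obtain ⟨V, _, _, a, ι, hr, ht⟩ := hRAT G B hB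
  have hL := (hLFD G B V a ι hr (hR.mono hBR)).1
  have hK := hKER G R B V a ι x hr ht hB hBR hR hW
  obtain ⟨U, hU, hU'⟩ := hLIN V (a x - 1) (fun U hU => by
    obtain ⟨W, w1, w2, w3⟩ := hL U hU
    exact ⟨W, w1, w2, fun w hw => sub_mem (w3 x w hw) hw⟩) hK
  obtain ⟨W, w1, w2, w3⟩ := hL U hU
  obtain ⟨a', q1, q2⟩ := hQUO G B V a ι W hr w3
  have e : ∀ v, (a' x - 1 : Module.End ℚ (V ⧸ W)) (W.mkQ v) = W.mkQ ((a x - 1 : Module.End ℚ V) v) :=
    fun v => by simp only [LinearMap.sub_apply, Module.End.one_apply, q1, map_sub]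
  have hq : FiniteDimensional ℚ (V ⧸ W) := by
    refine hABC G Γ R B _ a' _ x hΓ hc hx (fun F hF hFR => ?_) q2
      (hLFD G B _ a' _ q2 (hR.mono hBR)).1 (fun y => ?_) ?_
    · refine ⟨normalClosure F ⊔ B, inferInstance, le_sup_right,
        fun g hg => mem_sup_left (subset_normalClosure hg), ?_⟩
      rw [relIndex_sup_right]
      exact hFIN G B _ (hR F hF hFR) fun g hg => hP g (normalClosure_le_normal hFR hg)
    · obtain ⟨v, rfl⟩ := W.mkQ_surjective y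
      obtain ⟨u, hu, _, ⟨z, rfl⟩, rfl⟩ := Submodule.mem_sup.1 (hU'.ge (Submodule.mem_top (x := v)))
      exact ⟨W.mkQ z, by
        rw [e, map_add, show W.mkQ u = 0 from (Submodule.Quotient.mk_eq_zero W).2 (w1 hu), zero_add]⟩
    · have := hPRE V (a x - 1) W hK w2
      refine Submodule.finiteDimensional_of_le (S₂ := (W.comap (a x - 1)).map W.mkQ) fun y hy => ?_
      obtain ⟨v, rfl⟩ := W.mkQ_surjective y
      rw [LinearMap.mem_ker, e] at hy
      exact ⟨v, (Submodule.Quotient.mk_eq_zero W).1 hy, rfl⟩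
  have : FiniteDimensional ℚ V := Module.Finite.of_submodule_quotient W
  obtain ⟨T, t1, t2, t3⟩ := hHOM G V B ι hr.add
  refine ⟨T, t1, t2, fun g hg => ?_⟩
  obtain ⟨n, hn, t, h1, h2⟩ := t3 g hg
  have h3 : t ∈ B := (closure_le _).2 t2 h1
  have h4 := pow_mem hg n
  obtain ⟨m, hm, h5⟩ := ht (g ^ n * t⁻¹) (mul_mem h4 (inv_mem h3))
    (by rw [hr.add _ h4 _ (inv_mem h3), hr.inv h3, h2, add_neg_cancel])
  rw [Commute.mul_pow (hB _ h4 _ (inv_mem h3)), inv_pow, mul_inv_eq_one, ← pow_mul] at h5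
  exact ⟨n * m, Nat.mul_pos hn hm, h5 ▸ pow_mem h1 m⟩

end Pool.Agent.P.MP_3540e7_al.T5
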