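import Pool.Agent.P.MP_3540e7_al.T5.Iface

/-! Step ABC. -/

set_option autoImplicit false
set_option linter.unusedSectionVars false

namespace Pool.Agent.P.MP_3540e7_al.T5

open Subgroup
open scoped commutatorElement

namespace ABCx

variable {G : Type} [Group G] {V : Type} [AddCommGroup V] [Module ℚ V]
  (a : G →* Module.End ℚ V)

theorem mul_ap (g h : G) (v : V) : a (g * h) v = a g (a h v) := by
  rw [map_mul]; rfl

theorem inv_ap (g : G) (v : V) : a g (a g⁻¹ v) = v := by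
  rw [← mul_ap, mul_inv_cancel, map_one]; rfl

theorem ap_inv (g : G) (v : V) : a g⁻¹ (a g v) = v := by
  rw [← mul_ap, inv_mul_cancel, map_one]; rfl

theorem conj_ap (g x : G) (v : V) :
    a (g * x * g⁻¹) v - v = a g ((a x - 1 : Module.End ℚ V) (a g⁻¹ v)) := by
  rw [LinearMap.sub_apply, map_sub, mul_ap, mul_ap]
  simp only [Module.End.one_apply, inv_ap]

theorem conj_mem {x : G} {U W : Submodule ℚ V} (hU : ∀ g, ∀ w ∈ U, a g w ∈ U)
    (hW : ∀ g, ∀ w ∈ W, a g w ∈ W) (h : U.comap (a x - 1 : Module.End ℚ V) ≤ W) (g : G) {v : V}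
    (hv : a (g * x * g⁻¹) v - v ∈ U) : v ∈ W := by
  rw [conj_ap] at hv
  have h1 := hU g⁻¹ _ hv
  rw [ap_inv] at h1
  have h2 := hW g _ (h h1)
  rwa [inv_ap] at h2

theorem conj_surj {x : G} (h : Function.Surjective (a x - 1 : Module.End ℚ V)) (g : G) (w : V) :
    ∃ v, a (g * x * g⁻¹) v - v = w := by
  obtain ⟨u, hu⟩ := h (a g⁻¹ w)
  exact ⟨a g u, by rw [conj_ap, ap_inv, hu, inv_ap]⟩

end ABCx

open ABCx in
theorem p_ABC (hPATH : S_PATH) (hCOC : S_COC) (hPRE : S_PRE) :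
    S_ABC := by
  intro G _ Γ R B _ V _ _ a ι x hΓ hcom hR hQ hRt hL hsurj hker
  obtain ⟨U1, hk1, hf1, hi1⟩ := hL _ hker
  obtain ⟨U2, hk2, hf2, hi2⟩ := hL _ (hPRE V (a x - 1) U1 hker hf1)
  have hK1 : ∀ g v, a (g * x * g⁻¹) v - v = 0 → v ∈ U1 := fun g v hv =>
    conj_mem a (U := ⊥) (fun g w hw => by rw [(Submodule.mem_bot _).1 hw, map_zero]; rfl) hi1
      (by rwa [Submodule.comap_bot]) g ((Submodule.mem_bot _).2 hv)
  have hK2 : ∀ g v, a (g * x * g⁻¹) v - v ∈ U1 → v ∈ U2 := fun g v hv =>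
    conj_mem a hi1 hi2 hk2 g hv
  have claim : ∀ b ∈ B, (a x - 1 : Module.End ℚ V) (ι b) ∈ U2 := by
    intro b hb
    obtain ⟨Y, hY, hYo, hxY, hbY, hp⟩ := hPATH G Γ x hΓ hcom b
    have hYc : ∀ y ∈ Y, ∃ g : G, y = g * x * g⁻¹ := fun y hy => by
      obtain ⟨g, -, e, he, rfl⟩ := hYo hy
      exact ⟨g, by rw [Set.mem_singleton_iff.1 he]⟩
    obtain ⟨Q, hQn, hBQ, hFQ, hidx⟩ := hQ ((fun y => ⁅x, y⁆) '' Y) (hY.image _) (by
      rintro _ ⟨y, hy, rfl⟩
      obtain ⟨g, rfl⟩ := hYc y hy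
      exact hR g)
    obtain ⟨c, n, T, hn, hc, hcb, hT, hTU⟩ := hCOC G B Q V a ι x hRt hBQ hidx
    have hYΛ : ∀ y ∈ Y, y ∈ CM Q x := fun y hy => mem_CM.2 (hFQ ⟨y, hy, rfl⟩)
    have hbΛ : b ∈ CM Q x := le_CM Q x (hBQ hb)
    have hA : ∀ g ∈ CM Q x, ∀ h ∈ CM Q x, ∀ v,
        a (g * h) v + c (g * h) = a g (a h v + c h) + c g := fun g hg h hh v => by
      rw [hc g hg h hh, mul_ap, map_add, add_assoc]
    obtain ⟨o, ho⟩ := hsurj (- c x)
    have ho' : a x o + c x = o := by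
      rw [LinearMap.sub_apply, Module.End.one_apply] at ho
      rw [sub_eq_iff_eq_add.1 ho]; abel
    obtain ⟨u, hu, hfix⟩ := hp (fun y => ∃ u ∈ U2, a y (o + u) + c y = o + u)
      ⟨0, zero_mem _, by simpa using ho'⟩ (by
        rintro y hy y' hy' hyy ⟨u, hu, hz⟩
        obtain ⟨g, hg⟩ := hYc y hy
        obtain ⟨g', hg'⟩ := hYc y' hy'
        set z := o + u with hzd
        have h1 : a y (a y' z + c y') + c y = a y' z + c y' := by
          rw [← hA y (hYΛ y hy) y' (hYΛ y' hy'), hyy.eq, hA y' (hYΛ y' hy') y (hYΛ y hy), hz]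
        have h2 : a y' z + c y' - z ∈ U1 := by
          refine hK1 g _ ?_
          rw [← hg, map_sub, eq_sub_of_add_eq h1, eq_sub_of_add_eq hz]
          abel
        obtain ⟨u', hu'⟩ := conj_surj a hsurj g' (-(a y' z + c y' - z))
        have h3 : u' ∈ U2 := hK2 g' u' (by rw [hu']; exact neg_mem h2)
        rw [← hg'] at hu'
        refine ⟨u + u', add_mem hu h3, ?_⟩
        rw [← add_assoc, ← hzd, map_add, sub_eq_iff_eq_add.1 hu']
        abel)
    have hab : ∀ v, a b v = v := fun v => by rw [hRt.triv b hb]; rfl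
    have h4 : a (b * x * b⁻¹) (o + c b) + c (b * x * b⁻¹) = o + c b := by
      have h5 := hA _ (hYΛ _ hbY) b hbΛ o
      rw [inv_mul_cancel_right, hA b hbΛ x (hYΛ x hxY), ho', hab] at h5
      exact h5.symm
    have h6 : c b - u ∈ U2 := by
      refine hK2 b _ ?_
      have : c b - u = (o + c b) - (o + u) := by abel
      rw [this, map_sub, eq_sub_of_add_eq h4, eq_sub_of_add_eq hfix]
      convert zero_mem U1 using 1
      abel
    have h7 : n • ι b - T (ι b) ∈ U2 := by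
      rw [← hcb b hb]
      simpa using add_mem h6 hu
    have h8 : ∀ r ∈ Q, a r (ι b) - ι b ∈ U2 := fun r hr => by
      refine mem_of_nsmul_mem hn ?_
      have := sub_mem (hi2 r _ h7) h7
      rw [map_sub, hT r hr, map_nsmul] at this
      convert this using 1
      rw [smul_sub]; abel
    have h9 := hTU U2 (hi2 x) (ι b) h8
    refine mem_of_nsmul_mem hn ?_
    have := neg_mem (add_mem h7 h9)
    convert this using 1
    rw [LinearMap.sub_apply, Module.End.one_apply, smul_sub]; abel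
  have htop : U2 = ⊤ := by
    refine eq_top_iff.2 fun w _ => ?_
    obtain ⟨v, rfl⟩ := hsurj w
    obtain ⟨n, hn, b, hb, hv⟩ := hRt.span v
    refine mem_of_nsmul_mem hn ?_
    rw [← map_nsmul, hv]
    exact claim b hb
  subst htop
  exact Submodule.topEquiv.finiteDimensional

end Pool.Agent.P.MP_3540e7_al.T5
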