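import Pool.Agent.P.MP_3540e7_al.T5.Iface

/-! Step B. -/

set_option autoImplicit false
set_option linter.unusedSectionVars false

namespace Pool.Agent.P.MP_3540e7_al.T5

open Subgroup
open scoped commutatorElement

theorem p_B (hBC : S_BC) (hQ0C : S_Q0C) :
    S_B := by
  intro G _ _ R M _ hM hC hMR hR F hF hs h
  let T : Set G := Set.image2 (fun a b => ⁅a, b⁆) F F
  have hT : T.Finite := hF.image2 _ hF
  have hTR : T ⊆ R := by
    rintro _ ⟨a, ha, b, hb, rfl⟩
    exact hMR (commutator_mem_commutator (hs ha) (hs hb))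
  have hP : Noeth (normalClosure T) := hR T hT hTR
  obtain ⟨h1, h2⟩ := hQ0C G (normalClosure T) hP
  have hsur := QuotientGroup.mk'_surjective (normalClosure T)
  have : (R.map (QuotientGroup.mk' (normalClosure T))).Normal := Normal.map ‹_› _ hsur
  have : (M.map (QuotientGroup.mk' (normalClosure T))).Normal := Normal.map ‹_› _ hsur
  refine noeth_of_quot hP (hBC _ (R.map (QuotientGroup.mk' (normalClosure T)))
    (M.map (QuotientGroup.mk' (normalClosure T))) (h1 hC) ?_ (hR.map _ hsur) _ (hF.image _) ?_ ?_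
    (h2 F hF h))
  · rw [← map_commutator]
    exact map_mono hMR
  · rintro _ ⟨a, ha, rfl⟩
    exact ⟨a, hs ha, rfl⟩
  · rintro _ ⟨a, ha, rfl⟩ _ ⟨b, hb, rfl⟩
    rw [← commutatorElement_eq_one_iff_mul_comm, ← map_commutatorElement, QuotientGroup.mk'_apply,
      QuotientGroup.eq_one_iff]
    exact subset_normalClosure ⟨a, ha, b, hb, rfl⟩

end Pool.Agent.P.MP_3540e7_al.T5
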