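import Pool.Agent.P.MP_3540e7_al.T5.Iface

/-! Step B1. -/

set_option autoImplicit false
set_option linter.unusedSectionVars false

namespace Pool.Agent.P.MP_3540e7_al.T5

open Subgroup
open scoped commutatorElement

theorem p_B1 (hTOP : S_TOP) (hQ0C : S_Q0C) (hB2 : S_B2) :
    S_B1 := by
  intro G _ _ _ R _ x hx hR hC
  have hf : (centralizer {x} ⊓ R).FG := (hC.le inf_le_left).fg
  obtain ⟨F, f1, f2⟩ := (fg_iff _).1 hf
  have wk : WK ⊥ R x := by
    refine ⟨F, f2, fun a ha => (f1 ▸ subset_closure ha : a ∈ centralizer {x} ⊓ R).2,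
      fun g hg hc => ⟨1, one_pos, ?_⟩⟩
    have : g ∈ Subgroup.closure F := by
      rw [f1]
      exact ⟨mem_centralizer_singleton_iff.2 (commutatorElement_eq_one_iff_mul_comm.1 hc), hg⟩
    rw [pow_one]
    exact mem_sup_left (closure_le_normalClosure this)
  obtain ⟨F', a1, a2, a3⟩ := hTOP G R x hx hR wk
  have hP := hR F' a1 a2
  have hs := QuotientGroup.mk'_surjective (normalClosure F')
  have : (R.map (QuotientGroup.mk' (normalClosure F'))).Normal := Normal.map ‹_› _ hs
  refine noeth_of_quot hP (hB2 _ (R.map (QuotientGroup.mk' (normalClosure F')))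
    (QuotientGroup.mk' _ x) (fun g => ?_) (hR.map _ hs) ?_ ?_)
  · obtain ⟨g, rfl⟩ := hs g
    exact ⟨_, hx g, by simp only [map_commutatorElement, map_mul, map_inv]⟩
  · rintro _ ⟨g, hg, rfl⟩
    obtain ⟨n, n0, hn⟩ := a3 g hg
    exact ⟨n, n0, by rw [← map_pow, mem_bot]; exact (QuotientGroup.eq_one_iff _).2 hn⟩
  · have := (hQ0C G _ hP).2 {x} (Set.finite_singleton x) hC
    rwa [Set.image_singleton] at this

end Pool.Agent.P.MP_3540e7_al.T5
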