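import Pool.Agent.P.MP_3540e7_al.T5.Iface

/-! Step B2. -/

set_option autoImplicit false
set_option linter.unusedSectionVars false

namespace Pool.Agent.P.MP_3540e7_al.T5

open Subgroup
open scoped commutatorElement

theorem p_B2 (hFIN : S_FIN) (hCNT : S_CNT) (hPCX : S_PCX) (hMAL : S_MAL) :
    S_B2 := by
  intro G _ _ _ R _ x hx hPC hPer hN
  have fin : ∀ P : Subgroup G, P ≤ R → Noeth P → Finite P := by
    intro P hP hPn
    have := hFIN G ⊥ P hPn fun g hg => hPer g (hP hg)
    rw [relIndex_bot_left] at this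
    exact Nat.finite_of_card_ne_zero this
  have h1 := hCNT G R x
    (fun F hF hFR => fin _ (normalClosure_le_normal hFR) (hPC F hF hFR))
    (fin _ inf_le_right (hN.le inf_le_left))
  have h2 : RN R (centralizer {x} ⊔ R) := hN.rn_sup
  have h3 : RN R (CM R x) := h2.finiteIndex le_sup_right h1
  have hc : ∀ a ∈ normalClosure ({x} : Set G) ⊔ R, ∀ b ∈ normalClosure ({x} : Set G) ⊔ R,
      ⁅a, b⁆ ∈ R := by
    have hm : (normalClosure ({x} : Set G) ⊔ R).map (QuotientGroup.mk' R) =
        closure (QuotientGroup.mk' R '' orb ⊤ {x}) := by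
      rw [Subgroup.map_sup, QuotientGroup.map_mk'_self, sup_bot_eq, ← closure_orb_top,
        MonoidHom.map_closure]
    intro a ha b hb
    have := closure_comm (S := QuotientGroup.mk' R '' orb ⊤ {x}) (by
      rintro _ ⟨_, ⟨g, -, e, he, rfl⟩, rfl⟩ _ ⟨_, ⟨h, -, e', he', rfl⟩, rfl⟩
      obtain rfl : e = x := he
      obtain rfl : e' = e := he'
      rw [← commutatorElement_eq_one_iff_mul_comm, ← map_commutatorElement]
      apply (QuotientGroup.eq_one_iff _).2
      have := ‹R.Normal›.conj_mem _ (hx (g⁻¹ * h)) g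
      convert this using 1
      simp only [commutatorElement_def]
      group) _ (hm ▸ mem_map_of_mem _ ha) _ (hm ▸ mem_map_of_mem _ hb)
    rw [← commutatorElement_eq_one_iff_mul_comm, ← map_commutatorElement] at this
    exact (QuotientGroup.eq_one_iff _).1 this
  have hxK : x ∈ normalClosure ({x} : Set G) ⊔ R := mem_sup_left (subset_normalClosure rfl)
  have h4 := hPCX G R (normalClosure {x} ⊔ R) hPC le_sup_right (commutator_le.2 hc)
    (h3.mono le_rfl fun g hg => mem_CM.2 (hc x hxK g hg))
  have h5 := h4 {x} (Set.finite_singleton x) (by simpa using hxK)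
  have h6 := hMAL G (normalClosure {x}) h5
  exact RN.trans' (hN.le (centralizer_le subset_normalClosure)) h6 bot_le le_top

end Pool.Agent.P.MP_3540e7_al.T5
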