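import Pool.Agent.P.MP_3540e7_al.T5.Iface

/-! Step BC. -/

set_option autoImplicit false
set_option linter.unusedSectionVars false

namespace Pool.Agent.P.MP_3540e7_al.T5

open Subgroup
open scoped commutatorElement

theorem p_BC (hB1 : S_B1) :
    S_BC := by
  intro G _ _ R M _ hM hC hMR hR F hF
  induction F, hF using Set.Finite.induction_on with
  | empty =>
    intro _ _ h
    rwa [show centralizer (∅ : Set G) = ⊤ from by ext; simp [mem_centralizer_iff]] at h
  | @insert x F _ hF ih =>
    intro hs hc h
    have hx : x ∈ centralizer F := fun a ha =>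
      hc a (Set.mem_insert_of_mem _ ha) x (Set.mem_insert _ _)
    have hxM : x ∈ M := hs (Set.mem_insert _ _)
    have : Group.FG (centralizer F) := (hC.centralizer hF).fg
    refine ih ((Set.subset_insert _ _).trans hs) (fun a ha b hb =>
      hc a (Set.mem_insert_of_mem _ ha) b (Set.mem_insert_of_mem _ hb)) (noeth_of_top ?_)
    refine hB1 (centralizer F) (R.subgroupOf _) ⟨x, hx⟩ (fun g => ?_) (hR.subgroupOf _) ?_
    · rw [mem_subgroupOf]
      exact hMR (commutator_mem_commutator hxM (hM.conj_mem x hxM g))
    · rw [centralizer_subgroupOf, noeth_subgroupOf, ← centralizer_union, Set.image_singleton,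
        Set.union_singleton]
      exact h

end Pool.Agent.P.MP_3540e7_al.T5
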