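import Pool.Agent.P.MP_3540e7_al.T5.Iface

/-! Step CL1. -/

set_option autoImplicit false
set_option linter.unusedSectionVars false

namespace Pool.Agent.P.MP_3540e7_al.T5

open Subgroup
open scoped commutatorElement

theorem p_CL1 :
    S_CL1 := by
  intro G _ N D D' _ _ hD' 𝓗 hF hDN hD'D hc hCl hFk H hH
  obtain ⟨Y, y1, y2, y3⟩ := hCl H hH
  obtain ⟨Z, z1, z2, z3⟩ := hF.ep H hH Y y1 y2
  obtain ⟨Y', w1, w2, w3⟩ := hFk Z z1
  have hY' : Subgroup.closure Y' ≤ D := (Subgroup.closure_le _).2 w2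
  have hn : Subgroup.closure Y' ≤ normalizer (((Z ⊓ D) ⊔ D' : Subgroup G) : Set G) :=
    le_normalizer_of_comm fun g hg j hj => mem_sup_right
      (hc (commutator_mem_commutator (hY' hg) ((sup_le inf_le_right hD'D : Z ⊓ D ⊔ D' ≤ D) hj)))
  refine ⟨Y ∪ Y', y1.union w1, Set.union_subset y2 (w2.trans hDN), fun n hn' => ?_⟩
  obtain ⟨a, ha, y, hy, h, hh, rfl⟩ := y3 n hn'
  obtain ⟨y', hy', m, hm, rfl⟩ := (mem_sup_norm hn).1 (w3 ha)
  obtain ⟨z, hz, a', ha', rfl⟩ := (mem_sup_norm le_norm_top).1 hm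
  have hyN : y ∈ N := (Subgroup.closure_le _).2 y2 hy
  refine ⟨y' * z * a' * (y' * z)⁻¹, hD'.conj_mem _ ha' _, y' * y,
    mul_mem (closure_mono Set.subset_union_right hy') (closure_mono Set.subset_union_left hy),
    y⁻¹ * z * y⁻¹⁻¹ * h, mul_mem ⟨z2 (z3 _ (inv_mem hy) _ hz.1), ?_⟩ hh, by group⟩
  exact N.mul_mem (N.mul_mem (N.inv_mem hyN) (hDN hz.2)) (N.inv_mem (N.inv_mem hyN))

end Pool.Agent.P.MP_3540e7_al.T5
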