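import Pool.Agent.P.MP_3540e7_al.T5.Iface

/-! Step CLA. -/

set_option autoImplicit false
set_option linter.unusedSectionVars false

namespace Pool.Agent.P.MP_3540e7_al.T5

open Subgroup
open scoped commutatorElement

theorem p_CLA (hFK : S_FK) (hCL1 : S_CL1) :
    S_CLA := by
  intro G _ _ _ N _ 𝓗 fam
  have key : ∀ k, ∀ H ∈ 𝓗, Cl N (der N k) H := by
    intro k
    induction k with
    | zero =>
      intro H _
      exact ⟨∅, Set.finite_empty, Set.empty_subset _, fun n hn =>
        ⟨n, hn, 1, one_mem _, 1, one_mem _, by simp⟩⟩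
    | succ k ih =>
      exact hCL1 G N (der N k) (der N (k + 1)) 𝓗 fam (der_le N k) (der_succ_le N k) le_rfl ih
        (hFK G N (der N k) (der N (k + 1)) 𝓗 fam (der_le N k) (der_succ_le N k) le_rfl ih)
  obtain ⟨d, hd⟩ := exists_der_eq_bot N
  exact hd ▸ key d

end Pool.Agent.P.MP_3540e7_al.T5
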