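import Pool.Agent.P.MP_3540e7_al.T5.Iface

/-! Step CNT. -/

set_option autoImplicit false
set_option linter.unusedSectionVars false

namespace Pool.Agent.P.MP_3540e7_al.T5

open Subgroup
open scoped commutatorElement

theorem p_CNT :
    S_CNT := by
  intro G _ R hR x hF hC h0
  have hinf : Infinite (CM R x ⧸ (centralizer {x} ⊔ R).subgroupOf (CM R x)) :=
    index_eq_zero_iff_infinite.1 h0
  obtain ⟨g, hg, hgi⟩ : ∃ g : ℕ → G, (∀ i, g i ∈ CM R x) ∧
      ∀ i j, (g i)⁻¹ * g j ∈ centralizer {x} ⊔ R → i = j := by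
    let e := Infinite.natEmbedding (CM R x ⧸ (centralizer {x} ⊔ R).subgroupOf (CM R x))
    refine ⟨fun i => ((e i).out : CM R x), fun i => (e i).out.2, fun i j h => e.injective ?_⟩
    rw [← QuotientGroup.out_eq' (e i), ← QuotientGroup.out_eq' (e j), QuotientGroup.eq,
      mem_subgroupOf]
    exact h
  generalize hc : Nat.card ↥(centralizer {x} ⊓ R) = c
  have hy : ∀ i, x⁻¹ * (g i * x * (g i)⁻¹) ∈ R := by
    intro i
    have h1 := hR.conj_mem _ (mem_CM'.1 (hg i)) x⁻¹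
    rw [commutatorElement_def] at h1
    convert h1 using 1
    group
  let F : Set G := Set.range fun i : Fin (c + 1) => x⁻¹ * (g i * x * (g i)⁻¹)
  have hFR : F ⊆ R := by
    rintro _ ⟨i, rfl⟩
    exact hy i
  have hQ : Finite (normalClosure F) := hF F (Set.finite_range _) hFR
  have hQR : normalClosure F ≤ R := normalClosure_le_normal hFR
  have hmem : ∀ p : normalClosure F × Fin (c + 1),
      x⁻¹ * (p.1 * (g p.2 * x * (g p.2)⁻¹) * (p.1 : G)⁻¹) ∈ normalClosure F := by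
    intro p
    have h1 : x⁻¹ * (p.1 : G) * x⁻¹⁻¹ ∈ normalClosure F :=
      (normalClosure_normal (s := F)).conj_mem _ p.1.2 x⁻¹
    have h2 : x⁻¹ * (g p.2 * x * (g p.2)⁻¹) ∈ normalClosure F :=
      subset_normalClosure ⟨p.2, rfl⟩
    convert mul_mem (mul_mem h1 h2) (inv_mem p.1.2) using 1
    group
  let φ : normalClosure F × Fin (c + 1) → normalClosure F := fun p => ⟨_, hmem p⟩
  have key : ∀ p p', φ p = φ p' →
      p'.2 = p.2 ∧ (g p.2)⁻¹ * ((p'.1 : G)⁻¹ * p.1) * g p.2 ∈ centralizer {x} ⊓ R := by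
    intro p p' h
    have h1 : p.1 * (g p.2 * x * (g p.2)⁻¹) * (p.1 : G)⁻¹ =
        p'.1 * (g p'.2 * x * (g p'.2)⁻¹) * (p'.1 : G)⁻¹ :=
      mul_left_cancel (congrArg Subtype.val h)
    have h2 : (g p'.2)⁻¹ * ((p'.1 : G)⁻¹ * p.1) * g p.2 ∈ centralizer {x} := by
      rw [mem_centralizer_singleton_iff]
      calc (g p'.2)⁻¹ * ((p'.1 : G)⁻¹ * p.1) * g p.2 * x
          = (g p'.2)⁻¹ * (p'.1 : G)⁻¹ * (p.1 * (g p.2 * x * (g p.2)⁻¹) * (p.1 : G)⁻¹) * p.1 *
            g p.2 := by group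
        _ = x * ((g p'.2)⁻¹ * ((p'.1 : G)⁻¹ * p.1) * g p.2) := by rw [h1]; group
    have h3 : (g p.2)⁻¹ * ((p'.1 : G)⁻¹ * p.1) * (g p.2)⁻¹⁻¹ ∈ R :=
      hR.conj_mem _ (hQR (mul_mem (inv_mem p'.1.2) p.1.2)) _
    rw [inv_inv] at h3
    have h4 : (g p'.2)⁻¹ * g p.2 ∈ centralizer {x} ⊔ R := by
      convert mul_mem (mem_sup_left h2) (mem_sup_right (inv_mem h3)) using 1
      group
    have h5 : p'.2 = p.2 := Fin.ext (hgi _ _ h4)
    rw [h5] at h2
    exact ⟨h5, h2, h3⟩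
  have hσ : ∀ p, φ p = φ (Function.invFun φ (φ p)) := fun p =>
    (Function.invFun_eq ⟨p, rfl⟩).symm
  let ψ : normalClosure F × Fin (c + 1) → normalClosure F × ↥(centralizer {x} ⊓ R) :=
    fun p => (φ p, ⟨_, (key p _ (hσ p)).2⟩)
  have hψ : Function.Injective ψ := by
    intro p p' h
    have h1 : φ p = φ p' := congrArg Prod.fst h
    have h2 : (g p.2)⁻¹ * (((Function.invFun φ (φ p)).1 : G)⁻¹ * p.1) * g p.2 =
        (g p'.2)⁻¹ * (((Function.invFun φ (φ p')).1 : G)⁻¹ * p'.1) * g p'.2 :=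
      congrArg (fun t => (t.2 : G)) h
    have h3 := (key p p' h1).1
    rw [h3, ← h1] at h2
    exact Prod.ext (Subtype.ext (mul_left_cancel (mul_left_cancel (mul_right_cancel h2)))) h3.symm
  have hle := Nat.card_le_card_of_injective ψ hψ
  rw [Nat.card_prod, Nat.card_prod, hc, Nat.card_fin] at hle
  have := Nat.le_of_mul_le_mul_left hle Nat.card_pos
  omega

end Pool.Agent.P.MP_3540e7_al.T5
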