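import Pool.Agent.P.MP_3540e7_al.T5.Iface

/-! Step COC. -/

set_option autoImplicit false
set_option linter.unusedSectionVars false

namespace Pool.Agent.P.MP_3540e7_al.T5

open Subgroup
open scoped commutatorElement

namespace COCx

variable {G : Type} [Group G] {B Q : Subgroup G} [B.Normal] [Q.Normal]

/-- the coset `x Q / B` -/
def OO (B Q : Subgroup G) [B.Normal] (x : G) : Set (G ⧸ B) :=
  {q | ∃ r ∈ Q, q = QuotientGroup.mk (x * r)}

theorem OO_finite (hi : B.relIndex Q ≠ 0) (x : G) : (OO B Q x).Finite := by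
  obtain ⟨T, hT, -, h⟩ := relIndex_ne_zero_iff.1 hi
  refine (hT.image fun t => (QuotientGroup.mk (x * t) : G ⧸ B)).subset ?_
  rintro _ ⟨r, hr, rfl⟩
  obtain ⟨t, ht, h1⟩ := h r hr
  refine ⟨t, ht, QuotientGroup.eq.2 ?_⟩
  simpa [mul_assoc] using h1

theorem conj_mem {x g : G} (hg : g ∈ CM Q x) {q : G ⧸ B} (hq : q ∈ OO B Q x) :
    (QuotientGroup.mk g : G ⧸ B) * q * (QuotientGroup.mk g : G ⧸ B)⁻¹ ∈ OO B Q x := by
  obtain ⟨r, hr, rfl⟩ := hq
  have h1 : x⁻¹ * ⁅g, x⁆ * x⁻¹⁻¹ ∈ Q := ‹Q.Normal›.conj_mem _ (mem_CM'.1 hg) _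
  refine ⟨x⁻¹ * ⁅g, x⁆ * x⁻¹⁻¹ * (g * r * g⁻¹), mul_mem h1 (‹Q.Normal›.conj_mem _ hr _), ?_⟩
  rw [← QuotientGroup.mk_inv, ← QuotientGroup.mk_mul, ← QuotientGroup.mk_mul]
  congr 1
  simp only [commutatorElement_def]
  group

theorem mul_mem' {x r : G} (hr : r ∈ Q) {q : G ⧸ B} (hq : q ∈ OO B Q x) :
    (QuotientGroup.mk r : G ⧸ B) * q ∈ OO B Q x := by
  obtain ⟨r', hr', rfl⟩ := hq
  refine ⟨x⁻¹ * r * x⁻¹⁻¹ * r', mul_mem (‹Q.Normal›.conj_mem _ hr _) hr', ?_⟩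
  rw [← QuotientGroup.mk_mul]
  congr 1
  group

/-- the defect of the section -/
noncomputable def ee (B : Subgroup G) [B.Normal] (g : G) (q : G ⧸ B) : G :=
  g * q.out * g⁻¹ * ((QuotientGroup.mk g : G ⧸ B) * q * (QuotientGroup.mk g : G ⧸ B)⁻¹).out⁻¹

theorem ee_mem (g : G) (q : G ⧸ B) : ee B g q ∈ B := by
  rw [← QuotientGroup.eq_one_iff, ee]
  simp only [QuotientGroup.mk_mul, QuotientGroup.mk_inv, QuotientGroup.out_eq']
  group

theorem ee_mul (g h : G) (q : G ⧸ B) : ee B (g * h) q = g * ee B h q * g⁻¹ *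
    ee B g ((QuotientGroup.mk h : G ⧸ B) * q * (QuotientGroup.mk h : G ⧸ B)⁻¹) := by
  have : (QuotientGroup.mk (g * h) : G ⧸ B) * q * (QuotientGroup.mk (g * h) : G ⧸ B)⁻¹ =
      (QuotientGroup.mk g : G ⧸ B) * ((QuotientGroup.mk h : G ⧸ B) * q *
        (QuotientGroup.mk h : G ⧸ B)⁻¹) * (QuotientGroup.mk g : G ⧸ B)⁻¹ := by
    rw [QuotientGroup.mk_mul]; group
  simp only [ee]
  rw [this]
  group

end COCx

open COCx in
theorem p_COC :
    S_COC := by
  intro G _ B Q _ _ V _ _ a ι x hR hBQ hi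
  classical
  have hfin := OO_finite hi x
  set O := hfin.toFinset with hO
  have hmem : ∀ q, q ∈ O ↔ q ∈ OO B Q x := fun q => hfin.mem_toFinset
  have ha : ∀ g h : G, (QuotientGroup.mk g : G ⧸ B) = QuotientGroup.mk h → a g = a h := by
    intro g h e
    have h1 := hR.triv _ (QuotientGroup.eq.1 e)
    rw [show h = g * (g⁻¹ * h) by group, map_mul, h1, mul_one]
  refine ⟨fun g => ∑ q ∈ O, ι (ee B g q), O.card, fun v => ∑ q ∈ O, a q.out v, ?_, ?_, ?_, ?_, ?_⟩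
  · exact Finset.card_pos.2 ⟨_, (hmem _).2 ⟨1, one_mem _, rfl⟩⟩
  · intro g _ h hh
    have e1 : ∀ q, ι (ee B (g * h) q) = a g (ι (ee B h q)) +
        ι (ee B g ((QuotientGroup.mk h : G ⧸ B) * q * (QuotientGroup.mk h : G ⧸ B)⁻¹)) := by
      intro q
      rw [ee_mul, hR.add _ (‹B.Normal›.conj_mem _ (ee_mem h q) g) _ (ee_mem _ _),
        hR.conj g _ (ee_mem h q)]
    simp only [e1, Finset.sum_add_distrib, map_sum]
    congr 1
    refine Finset.sum_nbij'
      (fun q => (QuotientGroup.mk h : G ⧸ B) * q * (QuotientGroup.mk h : G ⧸ B)⁻¹)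
      (fun q => (QuotientGroup.mk h⁻¹ : G ⧸ B) * q * (QuotientGroup.mk h⁻¹ : G ⧸ B)⁻¹)
      (fun q hq => (hmem _).2 (conj_mem hh ((hmem _).1 hq)))
      (fun q hq => (hmem _).2 (conj_mem (inv_mem hh) ((hmem _).1 hq))) ?_ ?_ (fun _ _ => rfl)
    · intro q _
      rw [QuotientGroup.mk_inv]; group
    · intro q _
      rw [QuotientGroup.mk_inv]; group
  · intro b hb
    have e1 : ∀ q, ι (ee B b q) = ι b - a q.out (ι b) := by
      intro q
      have h1 : (QuotientGroup.mk b : G ⧸ B) = 1 := (QuotientGroup.eq_one_iff b).2 hb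
      have h2 : ee B b q = b * (q.out * b⁻¹ * q.out⁻¹) := by
        simp only [ee, h1, one_mul, inv_one, mul_one]; group
      rw [h2, hR.add _ hb _ (‹B.Normal›.conj_mem _ (inv_mem hb) _), hR.conj _ _ (inv_mem hb),
        hR.inv hb, map_neg, sub_eq_add_neg]
    simp only [e1, Finset.sum_sub_distrib, Finset.sum_const]
  · intro r hr v
    rw [map_sum]
    refine Finset.sum_nbij' (fun q => (QuotientGroup.mk r : G ⧸ B) * q)
      (fun q => (QuotientGroup.mk r⁻¹ : G ⧸ B) * q)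
      (fun q hq => (hmem _).2 (mul_mem' hr ((hmem _).1 hq)))
      (fun q hq => (hmem _).2 (mul_mem' (inv_mem hr) ((hmem _).1 hq))) ?_ ?_ ?_
    · intro q _
      rw [QuotientGroup.mk_inv]; group
    · intro q _
      rw [QuotientGroup.mk_inv]; group
    · intro q _
      rw [← Module.End.mul_apply, ← map_mul, ha (r * q.out) ((QuotientGroup.mk r : G ⧸ B) * q).out]
      rw [QuotientGroup.mk_mul, QuotientGroup.out_eq', QuotientGroup.out_eq']
  · intro U hU v hv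
    have : ∑ q ∈ O, a q.out v - O.card • a x v = ∑ q ∈ O, (a q.out v - a x v) := by
      rw [Finset.sum_sub_distrib, Finset.sum_const]
    rw [this]
    refine U.sum_mem fun q hq => ?_
    obtain ⟨r, hr, rfl⟩ := (hmem q).1 hq
    rw [ha _ (x * r) (QuotientGroup.out_eq' _), map_mul, Module.End.mul_apply, ← map_sub]
    exact hU _ (hv r hr)

end Pool.Agent.P.MP_3540e7_al.T5
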