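import Pool.Agent.P.MP_3540e7_al.T5.Iface

/-! Step DCC. -/

set_option autoImplicit false
set_option linter.unusedSectionVars false

namespace Pool.Agent.P.MP_3540e7_al.T5

open Subgroup
open scoped commutatorElement

theorem p_DCC (hRAT : S_RAT) (hSPAN : S_SPAN) :
    S_DCC := by
  intro G _ A B _ _ hBA hc ⟨T, hT, hTA, hP⟩
  let π := QuotientGroup.mk' B
  have : (A.map π).Normal := Normal.map ‹_› π (QuotientGroup.mk'_surjective B)
  have hab : Ab (A.map π) := ab_iff.2 (by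
    rw [← map_commutator, Subgroup.map_eq_bot_iff, QuotientGroup.ker_mk']; exact hc)
  obtain ⟨V, _, _, a, ι, h, hk⟩ := hRAT (G ⧸ B) (A.map π) hab
  have hfd : FiniteDimensional ℚ V := by
    refine ⟨⟨((hT.image π).image ι).toFinset, top_le_iff.1 fun v _ => ?_⟩⟩
    obtain ⟨n, hn, _, ⟨b, hb, rfl⟩, e⟩ := h.span v
    obtain ⟨m, hm, hb'⟩ := hP b hb
    have h1 : π (b ^ m) ∈ closure (π '' T) := by
      have := mem_map_of_mem π hb'
      rwa [Subgroup.map_sup, (Subgroup.map_eq_bot_iff _).2 (QuotientGroup.ker_mk' B).ge, sup_bot_eq,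
        MonoidHom.map_closure] at this
    have h2 := h.mem_span (Set.image_mono hTA) h1
    rw [map_pow, h.pow (mem_map_of_mem π hb), ← e] at h2
    rw [Set.Finite.coe_toFinset]
    exact mem_of_nsmul_mem hn (mem_of_nsmul_mem hm h2)
  let U : Subgroup G → Submodule ℚ V := fun H => Submodule.span ℚ (ι '' ((H ⊓ A).map π))
  have hU : Monotone U := fun H H' e =>
    Submodule.span_mono (Set.image_mono (map_mono (inf_le_inf_right A e)))
  refine ⟨fun H => Module.finrank ℚ (U H), fun H H' e => Submodule.finrank_mono (hU e),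
    fun H H' e hr g hg => ?_⟩
  have hle : (H ⊓ A).map π ≤ A.map π := map_mono inf_le_right
  have hg' := mem_map_of_mem π hg.2
  obtain ⟨n, hn, _, ⟨x, hx, rfl⟩, e1⟩ := hSPAN (G ⧸ B) V ((H ⊓ A).map π) ι
    (fun b hb c hc => h.add b (hle hb) c (hle hc)) (ι (π g))
    ((Submodule.eq_of_le_of_finrank_eq (hU e) hr).ge
      (Submodule.subset_span ⟨_, mem_map_of_mem π hg, rfl⟩))
  have hx' := mem_map_of_mem π hx.2
  obtain ⟨m, hm, e2⟩ := hk (π g ^ n * (π x)⁻¹) (mul_mem (pow_mem hg' n) (inv_mem hx')) (by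
    rw [h.add _ (pow_mem hg' n) _ (inv_mem hx'), h.pow hg', h.inv hx', e1, add_neg_cancel])
  rw [Commute.mul_pow (hab _ (pow_mem hg' n) _ (inv_mem hx')), inv_pow, mul_inv_eq_one, ← pow_mul,
    ← map_pow, ← map_pow] at e2
  obtain ⟨z, hz, e3⟩ := (QuotientGroup.mk'_eq_mk' B).1 e2.symm
  exact ⟨n * m, Nat.mul_pos hn hm, e3 ▸ mul_mem (mem_sup_left (pow_mem hx m)) (mem_sup_right hz)⟩

end Pool.Agent.P.MP_3540e7_al.T5
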