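import Pool.Agent.P.MP_3540e7_al.T5.Iface

/-! Step EP. -/

set_option autoImplicit false
set_option linter.unusedSectionVars false

namespace Pool.Agent.P.MP_3540e7_al.T5

open Subgroup
open scoped commutatorElement

theorem p_EP :
    S_EP := by
  intro G _ L E Y hL hE hEL hY hYL
  have h1 : closure (orb (closure Y) E) ≤ closure (Y ∪ E) := by
    rw [Subgroup.closure_le]
    rintro _ ⟨h, hh, e, he, rfl⟩
    have a : h ∈ closure (Y ∪ E) := closure_mono Set.subset_union_left hh
    exact mul_mem (mul_mem a (subset_closure (Or.inr he))) (inv_mem a)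
  have h2 : Noeth (closure (orb (closure Y) E)) :=
    (hL _ (hY.union hE) (Set.union_subset hYL hEL)).le h1
  obtain ⟨T, hT, hT1, hT2⟩ := exists_finite_closure h2.fg
  have h3 : E ∪ T ⊆ orb (closure Y) E := Set.union_subset (subset_orb _ _) hT1
  refine ⟨E ∪ T, hE.union hT, Set.subset_union_left, h3, fun y hy z hz => ?_⟩
  have h4 : ∀ w ∈ closure (orb (closure Y) E), w * z = z * w := by
    intro w hw
    rw [← hT2] at hw
    have : closure T ≤ centralizer {z} := (Subgroup.closure_le _).2 fun t ht =>
      mem_centralizer_singleton_iff.2 (mem_centralizer_iff.1 hz t (Or.inr ht))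
    exact mem_centralizer_singleton_iff.1 (this hw)
  rw [mem_centralizer_iff]
  intro e he
  have h5 := h4 _ (subset_closure (conj_mem_orb (inv_mem hy) (h3 he)))
  calc e * (y * z * y⁻¹) = y * (y⁻¹ * e * y⁻¹⁻¹ * z) * y⁻¹ := by group
    _ = y * z * y⁻¹ * e := by rw [h5]; group

end Pool.Agent.P.MP_3540e7_al.T5
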