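import Pool.Agent.P.MP_3540e7_al.T5.Iface

/-! Step FAM. -/

set_option autoImplicit false
set_option linter.unusedSectionVars false

namespace Pool.Agent.P.MP_3540e7_al.T5

open Subgroup
open scoped commutatorElement

theorem p_FAM (hEP : S_EP) (hRNF : S_RNF) (hPC2 : S_PC2) :
    S_FAM := by
  intro G _ _ L J _ w h
  have hL : orb J {w} ⊆ L := orb_subset J (by simpa using h.mem)
  refine ⟨h.lp.subgroupOf J, ?_, ?_, ?_, ?_, ?_, ?_⟩
  · rintro _ ⟨E, hE, -, -, rfl⟩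
    exact fg_subgroupOf (h.fg E hE)
  · rintro _ ⟨E, hE, -, hEo, rfl⟩
    have h1 : (((J ⊓ centralizer E) ⊔ (J ⊓ L)).subgroupOf J).FiniteIndex := ⟨h.fi E hE hEo⟩
    refine finiteIndex_of_le (H := ((J ⊓ centralizer E) ⊔ (J ⊓ L)).subgroupOf J) ?_
    rw [subgroupOf_sup inf_le_left inf_le_left, inf_subgroupOf_left, inf_subgroupOf_left]
  · rintro _ ⟨E, hE, hne, hEo, rfl⟩ _ ⟨E', hE', -, hEo', rfl⟩
    refine ⟨E ∪ E', hE.union hE', hne.mono Set.subset_union_left, Set.union_subset hEo hEo', ?_⟩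
    rw [centralizer_union]
    rfl
  · rintro _ ⟨E, hE, hne, hEo, rfl⟩ g
    refine ⟨(fun e => g.1⁻¹ * e * g.1⁻¹⁻¹) '' E, hE.image _, hne.image _, ?_, ?_⟩
    · rintro _ ⟨e, he, rfl⟩
      exact conj_mem_orb (inv_mem g.2) (hEo he)
    · ext z
      simp only [mem_comap, mem_subgroupOf, mem_centralizer_iff, MulEquiv.coe_toMonoidHom,
        MulAut.conj_apply, coe_mul, InvMemClass.coe_inv, Set.forall_mem_image]
      refine forall_congr' fun e => forall_congr' fun _ => ⟨fun h1 => ?_, fun h1 => ?_⟩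
      · calc g.1⁻¹ * e * g.1⁻¹⁻¹ * z.1 = g.1⁻¹ * (e * (g.1 * z.1 * g.1⁻¹)) * g.1 := by group
          _ = z.1 * (g.1⁻¹ * e * g.1⁻¹⁻¹) := by rw [h1]; group
      · calc e * (g.1 * z.1 * g.1⁻¹) = g.1 * (g.1⁻¹ * e * g.1⁻¹⁻¹ * z.1) * g.1⁻¹ := by group
          _ = g.1 * z.1 * g.1⁻¹ * e := by rw [h1]; group
  · rintro _ ⟨E, hE, hne, hEo, rfl⟩ Y hY hYL
    obtain ⟨E', h1, h2, h3, h4⟩ := hEP G L E (J.subtype '' Y) h.lp hE (hEo.trans hL) (hY.image _)
      (by rintro _ ⟨y, hy, rfl⟩; exact hYL hy)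
    have hle : closure (J.subtype '' Y) ≤ J := by
      rw [Subgroup.closure_le]
      rintro _ ⟨y, -, rfl⟩
      exact y.2
    refine ⟨(centralizer E').subgroupOf J, ⟨E', h1, hne.mono h2, ?_, rfl⟩,
      fun z hz => centralizer_le h2 hz, fun y hy z hz => ?_⟩
    · intro e he
      obtain ⟨u, hu, e', he', rfl⟩ := h3 he
      exact conj_mem_orb (hle hu) (hEo he')
    · refine h4 y.1 ?_ z.1 hz
      rw [← MonoidHom.map_closure]
      exact ⟨y, hy, rfl⟩
  · rintro _ ⟨E, hE, ⟨v, hv⟩, hEo, rfl⟩ _ ⟨E', hE', -, hEo', rfl⟩ _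
    have h1 := hRNF G L (J ⊓ centralizer E) E' h.lp hE' (hEo'.trans hL) fun e he =>
      (hPC2 G L J w h v (hEo hv) e (hEo' he)).le (Subgroup.closure_mono (orb_mono
        (inf_le_inf_left _ (centralizer_le (by simpa using hv))) le_rfl))
    have h2 := RN.comap J.subtype (by rw [range_subtype]; exact inf_le_left.trans inf_le_left) h1
    exact h2.mono (fun z hz => hz.2) (fun z hz => ⟨z.2, hz⟩)

end Pool.Agent.P.MP_3540e7_al.T5
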