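import Pool.Agent.P.MP_3540e7_al.T5.Iface

/-! Step FI. -/

set_option autoImplicit false
set_option linter.unusedSectionVars false

namespace Pool.Agent.P.MP_3540e7_al.T5

open Subgroup
open scoped commutatorElement

namespace FIx

variable {G : Type} [Group G]

theorem step {H A B : Subgroup G} [hA : A.Normal] (h1 : (H ⊔ A).FiniteIndex)
    (h2 : ((H ⊓ A) ⊔ B).relIndex A ≠ 0) : (H ⊔ B).FiniteIndex := by
  obtain ⟨T, hT, h3⟩ := finiteIndex_iff'.1 h1
  obtain ⟨T', hT', -, h4⟩ := relIndex_ne_zero_iff.1 h2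
  refine finiteIndex_iff'.2 ⟨Set.image2 (fun a b => a * b) T T', hT.image2 _ hT', fun x => ?_⟩
  obtain ⟨t, ht, h5⟩ := h3 x
  obtain ⟨h, hh, a, ha, h6⟩ := (mem_sup_norm le_norm_top).1 h5
  obtain ⟨t', ht', h7⟩ := h4 _ (hA.conj_mem a ha h)
  refine ⟨t * t', ⟨t, ht, t', ht', rfl⟩, ?_⟩
  have h8 : (t * t')⁻¹ * x = t'⁻¹ * (h * a * h⁻¹) * h := by
    rw [mul_inv_rev, mul_assoc, ← h6]; group
  rw [h8]
  exact mul_mem ((sup_le_sup_right inf_le_left B) h7) (mem_sup_left hh)

theorem comm_mem {A B : Subgroup G} [hA : A.Normal] [hB : B.Normal] (hAB : ⁅A, A⁆ ≤ B)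
    {E : Set G} {a h : G} (ha : a ∈ A)
    (hh : h ∈ centralizer (E ∪ (fun e => a⁻¹ * e * a) '' E) ⊔ A) :
    ⁅h, a⁆ ∈ (centralizer E ⊓ A) ⊔ B := by
  obtain ⟨c, hc, b, hb, rfl⟩ := (mem_sup_norm le_norm_top).1 hh
  rw [centralizer_union] at hc
  have h1 : ⁅c * b, a⁆ = c * ⁅b, a⁆ * c⁻¹ * (c * (a * c * a⁻¹)⁻¹) := by
    simp only [commutatorElement_def]; group
  have h2 : a * c * a⁻¹ ∈ centralizer E := by
    rw [mem_centralizer_iff]
    intro e he
    have h3 : a⁻¹ * e * a * c = c * (a⁻¹ * e * a) := mem_centralizer_iff.1 hc.2 _ ⟨e, he, rfl⟩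
    calc e * (a * c * a⁻¹) = a * (a⁻¹ * e * a * c) * a⁻¹ := by group
      _ = a * c * a⁻¹ * e := by rw [h3]; group
  have h4 : c * (a * c * a⁻¹)⁻¹ = c * a * c⁻¹ * a⁻¹ := by group
  rw [h1]
  refine mul_mem (mem_sup_right (hB.conj_mem _ (hAB (commutator_mem_commutator hb ha)) c))
    (mem_sup_left (mem_inf.2 ⟨mul_mem (mem_inf.1 hc).1 (inv_mem h2), ?_⟩))
  rw [h4]
  exact mul_mem (hA.conj_mem a ha c) (inv_mem ha)

end FIx

open FIx in
theorem p_FI (hFI1 : S_FI1) (hFINA : S_FINA) :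
    S_FI := by
  intro G _ _ s d i hs L hL hP
  have key : ∀ k ≤ i, ∀ E : Set G, E.Finite → E ⊆ L → (centralizer E ⊔ s k).FiniteIndex := by
    intro k
    induction k with
    | zero =>
      intro _ E _ _
      rw [hs.top, sup_top_eq]
      infer_instance
    | succ k ih =>
      intro hk E hE hEL
      have hA := hs.nrm k
      have hB := hs.nrm (k + 1)
      have h1 := ih (by omega) E hE hEL
      have h2 : (centralizer E ⊔ s k).FG :=
        (Group.fg_iff_subgroup_fg _).1 (Subgroup.fg_of_index_ne_zero _)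
      obtain ⟨T, hT, hTA, h3⟩ := hFI1 G (centralizer E) (s k) (s (k + 1)) (hs.le k) (hs.cm k) h2
        (fun a ha => by
          have h4 := ih (by omega) (E ∪ (fun e => a⁻¹ * e * a) '' E) (hE.union (hE.image _))
            (Set.union_subset hEL (by
              rintro _ ⟨e, he, rfl⟩
              exact hL.conj_mem' e (hEL he) a))
          exact ⟨_, (inferInstance : (Subgroup.subgroupOf
            (centralizer (E ∪ (fun e => a⁻¹ * e * a) '' E) ⊔ s k)
              (centralizer E)).FiniteIndex).index_ne_zero,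
            fun h hh _ => comm_mem (hs.cm k) ha hh⟩)
      exact step h1 (hFINA G _ (s k) T (sup_le inf_le_right (hs.le k))
        ((hs.cm k).trans le_sup_right) hT hTA h3 (hP k (by omega) E hE hEL))
  exact key i le_rfl

end Pool.Agent.P.MP_3540e7_al.T5
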