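import Pool.Agent.P.MP_3540e7_al.T5.Iface

/-! Step FI1. -/

set_option autoImplicit false
set_option linter.unusedSectionVars false

namespace Pool.Agent.P.MP_3540e7_al.T5

open Subgroup
open scoped commutatorElement

theorem p_FI1 :
    S_FI1 := by
  intro G _ H A B hA hB hBA _ hfg hc
  set M := (H ⊓ A) ⊔ B with hM
  have hMA : M ≤ A := sup_le inf_le_right hBA
  have hn : H ≤ normalizer (M : Set G) :=
    le_normalizer_sup (le_normalizer_of_conj fun g hg j hj =>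
      ⟨H.mul_mem (H.mul_mem hg hj.1) (H.inv_mem hg), hA.conj_mem j hj.2 g⟩) le_norm_top
  have hn' : ∀ g ∈ H, ∀ m ∈ M, g * m * g⁻¹ ∈ M := fun g hg m hm =>
    (mem_normalizer_iff.1 (hn hg) m).1 hm
  obtain ⟨S, hS, hSf⟩ := (fg_iff _).1 hfg
  have h1 : ∀ s ∈ S, ∃ a ∈ A, ∃ h ∈ H, h * a = s := fun s hs => by
    obtain ⟨h, hh, a, ha, e⟩ := (mem_sup_norm (X := H) (M := A) le_norm_top).1
      (hS ▸ subset_closure hs)
    exact ⟨a, ha, h, hh, e⟩
  choose! a haA hs using h1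
  have h2 : ∀ b ∈ A, ∃ T : Set G, T.Finite ∧ T ⊆ H ∧ ∀ x ∈ H, ∃ t ∈ T, ⁅t⁻¹ * x, b⁆ ∈ M := by
    intro b hb
    obtain ⟨H', hi, hH'⟩ := hc b hb
    obtain ⟨T, t1, t2, t3⟩ := relIndex_ne_zero_iff.1 hi
    refine ⟨T, t1, t2, fun x hx => ?_⟩
    obtain ⟨t, ht, e⟩ := t3 x hx
    exact ⟨t, ht, hH' _ e (mul_mem (inv_mem (t2 ht)) hx)⟩
  choose! Tf t1 t2 t3 using h2
  set T : Set G := ⋃ s ∈ S, (fun t => t * a s * t⁻¹) '' Tf (a s) with hT
  have hTA : T ⊆ A := Set.iUnion₂_subset fun s hs' => by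
    rintro _ ⟨t, -, rfl⟩
    exact hA.conj_mem _ (haA s hs') t
  refine ⟨T, hSf.biUnion fun s hs' => (t1 _ (haA s hs')).image _, hTA, ?_⟩
  set U := closure T ⊔ M with hU
  have hUA : U ≤ A := sup_le ((closure_le _).2 hTA) hMA
  have key : ∀ h ∈ H, ∀ s ∈ S, h * a s * h⁻¹ ∈ U := by
    intro h hh s hs'
    obtain ⟨t, ht, e⟩ := t3 _ (haA s hs') h hh
    have e2 : h * a s * h⁻¹ = t * ⁅t⁻¹ * h, a s⁆ * t⁻¹ * (t * a s * t⁻¹) := by
      simp only [commutatorElement_def]; group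
    rw [e2]
    exact mul_mem (mem_sup_right (hn' t (t2 _ (haA s hs') ht) _ e))
      (mem_sup_left (subset_closure (Set.mem_biUnion hs' ⟨t, ht, rfl⟩)))
  have hnU : H ≤ normalizer (U : Set G) := by
    refine le_normalizer_of_conj fun g hg j hj => ?_
    have : U ≤ U.comap (MulAut.conj g).toMonoidHom := by
      refine sup_le ((closure_le _).2 (Set.iUnion₂_subset fun s hs' => ?_))
        fun m hm => mem_sup_right (hn' g hg m hm)
      rintro _ ⟨t, ht, rfl⟩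
      have e := key (g * t) (mul_mem hg (t2 _ (haA s hs') ht)) s hs'
      have e2 : g * t * a s * (g * t)⁻¹ = g * (t * a s * t⁻¹) * g⁻¹ := by group
      rw [e2] at e
      exact e
    exact this hj
  have hle : H ⊔ A ≤ H ⊔ U := by
    rw [← hS, closure_le]
    intro s hs'
    obtain ⟨h, hh, e⟩ := hs s hs'
    have := key 1 (one_mem _) s hs'
    rw [one_mul, inv_one, mul_one] at this
    rw [← e]
    exact mul_mem_sup hh this
  intro b hb
  obtain ⟨h, hh, u, hu, rfl⟩ := (mem_sup_norm hnU).1 (hle (mem_sup_right hb))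
  have : h ∈ A := by simpa using A.mul_mem hb (A.inv_mem (hUA hu))
  exact mul_mem (mem_sup_right (mem_sup_left ⟨hh, this⟩)) hu

end Pool.Agent.P.MP_3540e7_al.T5
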