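import Pool.Agent.P.MP_3540e7_al.T5.Iface

/-! Step FIN. -/

set_option autoImplicit false
set_option linter.unusedSectionVars false

namespace Pool.Agent.P.MP_3540e7_al.T5

open Subgroup
open scoped commutatorElement

theorem p_FIN (hFINA : S_FINA) :
    S_FIN := by
  intro G _ _ B P _ hP hB
  have h1 := hP.map (QuotientGroup.mk' B)
  have h2 : ∀ g ∈ P.map (QuotientGroup.mk' B), ∃ n : ℕ, 0 < n ∧ g ^ n = 1 := by
    rintro _ ⟨g, hg, rfl⟩
    obtain ⟨n, a, b⟩ := hB g hg
    exact ⟨n, a, by rw [← map_pow]; exact (QuotientGroup.eq_one_iff _).2 b⟩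
  have h3 : ∀ k, (der (P.map (QuotientGroup.mk' B)) k).relIndex (P.map (QuotientGroup.mk' B)) ≠ 0 := by
    intro k
    induction k with
    | zero => rw [der_zero, relIndex_self]; exact one_ne_zero
    | succ k ih =>
      obtain ⟨T, t1, t2⟩ := (fg_iff _).1 (h1.le (der_le _ k)).fg
      refine relIndex_ne_zero_trans (hFINA _ _ _ T (der_succ_le _ k) le_rfl t2
        (t1 ▸ subset_closure) (t1.ge.trans le_sup_left) fun g hg => ?_) ih
      obtain ⟨n, a, b⟩ := h2 g (der_le _ k hg)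
      exact ⟨n, a, b ▸ one_mem _⟩
  obtain ⟨d, hd⟩ := exists_der_eq_bot (P.map (QuotientGroup.mk' B))
  have := h3 d
  rwa [hd, ← relIndex_comap, MonoidHom.comap_bot, QuotientGroup.ker_mk'] at this

end Pool.Agent.P.MP_3540e7_al.T5
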