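import Pool.Agent.P.MP_3540e7_al.T5.Iface

/-! Step FINA. -/

set_option autoImplicit false
set_option linter.unusedSectionVars false

namespace Pool.Agent.P.MP_3540e7_al.T5

open Subgroup
open scoped commutatorElement

theorem p_FINA :
    S_FINA := by
  intro G _ M A T hM hc hT hTA hA hP
  have hn : (M.subgroupOf A).Normal := by
    refine Normal.of_commutator_le A ?_
    rw [_root_.commutator_def, commutator_le]
    intro a _ b _
    exact hc (commutator_mem_commutator a.2 b.2)
  let π := QuotientGroup.mk' (M.subgroupOf A)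
  have hπ : Function.Surjective π := QuotientGroup.mk'_surjective _
  let _ : CommGroup (A ⧸ M.subgroupOf A) := { (inferInstance : Group (A ⧸ M.subgroupOf A)) with
    mul_comm := fun x y => by
      obtain ⟨a, rfl⟩ := hπ x
      obtain ⟨b, rfl⟩ := hπ y
      rw [← commutatorElement_eq_one_iff_mul_comm, ← map_commutatorElement]
      exact (QuotientGroup.eq_one_iff _).2 (hc (commutator_mem_commutator a.2 b.2)) }
  have htop : Subgroup.closure (A.subtype ⁻¹' T) ⊔ M.subgroupOf A = ⊤ := by
    apply map_injective A.subtype_injective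
    rw [Subgroup.map_sup, MonoidHom.map_closure, map_subgroupOf_eq_of_le hM,
      Set.image_preimage_eq_of_subset (fun t ht => ⟨⟨t, hTA ht⟩, rfl⟩),
      ← MonoidHom.range_eq_map, range_subtype]
    exact le_antisymm (sup_le ((Subgroup.closure_le _).2 hTA) hM) hA
  have hfg : Group.FG (A ⧸ M.subgroupOf A) := by
    refine Group.fg_iff.2 ⟨π '' (A.subtype ⁻¹' T), ?_,
      (hT.preimage A.subtype_injective.injOn).image _⟩
    have h1 := congrArg (Subgroup.map π) htop
    rwa [Subgroup.map_sup, MonoidHom.map_closure, map_top_of_surjective π hπ,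
      QuotientGroup.map_mk'_self, sup_bot_eq] at h1
  have : Finite (A ⧸ M.subgroupOf A) := by
    refine CommGroup.finite_of_fg_isMulTorsion _ fun x => ?_
    obtain ⟨a, rfl⟩ := hπ x
    obtain ⟨n, hn0, hn⟩ := hP a.1 a.2
    refine isOfFinOrder_iff_pow_eq_one.2 ⟨n, hn0, ?_⟩
    rw [← map_pow]
    exact (QuotientGroup.eq_one_iff _).2 hn
  exact index_ne_zero_of_finite

end Pool.Agent.P.MP_3540e7_al.T5
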