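import Pool.Agent.P.MP_3540e7_al.T5.Iface

/-! Step FK. -/

set_option autoImplicit false
set_option linter.unusedSectionVars false

namespace Pool.Agent.P.MP_3540e7_al.T5

open Subgroup
open scoped commutatorElement

theorem p_FK (hZZ : S_ZZ) (hFKA : S_FKA) (hFKB : S_FKB) (hFKC : S_FKC) :
    S_FK := by
  intro G _ _ _ N D D' _ hD hD' 𝓗 hF hDN h1 h2 hC H hH
  obtain ⟨Z, hZ, hZH, hz⟩ := hZZ G N D 𝓗 hF H hH (hC H hH)
  have key : ∀ z ∈ Z, ∀ b : G, ∃ e ∈ H, ∃ a ∈ D, b * z * b⁻¹ = a⁻¹ * e * a ∧ (z ∈ D → e ∈ D) := by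
    intro z m b
    obtain ⟨u, h, hh, a, ha, e, c⟩ := hz b⁻¹
    refine ⟨h⁻¹ * (u⁻¹ * z * u) * h, mul_mem (mul_mem (inv_mem hh) (c z m)) hh, a, ha, ?_,
      fun d => ?_⟩
    · rw [← inv_inv b, e]; group
    · have := hD.conj_mem z d (u * h)⁻¹
      rwa [show (u * h)⁻¹ * z * (u * h)⁻¹⁻¹ = h⁻¹ * (u⁻¹ * z * u) * h by group] at this
  have DK : D ≤ (H ⊔ D).normalCore := normal_le_normalCore.2 le_sup_right
  have ZK : Z ≤ (H ⊔ D).normalCore := fun z m b => by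
    obtain ⟨e, he, a, ha, c, -⟩ := key z m b
    rw [c]
    exact mul_mem (mul_mem (mem_sup_right (inv_mem ha)) (mem_sup_left he)) (mem_sup_right ha)
  have DB : D' ≤ ((H ⊓ D) ⊔ D').normalCore := normal_le_normalCore.2 le_sup_right
  have BD : ((H ⊓ D) ⊔ D').normalCore ≤ D := (normalCore_le _).trans (sup_le inf_le_right h1)
  have ZB : Z ⊓ D ≤ ((H ⊓ D) ⊔ D').normalCore := fun z m b => by
    obtain ⟨e, he, a, ha, c, d⟩ := key z m.1 b
    rw [c, show a⁻¹ * e * a = e * ⁅e⁻¹, a⁻¹⁆ by rw [commutatorElement_def]; group]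
    exact mul_mem (mem_sup_left ⟨he, d m.2⟩)
      (mem_sup_right (h2 (commutator_mem_commutator (inv_mem (d m.2)) (inv_mem ha))))
  have rn := hF.rn H hH Z hZ hZH
  obtain ⟨Y, y1, y2, y3⟩ := hFKA G D _ _ H BD DK (normalCore_le _)
    (hFKB G N D _ H Z hF.lp (hF.fi H hH) (hC H hH) DK ZK hZH rn)
    (rn_fg_of (rn.mono le_rfl inf_le_right) (le_inf ZK hZH) (hF.fg Z hZ)) fun d hd => by
      have m := hF.inf Z hZ _ (hF.conj Z hZ d)
      refine hFKC G N D _ _ d hF.lp hDN (h2.trans DB) (hF.fi _ m) (hC _ m) hd fun h hh => ZB ⟨?_, ?_⟩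
      · rw [show ⁅h, d⁆ = h * (d * h * d⁻¹)⁻¹ by rw [commutatorElement_def]; group]
        exact Z.mul_mem hh.1 (Z.inv_mem hh.2)
      · rw [commutatorElement_def]
        exact D.mul_mem (hD.conj_mem d hd h) (D.inv_mem hd)
  exact ⟨Y, y1, y2, y3.trans (sup_le_sup_left (sup_le le_sup_left (normalCore_le _)) _)⟩

end Pool.Agent.P.MP_3540e7_al.T5
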