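import Pool.Agent.P.MP_3540e7_al.T5.Iface

/-! Step FKA. -/

set_option autoImplicit false
set_option linter.unusedSectionVars false

namespace Pool.Agent.P.MP_3540e7_al.T5

open Subgroup
open scoped commutatorElement

theorem p_FKA :
    S_FKA := by
  intro G _ _ hG D K B H hD hKn _ hBD hDK hKH hK hC hpc
  obtain ⟨S, hS, hSK⟩ := fp hK
  obtain ⟨Cg, hCg, hCf⟩ := (fg_iff _).1 hC
  obtain ⟨Γ, hΓ, hΓf⟩ := Group.fg_iff.1 hG
  have dec : ∀ k ∈ K, ∃ n ∈ D, k * n⁻¹ ∈ K ⊓ H := by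
    intro k hk
    obtain ⟨c, hc, n, hn, rfl⟩ := (mem_sup_norm le_norm_top).1 (hKH hk)
    refine ⟨n, hn, ?_, by simpa using hc⟩
    exact K.mul_mem hk (K.inv_mem (hDK hn))
  choose! nn hn1 hn2 using dec
  let Y₀ : Set G := S ∪ Set.image2 (fun g a => g * a * g⁻¹) (Γ ∪ Γ⁻¹) Cg
  have hY₀ : Y₀.Finite := hS.union ((hΓf.union hΓf.inv).image2 _ hCf)
  have hY₀K : Y₀ ⊆ K := by
    rintro y (hy | ⟨g, -, a, ha, rfl⟩)
    · exact hSK ▸ subset_normalClosure hy
    · have : a ∈ K ⊓ H := hCg ▸ subset_closure ha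
      exact hKn.conj_mem a this.1 g
  let W : Set G := nn '' Y₀
  have hW : W.Finite := hY₀.image _
  have hWD : W ⊆ D := by
    rintro _ ⟨y, hy, rfl⟩
    exact hn1 y (hY₀K hy)
  set U := normalClosure W with hU
  have hUD : U ≤ D := normalClosure_le_normal hWD
  have hYJ : ∀ y ∈ Y₀, y ∈ closure Cg ⊔ U := by
    intro y hy
    have h1 : y * (nn y)⁻¹ ∈ closure Cg := hCg ▸ hn2 y (hY₀K hy)
    have := mul_mem_sup h1 (subset_normalClosure (s := W) ⟨y, hy, rfl⟩)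
    simpa using this
  have hJn : (closure Cg ⊔ U).Normal := by
    rw [← normalizer_eq_top_iff, eq_top_iff, ← hΓ]
    refine le_normalizer_of_gens (fun g hg => conj_mem_closure_sup le_sup_right fun a ha => ?_)
      (fun g hg j hj => ?_)
    · exact hYJ _ (Or.inr ⟨g, Or.inl hg, a, ha, rfl⟩)
    · have := conj_mem_closure_sup (g := g⁻¹) (J := closure Cg ⊔ U) le_sup_right
        (fun a ha => hYJ _ (Or.inr ⟨g⁻¹, Or.inr (by simpa using hg), a, ha, rfl⟩)) j hj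
      simpa using this
  have hKJ : K ≤ closure Cg ⊔ U := by
    rw [← hSK]
    exact normalClosure_le_normal fun x hx => hYJ x (Or.inl hx)
  choose! T hT1 hT2 hT3 using hpc
  refine ⟨⋃ w ∈ W, T w, hW.biUnion fun w hw => hT1 w (hWD hw),
    Set.iUnion₂_subset fun w hw => hT2 w (hWD hw), fun d hd => ?_⟩
  have hUY : U ≤ closure (⋃ w ∈ W, T w) ⊔ B := by
    rw [hU, ← closure_orb_top, Subgroup.closure_le]
    rintro _ ⟨g, -, w, hw, rfl⟩
    have h1 : g * w * g⁻¹ ∈ normalClosure {w} :=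
      (normalClosure_normal (s := {w})).conj_mem w (subset_normalClosure rfl) g
    exact sup_le_sup_right (Subgroup.closure_mono (Set.subset_biUnion_of_mem (u := T) hw)) _
      (hT3 w (hWD hw) h1)
  obtain ⟨c, hc, u, hu, rfl⟩ := (mem_sup_norm le_norm_top).1 (hKJ (hDK hd))
  have hcD : c ∈ D := by simpa using mul_mem hd (inv_mem (hUD hu))
  have hcH : c ∈ K ⊓ H := hCg ▸ hc
  refine mul_mem (mem_sup_right (mem_sup_left ⟨hcH.2, hcD⟩)) ?_
  have h5 : closure (⋃ w ∈ W, T w) ⊔ B ≤ closure (⋃ w ∈ W, T w) ⊔ ((H ⊓ D) ⊔ B) :=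
    sup_le_sup_left le_sup_right _
  exact h5 (hUY hu)

end Pool.Agent.P.MP_3540e7_al.T5
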