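import Pool.Agent.P.MP_3540e7_al.T5.Iface

/-! Step FKB. -/

set_option autoImplicit false
set_option linter.unusedSectionVars false

namespace Pool.Agent.P.MP_3540e7_al.T5

open Subgroup
open scoped commutatorElement

theorem p_FKB :
    S_FKB := by
  intro G _ N D K H Z _ _ _ hN hfi ⟨Y, hY, hYN, hCl⟩ hDK hZK hZH hZ
  have h1 : RN K (H ⊔ K) := RN.sup (hZ.mono (le_inf hZK hZH) le_rfl)
  have h2 : RN (N ⊔ K) (H ⊔ (N ⊔ K)) :=
    RN.sup (hZ.mono (le_inf (hZK.trans le_sup_right) hZH) le_rfl)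
  have h3 : RN (N ⊔ K) ⊤ := by
    refine h2.finiteIndex le_sup_right ?_
    rw [relIndex_top_right, ← finiteIndex_iff]
    exact finiteIndex_of_le (H := H ⊔ N) (sup_le_sup_left le_sup_left H)
  obtain ⟨S, hS, hSX, hSe⟩ := ((h1.inf_right' (H ⊓ N) le_sup_right).mono le_rfl
    (le_inf (inf_le_left.trans le_sup_left) le_rfl)).fg inf_le_right
  have h4 : Noeth (closure (Y ∪ S)) :=
    hN _ (hY.union hS) (Set.union_subset hYN fun s hs => (hSX hs).2)
  have h5 : N ⊔ K ≤ closure (Y ∪ S) ⊔ K := by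
    refine sup_le (fun n hn => ?_) le_sup_right
    obtain ⟨a, ha, y, hy, h, hh, rfl⟩ := hCl n hn
    refine mul_mem (mul_mem (mem_sup_right (hDK ha))
      (mem_sup_left (closure_mono Set.subset_union_left hy))) ?_
    rw [← hSe] at hh
    exact sup_le_sup (Subgroup.closure_mono Set.subset_union_right) inf_le_left hh
  exact RN.trans' (h4.rn_sup.mono le_rfl h5) h3 le_sup_right le_top

end Pool.Agent.P.MP_3540e7_al.T5
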