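import Pool.Agent.P.MP_3540e7_al.T5.Iface

/-! Step HOM. -/

set_option autoImplicit false
set_option linter.unusedSectionVars false

namespace Pool.Agent.P.MP_3540e7_al.T5

open Subgroup
open scoped commutatorElement

theorem p_HOM (hSPAN : S_SPAN) :
    S_HOM := by
  intro G _ V _ _ _ H f hf
  obtain ⟨b, hb, hsp, hli⟩ := exists_linearIndependent ℚ (f '' H)
  obtain ⟨T, hT, hTf, rfl⟩ := Set.Finite.exists_subset_finite_image_eq hli.setFinite hb
  refine ⟨T, hTf, hT, fun g hg => ?_⟩
  have hle : closure T ≤ H := (Subgroup.closure_le _).2 hT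
  have h1 : f g ∈ Submodule.span ℚ (f '' (closure T : Subgroup G)) :=
    Submodule.span_mono (Set.image_mono Subgroup.subset_closure)
      (hsp.ge (Submodule.subset_span ⟨g, hg, rfl⟩))
  obtain ⟨n, hn, t, ht, e⟩ := hSPAN G V (closure T) f (fun a ha b hb => hf a (hle ha) b (hle hb)) _ h1
  refine ⟨n, hn, t, ht, ?_⟩
  rw [← e]
  have h0 : f 1 = 0 := by simpa using hf 1 (one_mem _) 1 (one_mem _)
  clear e hn
  induction n with
  | zero => simpa using h0
  | succ n ih => rw [pow_succ, hf _ (pow_mem hg n) _ hg, ih, succ_nsmul]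

end Pool.Agent.P.MP_3540e7_al.T5
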