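import Pool.Agent.P.MP_3540e7_al.T5.Iface

/-! Step I. -/

set_option autoImplicit false
set_option linter.unusedSectionVars false

namespace Pool.Agent.P.MP_3540e7_al.T5

open Subgroup
open scoped commutatorElement

namespace Ix

theorem pow_mem_of {G : Type} [Group G] (P : Subgroup G) [P.Normal] {g f s t b : G} {n j k : ℕ}
    (hg : f * s = g) (hf : f ∈ P) (ht : t ∈ P) (hb : b ∈ P)
    (h : (b * (t⁻¹ * s ^ n) ^ j) ^ k ∈ P) : g ^ (n * j * k) ∈ P := by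
  rw [← QuotientGroup.eq_one_iff] at hf ht hb h ⊢
  subst hg
  simp only [QuotientGroup.mk_mul, QuotientGroup.mk_pow, QuotientGroup.mk_inv, hf, ht, hb,
    one_mul, inv_one] at h ⊢
  rwa [pow_mul, pow_mul]

end Ix

theorem p_I (hMAL : S_MAL) (hRAT : S_RAT) (hLFD : S_LFD) (hKER : S_KER) (hLIN : S_LIN) (hI1 : S_I1) (hPOW : S_POW) :
    S_I := by
  intro G _ _ R A _ _ x hPC hAR hAb hWK
  obtain ⟨V, _, _, a, ι, hRt, hker⟩ := hRAT G A hAb
  obtain ⟨hl1, hl2⟩ := hLFD G A V a ι hRt (hPC.mono hAR)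
  have hk := hKER G R A V a ι x hRt hker hAb hAR hPC hWK
  obtain ⟨U, hU, hUt⟩ := hLIN V (a x - 1) (fun U hU => by
    obtain ⟨W, h1, h2, h3⟩ := hl1 U hU
    exact ⟨W, h1, h2, fun w hw => by
      rw [LinearMap.sub_apply, Module.End.one_apply]
      exact sub_mem (h3 x w hw) hw⟩) hk
  obtain ⟨F0, hF0, hF0A, hUF⟩ := hl2 U hU
  have hsp : Submodule.span ℚ (ι '' F0) ⊔ LinearMap.range (a x - 1) = ⊤ :=
    top_le_iff.1 (hUt ▸ sup_le_sup_right hUF _)
  have hN0 : Noeth (normalClosure F0) := hPC F0 hF0 (hF0A.trans hAR)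
  have hrn := hMAL G (normalClosure F0) hN0
  have hCn : (centralizer (normalClosure F0 : Set G)).Normal := inferInstance
  have hrn2 := hrn.inf_right' (R ⊓ CM A x) le_top
  rw [top_inf_eq] at hrn2
  obtain ⟨F1, hF1, hF1S, hF1e⟩ := hrn2.fg inf_le_right
  have hnorm : closure F1 ≤ normalizer
      ((centralizer (normalClosure F0 : Set G) ⊓ (R ⊓ CM A x) : Subgroup G) : Set G) := by
    refine le_normalizer_of_conj fun g hg j hj => ?_
    have hgS : g ∈ R ⊓ CM A x := (Subgroup.closure_le _).2 hF1S hg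
    have hjS : j ∈ R ⊓ CM A x := hj.2
    have h2 : g * j * g⁻¹ ∈ R ⊓ CM A x := mul_mem (mul_mem hgS hjS) (inv_mem hgS)
    exact ⟨hCn.conj_mem j hj.1 g, h2⟩
  obtain ⟨T, hT, hTS, hTp⟩ := hI1 G A (centralizer (normalClosure F0 : Set G) ⊓ (R ⊓ CM A x)) V a ι
    x F0 hRt hker hAb hF0 hF0A hsp (inf_le_right.trans inf_le_right)
    (inf_le_left.trans (centralizer_le subset_normalClosure))
  obtain ⟨F, hF, hFR, hFp⟩ := hWK
  refine ⟨F ∪ F1 ∪ T, (hF.union hF1).union hT, Set.union_subset (Set.union_subset hFR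
    fun g hg => (hF1S hg).1) fun g hg => (hTS hg).2.1, fun g hg hgx => ?_⟩
  have hgS : g ∈ closure F1 ⊔ (centralizer (normalClosure F0 : Set G) ⊓ (R ⊓ CM A x)) := by
    rw [hF1e]; exact ⟨hg, mem_CM'.2 hgx⟩
  obtain ⟨f, hf, s, hs, hfs⟩ := (mem_sup_norm hnorm).1 hgS
  obtain ⟨n, hn, t, ht, hm⟩ := hTp s hs
  have hs2 : t⁻¹ * s ^ n ∈ centralizer (normalClosure F0 : Set G) ⊓ (R ⊓ CM A x) :=
    mul_mem (inv_mem ((Subgroup.closure_le _).2 hTS ht)) (pow_mem hs n)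
  have hcA : ⁅t⁻¹ * s ^ n, x⁆ ∈ A := mem_CM'.1 hs2.2.2
  obtain ⟨j, hj, b, hb, hbj⟩ := hPOW G A x (t⁻¹ * s ^ n) hAb hcA
    (hPC _ (Set.finite_singleton _) (Set.singleton_subset_iff.2 (hAR hcA))) hm
  obtain ⟨k, hk0, hkp⟩ := hFp (b * (t⁻¹ * s ^ n) ^ j) (mul_mem (hAR hb) (pow_mem hs2.2.1 j))
    (by rw [hbj]; exact one_mem _)
  rw [sup_bot_eq] at hkp
  refine ⟨n * j * k, by positivity, Ix.pow_mem_of _ (t := t) (b := b) hfs ?_ ?_ (mem_sup_right hb) ?_⟩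
  · exact mem_sup_left ((Subgroup.closure_le _).2
      (fun y hy => subset_normalClosure (Or.inl (Or.inr hy))) hf)
  · exact mem_sup_left ((Subgroup.closure_le _).2
      (fun y hy => subset_normalClosure (Or.inr hy)) ht)
  · exact mem_sup_left (normalClosure_mono (fun y hy => Or.inl (Or.inl hy)) hkp)

end Pool.Agent.P.MP_3540e7_al.T5
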