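import Pool.Agent.P.MP_3540e7_al.T5.Iface

/-! Step I1. -/

set_option autoImplicit false
set_option linter.unusedSectionVars false

namespace Pool.Agent.P.MP_3540e7_al.T5

open Subgroup
open scoped commutatorElement

theorem p_I1 (hHOM : S_HOM) :
    S_I1 := by
  intro G _ A H hA V _ _ a ι x F hR hk hab hF hFA htop hx hc
  set W := LinearMap.range (a x - 1) with hW
  have hfd : FiniteDimensional ℚ (V ⧸ W) := by
    have h1 := (Submodule.fg_span (R := ℚ) (hF.image ι)).map W.mkQ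
    rw [(Submodule.map_mkQ_eq_top _ _).2 (by rw [sup_comm]; exact htop)] at h1
    exact Module.finite_def.2 h1
  have hm : ∀ g ∈ H, ⁅g, x⁆ ∈ A := fun g hg => mem_CM'.1 (hx hg)
  have hsub : ∀ g ∈ H, ∀ v, W.mkQ (a g v) = W.mkQ v := by
    intro g hg v
    have hcm : a g * a x = a x * a g := by
      rw [← map_mul, show g * x = ⁅g, x⁆ * (x * g) by rw [commutatorElement_def]; group, map_mul,
        hR.triv _ (hm g hg), one_mul, map_mul]
    obtain ⟨y, hy, z, hz, rfl⟩ := Submodule.mem_sup.1 (htop.ge (Submodule.mem_top (x := v)))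
    have h1 : a g y = y := by
      induction hy using Submodule.span_induction with
      | mem w hw =>
        obtain ⟨f, hf, rfl⟩ := hw
        rw [← hR.conj g f (hFA hf), ← mem_centralizer_iff.1 (hc hg) f hf, mul_inv_cancel_right]
      | zero => exact map_zero _
      | add u w _ _ hu hw => rw [map_add, hu, hw]
      | smul c u _ hu => rw [map_smul, hu]
    have h2 : a g z ∈ W := by
      obtain ⟨u, rfl⟩ := hz
      refine ⟨a g u, ?_⟩
      rw [← Module.End.mul_apply, ← Module.End.mul_apply, mul_sub, sub_mul, hcm, mul_one, one_mul]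
    rw [map_add, map_add, map_add, h1, Submodule.mkQ_apply W z, Submodule.mkQ_apply W (a g z),
      (Submodule.Quotient.mk_eq_zero _).2 hz, (Submodule.Quotient.mk_eq_zero _).2 h2]
  have hadd : ∀ g ∈ H, ∀ h ∈ H, W.mkQ (ι ⁅g * h, x⁆) = W.mkQ (ι ⁅g, x⁆) + W.mkQ (ι ⁅h, x⁆) := by
    intro g hg h hh
    rw [show ⁅g * h, x⁆ = g * ⁅h, x⁆ * g⁻¹ * ⁅g, x⁆ by simp only [commutatorElement_def]; group,
      hR.add _ (hA.conj_mem _ (hm h hh) g) _ (hm g hg), hR.conj g _ (hm h hh), map_add,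
      hsub g hg, add_comm]
  obtain ⟨T, hT, hTH, hT'⟩ := hHOM G (V ⧸ W) H (fun g => W.mkQ (ι ⁅g, x⁆)) hadd
  refine ⟨T, hT, hTH, fun g hg => ?_⟩
  obtain ⟨n, hn, t, ht, e⟩ := hT' g hg
  have htH : t ∈ H := (closure_le _).2 hTH ht
  have hs : t⁻¹ * g ^ n ∈ H := mul_mem (inv_mem htH) (pow_mem hg n)
  have h0 := hadd t htH _ hs
  rw [mul_inv_cancel_left] at h0
  have e' : W.mkQ (ι ⁅g ^ n, x⁆) = W.mkQ (ι ⁅t, x⁆) := e
  rw [e', left_eq_add, Submodule.mkQ_apply, Submodule.Quotient.mk_eq_zero] at h0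
  obtain ⟨v, hv⟩ := h0
  obtain ⟨N, hN, b, hb, hvb⟩ := hR.span v
  have hxb : ⁅x, b⁆ ∈ A := comm_mem_right hb x
  have hsA := hm _ hs
  have h1 : ι ⁅x, b⁆ = N • ι ⁅t⁻¹ * g ^ n, x⁆ := by
    rw [commutatorElement_def x b, hR.add _ (hA.conj_mem _ hb x) _ (inv_mem hb), hR.conj x b hb,
      hR.inv hb, ← hv, ← map_nsmul, hvb, LinearMap.sub_apply, Module.End.one_apply, sub_eq_add_neg]
  obtain ⟨m, hm0, hm1⟩ := hk (⁅t⁻¹ * g ^ n, x⁆ ^ N * ⁅x, b⁆⁻¹)
    (mul_mem (pow_mem hsA N) (inv_mem hxb))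
    (by rw [hR.add _ (pow_mem hsA N) _ (inv_mem hxb), hR.pow hsA, hR.inv hxb, h1, add_neg_cancel])
  refine ⟨n, hn, t, ht, N * m, Nat.mul_pos hN hm0, b ^ m, pow_mem hb m, ?_⟩
  rw [Commute.mul_pow (hab _ (pow_mem hsA N) _ (inv_mem hxb)), inv_pow, mul_inv_eq_one,
    ← pow_mul] at hm1
  rw [hm1, commutatorElement_def, commutatorElement_def,
    Commute.mul_pow (hab _ (hA.conj_mem _ hb x) _ (inv_mem hb)), conj_pow, inv_pow]

end Pool.Agent.P.MP_3540e7_al.T5
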