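import Pool.Agent.P.MP_3540e7_al.T5.Iface

/-! Step IG. -/

set_option autoImplicit false
set_option linter.unusedSectionVars false

namespace Pool.Agent.P.MP_3540e7_al.T5

open Subgroup
open scoped commutatorElement

namespace IGx

theorem aux (hI : S_I) (hTR : S_TR) (d : ℕ) :
    ∀ (G : Type) [Group G] [Group.IsSolvable G] (R N : Subgroup G) [R.Normal] [N.Normal] (x : G),
      der N d = ⊥ → PC R → N ≤ R → WK ⊥ R x → WK N R x := by
  induction d with
  | zero =>
    intro G _ _ R N _ _ x hd _ _ hW
    rw [der_zero] at hd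
    subst hd
    exact hW
  | succ d ih =>
    intro G _ _ R N _ _ x hd hPC hNR hW
    have hAb : Ab (der N d) := ab_iff.2 (by rw [← der_succ, hd])
    have hAN : der N d ≤ N := der_le N d
    have h1 : WK (der N d) R x := hI G R (der N d) x hPC (hAN.trans hNR) hAb hW
    have hs : Function.Surjective (QuotientGroup.mk' (der N d)) := QuotientGroup.mk'_surjective _
    have h2 := (hTR G (der N d) (der N d) R x le_rfl (hAN.trans hNR)).1 h1
    have hb : (der N d).map (QuotientGroup.mk' (der N d)) = ⊥ := by
      rw [Subgroup.map_eq_bot_iff, QuotientGroup.ker_mk']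
    rw [hb] at h2
    have : (R.map (QuotientGroup.mk' (der N d))).Normal := Normal.map ‹_› _ hs
    have : (N.map (QuotientGroup.mk' (der N d))).Normal := Normal.map ‹_› _ hs
    exact (hTR G (der N d) N R x hAN hNR).2
      (ih (G ⧸ der N d) _ _ _ (by rw [← der_map, hb]) (hPC.map _ hs) (map_mono hNR) h2)

end IGx

theorem p_IG (hI : S_I) (hTR : S_TR) :
    S_IG := by
  intro G _ _ R N _ _ x hPC hNR hW
  obtain ⟨d, hd⟩ := exists_der_eq_bot N
  exact IGx.aux hI hTR d G R N x hd hPC hNR hW

end Pool.Agent.P.MP_3540e7_al.T5
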