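import Pool.Agent.P.MP_3540e7_al.T5.Iface

/-! Step LAY. -/

set_option autoImplicit false
set_option linter.unusedSectionVars false

namespace Pool.Agent.P.MP_3540e7_al.T5

open Subgroup
open scoped commutatorElement

theorem p_LAY (hPCX : S_PCX) :
    S_LAY := by
  intro G _ _ L R S _ _ _ hR hRS hLS hc h
  refine pc_of_single fun x hx => ?_
  have hK : normalClosure {x} ≤ S := normalClosure_le_normal (by simpa using hx)
  obtain ⟨T, hT, hTK, hKT⟩ := fg_of_finite_orbits (M := R) (H := ⊤) (Set.finite_singleton x) rfl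
    le_norm_top (fun y hy => ⟨_, h y (hK hy), fun g hg => mem_CM'.1 ((sup_le
      (by rw [← CM_bot]; exact CM_mono bot_le y)
      (fun l hl => mem_CM.2 (hc (commutator_mem_commutator (hK hy) (hLS hl)))) :
        centralizer {y} ⊔ L ≤ CM R y) hg)⟩)
  have hS : normalClosure {x} ⊔ R ≤ S := sup_le hK hRS
  have hc' : ⁅normalClosure {x} ⊔ R, normalClosure {x} ⊔ R⁆ ≤ R := (commutator_mono hS hS).trans hc
  exact hPCX G R (normalClosure {x} ⊔ R) hR le_sup_right hc'
    (rn_of_fg_comm' le_sup_right hc' hT (fun t ht => mem_sup_left (hTK ht))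
      (sup_le hKT le_sup_right)) {x} (Set.finite_singleton x)
    (fun t ht => mem_sup_left (subset_normalClosure ht))

end Pool.Agent.P.MP_3540e7_al.T5
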