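import Pool.Agent.P.MP_3540e7_al.T5.Iface

/-! Step LFD. -/

set_option autoImplicit false
set_option linter.unusedSectionVars false

namespace Pool.Agent.P.MP_3540e7_al.T5

open Subgroup
open scoped commutatorElement

theorem p_LFD :
    S_LFD := by
  intro G _ A _ V _ _ a ι h hP
  have h2 : ∀ U : Submodule ℚ V, FiniteDimensional ℚ U →
      ∃ F : Set G, F.Finite ∧ F ⊆ A ∧ U ≤ Submodule.span ℚ (ι '' F) := by
    intro U hU
    obtain ⟨S, hS⟩ := (Submodule.fg_iff_finiteDimensional U).2 hU
    choose n hn b hb e using h.span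
    refine ⟨b '' S, S.finite_toSet.image _, by rintro _ ⟨v, -, rfl⟩; exact hb v, ?_⟩
    rw [← hS, Submodule.span_le]
    intro v hv
    refine mem_of_nsmul_mem (hn v) ?_
    rw [e v]
    exact Submodule.subset_span ⟨b v, ⟨v, hv, rfl⟩, rfl⟩
  refine ⟨fun U hU => ?_, h2⟩
  obtain ⟨F, hF, hFA, hUF⟩ := h2 U hU
  have hN : normalClosure F ≤ A := normalClosure_le_normal hFA
  obtain ⟨T, hT, hTf⟩ := (fg_iff _).1 (hP F hF hFA).fg
  have hTA : T ⊆ A := fun t ht => hN (hT ▸ subset_closure ht)
  refine ⟨Submodule.span ℚ (ι '' (normalClosure F : Set G)),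
    hUF.trans (Submodule.span_mono (Set.image_mono subset_normalClosure)), ?_, fun g w hw => ?_⟩
  · have := FiniteDimensional.span_of_finite ℚ (hTf.image ι)
    refine Submodule.finiteDimensional_of_le (S₂ := Submodule.span ℚ (ι '' T))
      (Submodule.span_le.2 ?_)
    rintro _ ⟨b, hb, rfl⟩
    exact h.mem_span hTA (hT.symm ▸ hb)
  · induction hw using Submodule.span_induction with
    | mem x hx =>
      obtain ⟨b, hb, rfl⟩ := hx
      rw [← h.conj g b (hN hb)]
      exact Submodule.subset_span ⟨_, (normalClosure_normal (s := F)).conj_mem b hb g, rfl⟩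
    | zero => rw [map_zero]; exact zero_mem _
    | add x y _ _ hx hy => rw [map_add]; exact add_mem hx hy
    | smul c x _ hx => rw [map_smul]; exact Submodule.smul_mem _ c hx

end Pool.Agent.P.MP_3540e7_al.T5
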