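import Pool.Agent.P.MP_3540e7_al.T5.Iface

/-! Step LIN. -/

set_option autoImplicit false
set_option linter.unusedSectionVars false

namespace Pool.Agent.P.MP_3540e7_al.T5

open Subgroup
open scoped commutatorElement

theorem p_LIN :
    S_LIN := by
  intro V _ _ φ hW hk
  obtain ⟨q, hq⟩ := Submodule.exists_isCompl (LinearMap.range φ)
  refine ⟨q, ?_, by rw [sup_comm]; exact hq.sup_eq_top⟩
  have key : ∀ U : Submodule ℚ V, FiniteDimensional ℚ U → U ≤ q →
      Module.finrank ℚ U ≤ Module.finrank ℚ (LinearMap.ker φ) := by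
    intro U hU hUq
    obtain ⟨W, h1, h2, h3⟩ := hW U hU
    have h4 := LinearMap.finrank_range_add_finrank_ker (φ.domRestrict W)
    rw [LinearMap.range_domRestrict] at h4
    have h5 : Module.finrank ℚ (LinearMap.ker (φ.domRestrict W)) ≤
        Module.finrank ℚ (LinearMap.ker φ) := by
      rw [← Submodule.finrank_map_subtype_eq]
      refine Submodule.finrank_mono ?_
      rintro _ ⟨x, hx, rfl⟩
      exact hx
    have h6 := Submodule.finrank_sup_add_finrank_inf_eq U (W.map φ)
    have h7 : U ⊓ W.map φ = ⊥ :=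
      (hq.symm.disjoint.mono hUq LinearMap.map_le_range).eq_bot
    have h8 : Module.finrank ℚ ↥(U ⊔ W.map φ) ≤ Module.finrank ℚ W :=
      Submodule.finrank_mono (sup_le h1 (by rintro _ ⟨x, hx, rfl⟩; exact h3 x hx))
    rw [h7, finrank_bot] at h6
    omega
  refine Module.rank_lt_aleph0_iff.1 ((rank_le (n := Module.finrank ℚ (LinearMap.ker φ))
    fun s hs => ?_).trans_lt Cardinal.natCast_lt_aleph0)
  have h1 := key ((Submodule.span ℚ (s : Set q)).map q.subtype) inferInstance
    (Submodule.map_subtype_le _ _)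
  rwa [Submodule.finrank_map_subtype_eq, finrank_span_finset_eq_card hs] at h1

end Pool.Agent.P.MP_3540e7_al.T5
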