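import Pool.Agent.P.MP_3540e7_al.T5.Iface

/-! Step MAIN0. -/

set_option autoImplicit false
set_option linter.unusedSectionVars false

namespace Pool.Agent.P.MP_3540e7_al.T5

open Subgroup
open scoped commutatorElement

theorem p_MAIN0 (hFI : S_FI) (hSAFE : S_SAFE) (hLAY : S_LAY) (hB : S_B) :
    S_MAIN0 := by
  classical
  intro G _ _ s d i hC hs hLP hPer
  by_contra hN
  have hfg : Group.FG G := hC.fg
  have hnrm := hs.nrm
  have hanti : Antitone s := antitone_nat_of_succ_le hs.le
  have hd : Safe (s d) := by
    intro E _ hE h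
    refine hN (h.le fun g _ => mem_centralizer_iff.2 fun e he => ?_)
    have := hE he
    rw [hs.bot, SetLike.mem_coe, mem_bot] at this
    rw [this, one_mul, mul_one]
  have h0 : ¬ Safe (s 0) := by
    intro h
    obtain ⟨U, hU, hUf⟩ := (fg_iff _).1 hfg.out
    refine h U hUf (by rw [hs.top]; exact fun _ _ => mem_top _)
      (noeth_of_comm (fun a ha b _ => ?_) (hC U hUf))
    rw [← centralizer_closure, hU] at ha
    exact (mem_centralizer_iff.1 ha b (mem_top _)).symm
  have hex : ∃ j, Safe (s j) := ⟨d, hd⟩
  obtain ⟨j', hj'⟩ : ∃ j', Nat.find hex = j' + 1 :=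
    Nat.exists_eq_succ_of_ne_zero fun h => h0 (h ▸ Nat.find_spec hex)
  have hsafe : Safe (s (j' + 1)) := hj' ▸ Nat.find_spec hex
  have hns : ¬ Safe (s j') := Nat.find_min hex (by omega)
  have hfi : ∀ E : Set G, E.Finite → E ⊆ s (j' + 1) → (centralizer E ⊔ s i).FiniteIndex :=
    hFI G s d i hs (s (j' + 1)) fun k hk E hE hEs => hPer k hk E hE (hsafe E hE hEs)
  have hpc : PC (s (j' + 1)) := by
    rcases le_or_gt i (j' + 1) with h | h
    · exact hSAFE G (s i) (s (j' + 1)) hC hLP (hanti h) hfi
    · have key : ∀ m k, k + m = i → j' + 1 ≤ k → PC (s k) := by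
        intro m
        induction m with
        | zero =>
          intro k hk hjk
          obtain rfl : k = i := hk
          exact hSAFE G (s k) (s k) hC hLP le_rfl fun E hE hEs =>
            hfi E hE (hEs.trans (hanti hjk))
        | succ m ih =>
          intro k hk hjk
          exact hLAY G (s i) (s (k + 1)) (s k) (ih (k + 1) (by omega) (by omega)) (hs.le k)
            (hanti (by omega)) (hs.cm k) fun x hx => hfi {x} (Set.finite_singleton x)
              (Set.singleton_subset_iff.2 (hanti hjk hx))
      exact key (i - (j' + 1)) (j' + 1) (by omega) le_rfl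
  apply hns
  intro F hF hFs hFn
  exact hN (hB G (s (j' + 1)) (s j') hC (hs.cm j') hpc F hF hFs hFn)

end Pool.Agent.P.MP_3540e7_al.T5
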