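import Pool.Agent.P.MP_3540e7_al.T5.Iface

/-! Step MAL. -/

set_option autoImplicit false
set_option linter.unusedSectionVars false

namespace Pool.Agent.P.MP_3540e7_al.T5

open Subgroup
open scoped commutatorElement

namespace MALx

theorem key (hMALA : S_MALA) (d : ℕ) : ∀ (G : Type) [Group G] [Group.IsSolvable G]
    (P : Subgroup G) [P.Normal], Noeth P → der P d = ⊥ → RN (centralizer (P : Set G)) ⊤ := by
  induction d with
  | zero =>
    intro G _ _ P _ _ h
    rw [der_zero] at h
    refine RN.of_le fun g _ => mem_centralizer_iff.2 fun a ha => ?_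
    rw [h, SetLike.mem_coe, mem_bot] at ha
    rw [ha, one_mul, mul_one]
  | succ d ih =>
    intro G _ _ P _ hP h
    have hAb : Ab (der P d) := ab_iff.2 h
    have hA : Noeth (der P d) := hP.le (der_le P d)
    let π := QuotientGroup.mk' (der P d)
    have hπ : Function.Surjective π := QuotientGroup.mk'_surjective _
    have : (P.map π).Normal := Subgroup.Normal.map ‹_› π hπ
    have h1 := ih (G ⧸ der P d) (P.map π) (hP.map π) (by
      rw [← der_map, Subgroup.map_eq_bot_iff, QuotientGroup.ker_mk'])
    have h2 := RN.comap π (by rw [MonoidHom.range_eq_top.2 hπ]; exact le_top) h1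
    rw [comap_top] at h2
    have h3 := hMALA G (der P d) hAb hA.fg
    have h4 := RN.inf h2 h3 le_top le_top le_norm_top le_norm_top
    set X := (centralizer ((P.map π : Subgroup (G ⧸ der P d)) : Set (G ⧸ der P d))).comap π ⊓
      centralizer (der P d : Set G) with hX
    obtain ⟨T, hT, hTf⟩ := (fg_iff _).1 hP.fg
    have h5 := (rn_CMs (B := ⊥) (Z := der P d) (X := X) (hA.map _) (fun g hg z hz => by
      rw [mem_bot, commutatorElement_eq_one_iff_mul_comm]
      exact (mem_centralizer_iff.1 hg.2 z hz).symm) T hTf (fun f hf g hg => by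
      have hfP : f ∈ P := hT ▸ subset_closure hf
      have h6 := mem_centralizer_iff.1 hg.1 (π f) ⟨f, hfP, rfl⟩
      rw [← commutatorElement_eq_one_iff_mul_comm, ← map_commutatorElement] at h6
      exact (QuotientGroup.eq_one_iff _).1 h6)).1
    refine (RN.trans' h5 h4 inf_le_left le_top).mono ?_ le_rfl
    rw [← hT, centralizer_closure]
    intro g hg
    refine mem_centralizer_iff.2 fun a ha => ?_
    have h7 := mem_CMs.1 hg.2 a ha
    rwa [mem_bot, commutatorElement_eq_one_iff_mul_comm] at h7

end MALx

theorem p_MAL (hMALA : S_MALA) :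
    S_MAL := by
  intro G _ _ P _ hP
  obtain ⟨d, hd⟩ := exists_der_eq_bot P
  exact MALx.key hMALA d G P hP hd

end Pool.Agent.P.MP_3540e7_al.T5
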