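import Pool.Agent.P.MP_3540e7_al.T5.Iface

/-! Step MALA. -/

set_option autoImplicit false
set_option linter.unusedSectionVars false

namespace Pool.Agent.P.MP_3540e7_al.T5

open Subgroup
open scoped commutatorElement

theorem p_MALA (hMALR : S_MALR) :
    S_MALA := by
  intro G _ _ A _ hc hA
  let : CommGroup A := { (inferInstance : Group A) with
    mul_comm := fun a b => Subtype.ext (hc a.1 a.2 b.1 b.2) }
  have : Group.FG A := (Group.fg_iff_subgroup_fg A).2 hA
  have : Module.Finite ℤ (Additive A) := Module.Finite.iff_addGroup_fg.2 inferInstance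
  let ρ : G →* Module.End ℤ (Additive A) :=
    { toFun := fun g =>
        (MonoidHom.toAdditive (MulAut.conjNormal g : MulAut A).toMonoidHom).toIntLinearMap
      map_one' := by ext a; simp
      map_mul' := by intro g h; ext a; simp }
  obtain ⟨d, hd⟩ := Group.IsSolvable.solvable (G := G)
  refine (hMALR d G (Additive A) ρ (hd ▸ bot_le)).mono (fun g h a ha => ?_) le_rfl
  have := congrArg (fun φ : Module.End ℤ (Additive A) =>
    ((Additive.toMul (φ (Additive.ofMul ⟨a, ha⟩)) : A) : G)) (MonoidHom.mem_ker.1 h)
  have h2 : g * a * g⁻¹ = a := this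
  rw [mul_inv_eq_iff_eq_mul] at h2
  exact h2.symm

end Pool.Agent.P.MP_3540e7_al.T5
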