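import Pool.Agent.P.MP_3540e7_al.T5.Iface

/-! Step MALN. -/

set_option autoImplicit false
set_option linter.unusedSectionVars false

namespace Pool.Agent.P.MP_3540e7_al.T5

open Subgroup
open scoped commutatorElement

theorem p_MALN (hMAL : S_MAL) :
    S_MALN := by
  intro G _ _ H P hP hH
  have hn : (P.subgroupOf (normalizer (P : Set G))).Normal := normal_in_normalizer
  have h1 := hMAL (normalizer (P : Set G)) (P.subgroupOf (normalizer (P : Set G)))
    (noeth_subgroupOf.2 (hP.le inf_le_right))
  have h2 := (h1.inf_right' (H.subgroupOf (normalizer (P : Set G))) le_top).map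
    (normalizer (P : Set G)).subtype (inf_le_inf_right _ le_top)
  refine h2.mono ?_ ?_
  · rintro _ ⟨x, ⟨hx1, hx2⟩, rfl⟩
    refine ⟨hx2, ?_⟩
    intro y hy
    have := hx1 ⟨y, le_normalizer hy⟩ hy
    exact congrArg Subtype.val this
  · intro x hx
    exact ⟨⟨x, hH hx⟩, ⟨mem_top _, hx⟩, rfl⟩

end Pool.Agent.P.MP_3540e7_al.T5
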