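import Pool.Agent.P.MP_3540e7_al.T5.Iface

/-! Step MIN. -/

set_option autoImplicit false
set_option linter.unusedSectionVars false

namespace Pool.Agent.P.MP_3540e7_al.T5

open Subgroup
open scoped commutatorElement

theorem p_MIN (hDCC : S_DCC) :
    S_MIN := by
  intro G _ s d i hs hF hN
  have h1 : ∀ k : Fin i, ∃ r : Subgroup G → ℕ, Monotone r ∧ ∀ H H' : Subgroup G, H ≤ H' →
      r H = r H' → Per ((H ⊓ s k) ⊔ s (k + 1)) (H' ⊓ s k) := fun k =>
    haveI := hs.nrm k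
    haveI := hs.nrm (k + 1)
    hDCC G (s k) (s (k + 1)) (hs.le k) (hs.cm k) (hF k k.2)
  choose r hr h1 using h1
  obtain ⟨E₀, ⟨h2, h3⟩, h4⟩ := (measure fun E : Set G => ∑ k, r k (centralizer E)).wf.has_min
    {E | E.Finite ∧ ¬ Noeth (centralizer E)} ⟨∅, Set.finite_empty, by
      rwa [show centralizer (∅ : Set G) = ⊤ from by ext; simp [mem_centralizer_iff]]⟩
  refine ⟨E₀, h2, h3, fun k hk E hE h5 => h1 ⟨k, hk⟩ _ _ inf_le_left ?_⟩
  have e : centralizer (E₀ ∪ E) = centralizer E₀ ⊓ centralizer E := by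
    ext g
    simp only [mem_centralizer_iff, mem_inf, Set.mem_union, or_imp, forall_and]
  have h6 : ¬ ∑ k, r k (centralizer (E₀ ∪ E)) < ∑ k, r k (centralizer E₀) :=
    h4 (E₀ ∪ E) ⟨h2.union hE, by rwa [e]⟩
  rw [e] at h6
  have h7 : ∀ k ∈ Finset.univ, r k (centralizer E₀ ⊓ centralizer E) ≤ r k (centralizer E₀) :=
    fun k _ => hr k inf_le_left
  exact (Finset.sum_eq_sum_iff_of_le h7).1
    ((Finset.sum_le_sum h7).antisymm (not_lt.1 h6)) _ (Finset.mem_univ _)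

end Pool.Agent.P.MP_3540e7_al.T5
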