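import Pool.Agent.P.MP_3540e7_al.T5.Iface

/-! Step PATH. -/

set_option autoImplicit false
set_option linter.unusedSectionVars false

namespace Pool.Agent.P.MP_3540e7_al.T5

open Subgroup
open scoped commutatorElement

theorem p_PATH :
    S_PATH := by
  intro G _ Γ x hΓ hc g
  have step : ∀ g s : G, Commute x (s * x * s⁻¹) →
      (∃ Y : Set G, Y.Finite ∧ Y ⊆ orb ⊤ {x} ∧ x ∈ Y ∧ g * x * g⁻¹ ∈ Y ∧
        ∀ p : G → Prop, p x → (∀ y ∈ Y, ∀ y' ∈ Y, Commute y y' → p y → p y') → p (g * x * g⁻¹)) →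
      ∃ Y : Set G, Y.Finite ∧ Y ⊆ orb ⊤ {x} ∧ x ∈ Y ∧ g * s * x * (g * s)⁻¹ ∈ Y ∧
        ∀ p : G → Prop, p x → (∀ y ∈ Y, ∀ y' ∈ Y, Commute y y' → p y → p y') →
          p (g * s * x * (g * s)⁻¹) := by
    rintro g s hs ⟨Y, h1, h2, h3, h4, h5⟩
    refine ⟨insert (g * s * x * (g * s)⁻¹) Y, h1.insert _,
      Set.insert_subset ⟨g * s, mem_top _, x, rfl, rfl⟩ h2, Set.mem_insert_of_mem _ h3,
      Set.mem_insert _ _, fun p hx hp => hp _ (Set.mem_insert_of_mem _ h4) _ (Set.mem_insert _ _) ?_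
        (h5 p hx fun y hy y' hy' => hp y (Set.mem_insert_of_mem _ hy) y'
          (Set.mem_insert_of_mem _ hy'))⟩
    have e : g * s * x * (g * s)⁻¹ = g * (s * x * s⁻¹) * g⁻¹ := by group
    rw [e]
    exact hs.conj g
  have hg : g ∈ closure Γ := hΓ ▸ mem_top g
  induction hg using closure_induction_right with
  | one =>
    exact ⟨{x}, Set.finite_singleton x, Set.singleton_subset_iff.2 ⟨1, mem_top _, x, rfl, by simp⟩,
      rfl, by simp, fun p hx _ => by simpa using hx⟩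
  | mul_right g _ s hs ih => exact step g s (hc s hs).1 ih
  | mul_inv_cancel g _ s hs ih => exact step g s⁻¹ (by rw [inv_inv]; exact (hc s hs).2) ih

end Pool.Agent.P.MP_3540e7_al.T5
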