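import Pool.Agent.P.MP_3540e7_al.T5.Iface

/-! Step PC2. -/

set_option autoImplicit false
set_option linter.unusedSectionVars false

namespace Pool.Agent.P.MP_3540e7_al.T5

open Subgroup
open scoped commutatorElement

theorem p_PC2 :
    S_PC2 := by
  rintro G _ L J w h _ ⟨g, hg, e, he, rfl⟩ v' hv'
  obtain rfl : e = w := he
  have h1 := (h.pc _ (conj_mem_orb (inv_mem hg) hv')).map (MulAut.conj g).toMonoidHom
  refine h1.le ((closure_le _).2 ?_)
  rintro _ ⟨x, hx, e', he', rfl⟩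
  obtain rfl : e' = v' := he'
  refine ⟨(g⁻¹ * x * g) * (g⁻¹ * e' * g⁻¹⁻¹) * (g⁻¹ * x * g)⁻¹,
    Subgroup.subset_closure ⟨g⁻¹ * x * g, mem_inf.2 ⟨J.mul_mem (J.mul_mem (J.inv_mem hg) hx.1) hg,
      ?_⟩, _, rfl, rfl⟩, ?_⟩
  · have h2 := mem_centralizer_singleton_iff.1 hx.2
    refine mem_centralizer_singleton_iff.2 ?_
    calc g⁻¹ * x * g * e = g⁻¹ * (x * (g * e * g⁻¹)) * g := by group
      _ = g⁻¹ * (g * e * g⁻¹ * x) * g := by rw [h2]
      _ = e * (g⁻¹ * x * g) := by group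
  · simp only [MulEquiv.toMonoidHom_eq_coe, MonoidHom.coe_coe, MulAut.conj_apply]
    group

end Pool.Agent.P.MP_3540e7_al.T5
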