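import Pool.Agent.P.MP_3540e7_al.T5.Iface

/-! Step PCS. -/

set_option autoImplicit false
set_option linter.unusedSectionVars false

namespace Pool.Agent.P.MP_3540e7_al.T5

open Subgroup
open scoped commutatorElement

theorem p_PCS (hFAM : S_FAM) (hCLA : S_CLA) :
    S_PCS := by
  intro G _ _ L J hL w hc
  have hJ : Group.FG J := by
    have := hc.fg ∅ Set.finite_empty
    rw [show centralizer (∅ : Set G) = ⊤ from by ext; simp [mem_centralizer_iff], inf_top_eq]
      at this
    exact (Group.fg_iff_subgroup_fg J).2 this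
  have fam := hFAM G L J w hc
  have hH : (centralizer {w}).subgroupOf J ∈ {H : Subgroup J | ∃ E : Set G, E.Finite ∧
      E.Nonempty ∧ E ⊆ orb J {w} ∧ H = (centralizer E).subgroupOf J} :=
    ⟨{w}, Set.finite_singleton w, Set.singleton_nonempty w, subset_orb J _, rfl⟩
  obtain ⟨Y, hY, hYN, hcl⟩ := hCLA J (L.subgroupOf J) _ fam _ hH
  obtain ⟨T, hT, hTx⟩ := finiteIndex_iff'.1 (fam.fi _ hH)
  let S : Set G := J.subtype '' Y ∪ {w}
  let S' : Set G := Set.image2 (fun (t : J) (s : G) => (t : G) * s * (t : G)⁻¹) T S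
  have hSL : S ⊆ L := by
    rintro _ (⟨y, hy, rfl⟩ | rfl)
    · exact hYN hy
    · exact hc.mem
  have hS' : Noeth (Subgroup.closure S') := by
    refine hc.lp S' (hT.image2 _ ((hY.image _).union (Set.finite_singleton w))) ?_
    rintro _ ⟨t, -, s, hs, rfl⟩
    exact hL.conj_mem s (hSL hs) t
  refine hS'.le ((Subgroup.closure_le _).2 ?_)
  rintro _ ⟨g, hg, w', rfl, rfl⟩
  obtain ⟨t, ht, h1⟩ := hTx ⟨g, hg⟩
  obtain ⟨h, hh, n, hn, e1⟩ := (mem_sup_norm le_norm_top).1 h1
  obtain ⟨a, ha, y, hy, h', hh', e2⟩ :=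
    hcl (h * n * h⁻¹) ((inferInstance : (L.subgroupOf J).Normal).conj_mem n hn h)
  rw [mem_bot] at ha
  subst ha
  have hc1 : ((h' * h : J) : G) ∈ centralizer {w'} := mul_mem hh'.1 hh
  have hc2 : w' * ((h' * h : J) : G) = ((h' * h : J) : G) * w' := hc1 w' rfl
  have e3 : (⟨g, hg⟩ : J) = t * y * (h' * h) := by
    calc (⟨g, hg⟩ : J) = t * (h * n * h⁻¹) * h := by
          rw [← mul_inv_cancel_left t ⟨g, hg⟩, ← e1]; group
      _ = _ := by rw [e2]; group
  have e4 : g = t * y * ((h' * h : J) : G) := congrArg Subtype.val e3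
  have e5 : g * w' * g⁻¹ = t * (y * w' * (y : G)⁻¹) * (t : G)⁻¹ := by
    generalize ((h' * h : J) : G) = c at hc2 e4
    calc g * w' * g⁻¹ = t * y * (c * w') * c⁻¹ * (y : G)⁻¹ * (t : G)⁻¹ := by rw [e4]; group
      _ = _ := by rw [← hc2]; group
  have hyS : (y : G) ∈ Subgroup.closure S := by
    have : Subgroup.closure Y ≤ (Subgroup.closure S).comap J.subtype :=
      (Subgroup.closure_le _).2 fun z hz => subset_closure (k := S) (Or.inl ⟨z, hz, rfl⟩)
    exact this hy
  have hw : w' ∈ Subgroup.closure S := subset_closure (Or.inr rfl)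
  have hle : Subgroup.closure S ≤
      (Subgroup.closure S').comap (MulAut.conj (t : G)).toMonoidHom :=
    (Subgroup.closure_le _).2 fun s hs => subset_closure (k := S') ⟨t, ht, s, hs, rfl⟩
  rw [e5]
  exact hle (mul_mem (mul_mem hyS hw) (inv_mem hyS))

end Pool.Agent.P.MP_3540e7_al.T5
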