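import Pool.Agent.P.MP_3540e7_al.T5.Iface

/-! Step PCX. -/

set_option autoImplicit false
set_option linter.unusedSectionVars false

namespace Pool.Agent.P.MP_3540e7_al.T5

open Subgroup
open scoped commutatorElement

theorem p_PCX :
    S_PCX := by
  intro G _ hG M' M _ _ hP hM hc hr X hX hXM
  obtain ⟨Γ, hΓ, hΓf⟩ := Group.fg_iff.1 hG
  obtain ⟨m, hm, hmM, hmM'⟩ := hr.fg hM
  have dec : ∀ x ∈ M, ∃ r ∈ M', x * r⁻¹ ∈ closure m := by
    intro x hx
    rw [← hmM'] at hx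
    obtain ⟨u, hu, r, hr, rfl⟩ := (mem_sup_norm (by rw [normalizer_eq_top]; exact le_top)).1 hx
    exact ⟨r, hr, by simpa using hu⟩
  choose! r hr1 hr2 using dec
  let Y : Set G := X ∪ Set.image2 (fun g a => g * a * g⁻¹) (Γ ∪ Γ⁻¹) m
  have hY : Y.Finite := hX.union ((hΓf.union hΓf.inv).image2 _ hm)
  have hYM : Y ⊆ M := by
    rintro y (hy | ⟨g, -, a, ha, rfl⟩)
    · exact hXM hy
    · exact ‹M.Normal›.conj_mem a (hmM ha) g
  let S₀ : Set G := r '' Y ∪ Set.image2 (fun a b => ⁅a, b⁆) m m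
  have hS₀ : S₀.Finite := (hY.image _).union (hm.image2 _ hm)
  have hS₀M : S₀ ⊆ M' := by
    rintro _ (⟨y, hy, rfl⟩ | ⟨a, ha, b, hb, rfl⟩)
    · exact hr1 y (hYM hy)
    · exact hc (commutator_mem_commutator (hmM ha) (hmM hb))
  have hN := hP S₀ hS₀ hS₀M
  set K₀ := normalClosure S₀
  have hYJ : ∀ y ∈ Y, y ∈ closure m ⊔ K₀ := by
    intro y hy
    have := mul_mem_sup (hr2 y (hYM hy)) (subset_normalClosure (s := S₀) (Or.inl ⟨y, hy, rfl⟩))
    simpa using this
  have hJn : (closure m ⊔ K₀).Normal := by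
    rw [← normalizer_eq_top_iff, eq_top_iff, ← hΓ]
    refine le_normalizer_of_gens (fun g hg => conj_mem_closure_sup le_sup_right fun a ha => ?_)
      (fun g hg j hj => ?_)
    · exact hYJ _ (Or.inr ⟨g, Or.inl hg, a, ha, rfl⟩)
    · have := conj_mem_closure_sup (g := g⁻¹) (J := closure m ⊔ K₀) le_sup_right
        (fun a ha => hYJ _ (Or.inr ⟨g⁻¹, Or.inr (by simpa using hg), a, ha, rfl⟩)) j hj
      simpa using this
  have h1 : RN K₀ (closure m ⊔ K₀) := rn_of_fg_comm hm fun a ha b hb =>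
    subset_normalClosure (s := S₀) (Or.inr ⟨a, ha, b, hb, rfl⟩)
  exact Noeth.le (RN.trans' hN h1 bot_le le_sup_right)
    (normalClosure_le_normal fun x hx => hYJ x (Or.inl hx))

end Pool.Agent.P.MP_3540e7_al.T5
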