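import Pool.Agent.P.MP_3540e7_al.T5.Iface

/-! Step POW. -/

set_option autoImplicit false
set_option linter.unusedSectionVars false

namespace Pool.Agent.P.MP_3540e7_al.T5

open Subgroup
open scoped commutatorElement

namespace POWx

variable {G : Type} [Group G]

/-- the commutators of `x` with the elements of `A` -/
def II (A : Subgroup G) [hn : A.Normal] (hA : Ab A) (x : G) : Subgroup G where
  carrier := {y | ∃ b ∈ A, y = ⁅x, b⁆}
  one_mem' := ⟨1, one_mem _, by simp⟩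
  mul_mem' := by
    rintro _ _ ⟨b, hb, rfl⟩ ⟨c, hc, rfl⟩
    refine ⟨b * c, mul_mem hb hc, ?_⟩
    have h1 := hA _ (inv_mem hb) _ (hn.conj_mem c hc x)
    have h2 := hA _ (inv_mem hb) _ (inv_mem hc)
    simp only [commutatorElement_def]
    calc x * b * x⁻¹ * b⁻¹ * (x * c * x⁻¹ * c⁻¹)
        = x * b * x⁻¹ * (b⁻¹ * (x * c * x⁻¹)) * c⁻¹ := by group
      _ = x * b * x⁻¹ * (x * c * x⁻¹) * (b⁻¹ * c⁻¹) := by rw [h1]; group
      _ = x * (b * c) * x⁻¹ * (b * c)⁻¹ := by rw [h2]; group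
  inv_mem' := by
    rintro _ ⟨b, hb, rfl⟩
    refine ⟨b⁻¹, inv_mem hb, ?_⟩
    have h1 := hA _ hb _ (hn.conj_mem _ (inv_mem hb) x)
    simp only [commutatorElement_def]
    calc (x * b * x⁻¹ * b⁻¹)⁻¹ = b * (x * b⁻¹ * x⁻¹) := by group
      _ = x * b⁻¹ * x⁻¹ * b⁻¹⁻¹ := by rw [h1]; group

theorem conj_mem {A : Subgroup G} [hn : A.Normal] (hA : Ab A) {x h y : G} (hh : ⁅h, x⁆ ∈ A)
    (hy : y ∈ II A hA x) : h * y * h⁻¹ ∈ II A hA x := by
  obtain ⟨b, hb, rfl⟩ := hy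
  have hb' := hn.conj_mem b hb h
  refine ⟨h * b * h⁻¹, hb', ?_⟩
  have h1 := hA _ hh _ (hn.conj_mem _ hb' x)
  simp only [commutatorElement_def] at h1 ⊢
  calc h * (x * b * x⁻¹ * b⁻¹) * h⁻¹
      = (h * x * h⁻¹ * x⁻¹ * (x * (h * b * h⁻¹) * x⁻¹)) * (h * x * h⁻¹ * x⁻¹)⁻¹ *
        (h * b * h⁻¹)⁻¹ := by group
    _ = x * (h * b * h⁻¹) * x⁻¹ * (h * b * h⁻¹)⁻¹ := by rw [h1]; group

/-- the elements of `P` whose `m`-th power lies in `I` -/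
def PP (P I : Subgroup G) (hP : Ab P) (m : ℕ) : Subgroup G where
  carrier := {a | a ∈ P ∧ a ^ m ∈ I}
  one_mem' := ⟨one_mem _, by simp⟩
  mul_mem' := by
    rintro a b ⟨ha, ha'⟩ ⟨hb, hb'⟩
    refine ⟨mul_mem ha hb, ?_⟩
    rw [Commute.mul_pow (hP a ha b hb)]
    exact mul_mem ha' hb'
  inv_mem' := by
    rintro a ⟨ha, ha'⟩
    exact ⟨inv_mem ha, by rw [inv_pow]; exact inv_mem ha'⟩

theorem comm_mul (a b x : G) : ⁅a * b, x⁆ = a * ⁅b, x⁆ * a⁻¹ * ⁅a, x⁆ := by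
  simp only [commutatorElement_def]
  group

end POWx

open POWx in
theorem p_POW (hFINA : S_FINA) :
    S_POW := by
  intro G _ A hn x g hA hg hN ⟨m, hm, hb⟩
  have hle : normalClosure {⁅g, x⁆} ≤ A := normalClosure_le_normal (by simpa using hg)
  have hP : Ab (normalClosure {⁅g, x⁆}) := fun a ha b hb => hA a (hle ha) b (hle hb)
  set P2 := PP (normalClosure {⁅g, x⁆}) (II A hA x) hP m with hP2
  have h1 : ⁅g, x⁆ ∈ P2 := ⟨subset_normalClosure rfl, hb⟩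
  have he : ∀ k : ℕ, ⁅g ^ k, x⁆ ∈ P2 := by
    intro k
    induction k with
    | zero => simpa using one_mem P2
    | succ k ih =>
      rw [pow_succ', comm_mul]
      refine mul_mem ⟨normalClosure_normal.conj_mem _ ih.1 g, ?_⟩ h1
      rw [conj_pow]
      exact conj_mem hA hg ih.2
  have hN2 : Noeth P2 := hN.le fun a ha => ha.1
  obtain ⟨T, hT, hTf⟩ := (fg_iff _).1 hN2.fg
  have hi : (II A hA x ⊓ P2).relIndex P2 ≠ 0 := by
    refine hFINA G _ P2 T inf_le_right ?_ hTf (fun t ht => hT ▸ subset_closure ht)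
      (hT ▸ le_sup_left) fun a ha => ⟨m, hm, ha.2, pow_mem ha m⟩
    rw [commutator_le]
    intro a ha b hb
    rw [commutatorElement_eq_one_iff_mul_comm.2 (hP a ha.1 b hb.1)]
    exact one_mem _
  have hfin : Finite (P2 ⧸ (II A hA x ⊓ P2).subgroupOf P2) := Nat.finite_of_card_ne_zero hi
  have key : ∀ k j : ℕ, ⁅g ^ k, x⁆⁻¹ * ⁅g ^ (k + j), x⁆ ∈ II A hA x →
      ∃ b ∈ A, ⁅b * g ^ j, x⁆ = 1 := by
    intro k j h
    have hk : ⁅g ^ k, x⁆ ∈ A := hle (he k).1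
    have hj : ⁅g ^ j, x⁆ ∈ A := hle (he j).1
    rw [pow_add, comm_mul, hA _ (hn.conj_mem _ hj _) _ hk, inv_mul_cancel_left] at h
    have h2 := conj_mem hA (mem_CM'.1 (inv_mem (mem_CM'.2 hk))) h
    rw [show (g ^ k)⁻¹ * (g ^ k * ⁅g ^ j, x⁆ * (g ^ k)⁻¹) * (g ^ k)⁻¹⁻¹ = ⁅g ^ j, x⁆ by group] at h2
    obtain ⟨b, hb, h3⟩ := h2
    refine ⟨b, hb, ?_⟩
    rw [comm_mul, hA _ hb _ hj, mul_inv_cancel_right, h3, ← commutatorElement_inv, inv_mul_cancel]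
  obtain ⟨k, l, hkl, h⟩ := Finite.exists_ne_map_eq_of_infinite
    fun k : ℕ => ((⟨⁅g ^ k, x⁆, he k⟩ : P2) : P2 ⧸ (II A hA x ⊓ P2).subgroupOf P2)
  rcases lt_or_gt_of_ne hkl with hlt | hlt
  · obtain ⟨j, rfl⟩ := Nat.exists_eq_add_of_lt hlt
    have h2 := QuotientGroup.eq.1 h
    exact ⟨j + 1, j.succ_pos, key k (j + 1) h2.1⟩
  · obtain ⟨j, rfl⟩ := Nat.exists_eq_add_of_lt hlt
    have h2 := QuotientGroup.eq.1 h.symm
    exact ⟨j + 1, j.succ_pos, key l (j + 1) h2.1⟩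

end Pool.Agent.P.MP_3540e7_al.T5
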