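import Pool.Agent.P.MP_3540e7_al.T5.Iface

/-! Step PRE. -/

set_option autoImplicit false
set_option linter.unusedSectionVars false

namespace Pool.Agent.P.MP_3540e7_al.T5

open Subgroup
open scoped commutatorElement

theorem p_PRE :
    S_PRE := by
  intro V _ _ φ U h1 h2
  refine Module.Finite.iff_fg.2 (Submodule.fg_of_fg_map_of_fg_inf_ker φ ?_ ?_)
  · exact Module.Finite.iff_fg.1
      (Submodule.finiteDimensional_of_le (Submodule.map_comap_le φ U))
  · exact Module.Finite.iff_fg.1 (Submodule.finiteDimensional_of_le inf_le_right)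

end Pool.Agent.P.MP_3540e7_al.T5
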