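import Pool.Agent.P.MP_3540e7_al.T5.Iface

/-! Step Q0. -/

set_option autoImplicit false
set_option linter.unusedSectionVars false

namespace Pool.Agent.P.MP_3540e7_al.T5

open Subgroup
open scoped commutatorElement

theorem p_Q0 (hMAL : S_MAL) :
    S_Q0 := by
  intro G _ _ P _ hP F hF
  have h1 := (hMAL G P hP).inf_right' (CMs P F) le_top
  rw [top_inf_eq] at h1
  obtain ⟨h2, -⟩ := rn_CMs (B := ⊥) (Z := P) (X := centralizer (P : Set G) ⊓ CMs P F) (hP.map _)
    (fun g hg z hz => mem_bot.2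
      (commutatorElement_eq_one_iff_mul_comm.2 (hg.1 z hz).symm)) F hF
    (fun f hf g hg => mem_CMs.1 hg.2 f hf)
  refine (h2.trans h1 inf_le_left inf_le_right
    (le_normalizer_inf le_norm_top le_normalizer)).mono ?_ le_rfl
  rintro g ⟨⟨a, -⟩, b⟩
  exact ⟨fun f hf => commutatorElement_eq_one_iff_mul_comm.1 (mem_bot.1 (mem_CMs.1 b f hf)), a⟩

end Pool.Agent.P.MP_3540e7_al.T5
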