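import Pool.Agent.P.MP_3540e7_al.T5.Iface

/-! Step Q0C. -/

set_option autoImplicit false
set_option linter.unusedSectionVars false

namespace Pool.Agent.P.MP_3540e7_al.T5

open Subgroup
open scoped commutatorElement

namespace Q0Cx

variable {G : Type} [Group G] (P : Subgroup G) [P.Normal]

theorem cent_eq (F : Set G) :
    centralizer (QuotientGroup.mk' P '' F) = (CMs P F).map (QuotientGroup.mk' P) := by
  have key : ∀ g : G, QuotientGroup.mk' P g ∈ centralizer (QuotientGroup.mk' P '' F) ↔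
      g ∈ CMs P F := by
    intro g
    rw [mem_CMs, mem_centralizer_iff]
    have h1 : ∀ f : G, ⁅f, g⁆ ∈ P ↔ QuotientGroup.mk' P f * QuotientGroup.mk' P g =
        QuotientGroup.mk' P g * QuotientGroup.mk' P f := by
      intro f
      rw [← commutatorElement_eq_one_iff_mul_comm, ← map_commutatorElement]
      exact (QuotientGroup.eq_one_iff _).symm
    constructor
    · exact fun h f hf => (h1 f).2 (h _ ⟨f, hf, rfl⟩)
    · rintro h _ ⟨f, hf, rfl⟩
      exact (h1 f).1 (h f hf)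
  ext q
  obtain ⟨g, rfl⟩ := QuotientGroup.mk'_surjective P q
  constructor
  · exact fun h => ⟨g, (key g).1 h, rfl⟩
  · rintro ⟨g', h, h'⟩
    rw [← h']
    exact (key g').2 h

theorem cent_le (F : Set G) : centralizer F ≤ CMs P F := by
  intro g hg
  rw [mem_CMs]
  intro f hf
  rw [commutatorElement_eq_one_iff_mul_comm.2 (mem_centralizer_iff.1 hg f hf)]
  exact one_mem _

theorem norm1 (F : Set G) : CMs P F ⊓ centralizer (P : Set G) ≤
    normalizer ((centralizer F ⊓ centralizer (P : Set G) : Subgroup G) : Set G) := by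
  refine le_normalizer_of_conj fun g hg j hj => ?_
  rw [mem_inf] at hg hj ⊢
  refine ⟨mem_centralizer_iff.2 fun f hf => ?_, mul_mem (mul_mem hg.2 hj.2) (inv_mem hg.2)⟩
  have h1 : ⁅f, g⁆ ∈ P := mem_CMs.1 hg.1 f hf
  have h2 : ⁅f, g⁆ * (g * j * g⁻¹) = (g * j * g⁻¹) * ⁅f, g⁆ :=
    mem_centralizer_iff.1 (mul_mem (mul_mem hg.2 hj.2) (inv_mem hg.2)) _ h1
  have h3 : f * j = j * f := mem_centralizer_iff.1 hj.1 f hf
  rw [commutatorElement_def] at h2
  have h4 : f⁻¹ * j = j * f⁻¹ := by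
    rw [inv_mul_eq_iff_eq_mul, ← mul_assoc, h3, mul_inv_cancel_right]
  calc f * (g * j * g⁻¹) = f * g * (j * f⁻¹) * g⁻¹ * (g * f * g⁻¹) := by group
    _ = (f * g * f⁻¹ * g⁻¹ * (g * j * g⁻¹)) * (g * f * g⁻¹) := by rw [← h4]; group
    _ = g * j * g⁻¹ * f := by rw [h2]; group

theorem norm2 (F : Set G) : CMs P F ≤
    normalizer ((CMs P F ⊓ centralizer (P : Set G) : Subgroup G) : Set G) := by
  refine le_normalizer_of_conj fun g hg j hj => ?_
  rw [mem_inf] at hj ⊢
  refine ⟨mul_mem (mul_mem hg hj.1) (inv_mem hg), ?_⟩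
  exact (inferInstance : (centralizer (P : Set G)).Normal).conj_mem j hj.2 g

end Q0Cx

theorem p_Q0C (hQ0 : S_Q0) :
    S_Q0C := by
  intro G _ _ P _ hP
  constructor
  · intro hC F hF
    obtain ⟨F', h1, -, rfl⟩ := exists_lift (QuotientGroup.mk' P) (R := ⊤) hF (fun q _ => by
      obtain ⟨g, rfl⟩ := QuotientGroup.mk'_surjective P q
      exact ⟨g, mem_top _, rfl⟩)
    obtain ⟨T, hT, hTf⟩ := (fg_iff _).1 hP.fg
    have h2 : (centralizer F' ⊓ centralizer (P : Set G)).FG := by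
      rw [← hT, centralizer_closure, ← centralizer_union]
      exact hC _ (h1.union hTf)
    rw [Q0Cx.cent_eq]
    obtain ⟨S, hS, hSf⟩ := (fg_iff _).1
      (rn_fg_of (hQ0 G P hP F' h1) (inf_le_left.trans (Q0Cx.cent_le P F')) h2)
    rw [← hS, MonoidHom.map_closure]
    exact (fg_iff _).2 ⟨_, rfl, hSf.image _⟩
  · intro F hF hN
    have h0 := hQ0 G P hP F hF
    have hM : centralizer F ⊓ centralizer (P : Set G) ≤ CMs P F ⊓ centralizer (P : Set G) :=
      inf_le_inf_right _ (Q0Cx.cent_le P F)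
    have h1 : Noeth (CMs P F ⊓ centralizer (P : Set G)) :=
      RN.trans (hN.le inf_le_left) (h0.mono le_rfl inf_le_left) bot_le hM (Q0Cx.norm1 P F)
    have h2 : Noeth (CMs P F) :=
      RN.trans h1 (h0.mono hM le_rfl) bot_le inf_le_left (Q0Cx.norm2 P F)
    rw [Q0Cx.cent_eq]
    exact h2.map _

end Pool.Agent.P.MP_3540e7_al.T5
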