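import Pool.Agent.P.MP_3540e7_al.T5.Iface

/-! Step RAT. -/

set_option autoImplicit false
set_option linter.unusedSectionVars false

namespace Pool.Agent.P.MP_3540e7_al.T5

open Subgroup
open scoped commutatorElement TensorProduct

namespace RATx

variable (M : Type) [AddCommGroup M]

theorem loc : IsLocalizedModule (nonZeroDivisors ℤ) (TensorProduct.mk ℤ ℚ M 1) :=
  (isLocalizedModule_iff_isBaseChange (nonZeroDivisors ℤ) ℚ _).2 (TensorProduct.isBaseChange ℤ M ℚ)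

variable {M}

theorem ker {m : M} (h : (1 : ℚ) ⊗ₜ[ℤ] m = 0) : ∃ n : ℕ, 0 < n ∧ n • m = 0 := by
  have := loc M
  obtain ⟨⟨s, hs⟩, e⟩ := (IsLocalizedModule.eq_zero_iff (nonZeroDivisors ℤ)
    (TensorProduct.mk ℤ ℚ M 1)).1 h
  have e' : s • m = 0 := e
  exact ⟨s.natAbs, Int.natAbs_pos.2 (nonZeroDivisors.ne_zero hs), natAbs_nsmul_eq_zero.2 e'⟩

theorem surj (v : ℚ ⊗[ℤ] M) : ∃ n : ℕ, 0 < n ∧ ∃ m : M, n • v = (1 : ℚ) ⊗ₜ[ℤ] m := by
  have := loc M
  obtain ⟨⟨m, s, hs⟩, e⟩ := IsLocalizedModule.surj (nonZeroDivisors ℤ)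
    (TensorProduct.mk ℤ ℚ M 1) v
  have e' : s • v = (1 : ℚ) ⊗ₜ[ℤ] m := e
  refine ⟨s.natAbs, Int.natAbs_pos.2 (nonZeroDivisors.ne_zero hs), s.sign • m, ?_⟩
  rw [TensorProduct.tmul_smul, ← e', smul_smul, Int.sign_mul_self_eq_natAbs, natCast_zsmul]

end RATx

theorem p_RAT :
    S_RAT := by
  classical
  intro G _ A _ hc
  let : CommGroup A := { (inferInstance : Group A) with
    mul_comm := fun a b => Subtype.ext (hc a.1 a.2 b.1 b.2) }
  let ρ : G →* Module.End ℤ (Additive A) :=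
    { toFun := fun g =>
        (MonoidHom.toAdditive (MulAut.conjNormal g : MulAut A).toMonoidHom).toIntLinearMap
      map_one' := by ext a; simp
      map_mul' := by intro g h; ext a; simp }
  let ι : G → ℚ ⊗[ℤ] Additive A := fun g =>
    if h : g ∈ A then (1 : ℚ) ⊗ₜ[ℤ] Additive.ofMul (⟨g, h⟩ : A) else 0
  have hι : ∀ g (h : g ∈ A), ι g = (1 : ℚ) ⊗ₜ[ℤ] Additive.ofMul (⟨g, h⟩ : A) := fun g h =>
    dif_pos h
  refine ⟨ℚ ⊗[ℤ] Additive A, inferInstance, inferInstance,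
    (Module.End.baseChangeHom ℤ ℚ (Additive A)).toMonoidHom.comp ρ, ι,
    ⟨fun b hb c hc => ?_, fun g b hb => ?_, fun b hb => ?_, fun v => ?_⟩, fun b hb h => ?_⟩
  · rw [hι _ hb, hι _ hc, hι _ (mul_mem hb hc), ← TensorProduct.tmul_add]
    rfl
  · rw [hι _ hb, hι _ (Normal.conj_mem ‹_› b hb g)]
    rfl
  · have : ρ b = 1 := by
      ext a
      change b * (Additive.toMul a : A) * b⁻¹ = (Additive.toMul a : A)
      rw [hc b hb _ (Additive.toMul a).2, mul_inv_cancel_right]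
    rw [MonoidHom.comp_apply, this, map_one]
  · obtain ⟨n, hn, m, e⟩ := RATx.surj v
    exact ⟨n, hn, (Additive.toMul m : A), (Additive.toMul m).2, e.trans (hι _ _).symm⟩
  · rw [hι _ hb] at h
    obtain ⟨n, hn, e⟩ := RATx.ker h
    exact ⟨n, hn, congrArg (fun x : Additive A => ((Additive.toMul x : A) : G)) e⟩

end Pool.Agent.P.MP_3540e7_al.T5
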