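import Pool.Agent.P.MP_3540e7_al.T5.Iface

/-! Step RK0. -/

set_option autoImplicit false
set_option linter.unusedSectionVars false

namespace Pool.Agent.P.MP_3540e7_al.T5

open Subgroup
open scoped commutatorElement

namespace RK0x

theorem main {G M : Type} [Group G] [CommGroup M] (A B : Subgroup G) (f : A →* M)
    (hf : ∀ x, f x = 1 → x.1 ∈ B) (h : Module.rank ℤ (Additive M) < Cardinal.aleph0) : FR A B := by
  obtain ⟨s, h1, h2⟩ := exists_maximal_linearIndepOn ℤ fun x : A => Additive.ofMul (f x)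
  have h3 : s.Finite :=
    Cardinal.lt_aleph0_iff_set_finite.1 ((LinearIndependent.cardinal_le_rank h1).trans_lt h)
  have key : ∀ m ∈ Submodule.span ℤ ((fun x : A => Additive.ofMul (f x)) '' s),
      ∃ t : A, t.1 ∈ closure (Subtype.val '' s) ∧ Additive.ofMul (f t) = m := by
    intro m hm
    induction hm using Submodule.span_induction with
    | mem x hx =>
      obtain ⟨t, ht, rfl⟩ := hx
      exact ⟨t, subset_closure ⟨t, ht, rfl⟩, rfl⟩
    | zero => exact ⟨1, one_mem _, by simp⟩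
    | add x y _ _ hx hy =>
      obtain ⟨t, a, rfl⟩ := hx
      obtain ⟨t', b, rfl⟩ := hy
      exact ⟨t * t', mul_mem a b, by simp⟩
    | smul c x _ hx =>
      obtain ⟨t, a, rfl⟩ := hx
      exact ⟨t ^ c, zpow_mem a c, by simp⟩
  refine ⟨Subtype.val '' s, h3.image _, by rintro _ ⟨t, -, rfl⟩; exact t.2, fun g hg => ?_⟩
  by_cases hs : (⟨g, hg⟩ : A) ∈ s
  · exact ⟨1, one_pos, by rw [pow_one]; exact mem_sup_left (subset_closure ⟨_, hs, rfl⟩)⟩
  obtain ⟨a, ha, h4⟩ := h2 _ hs
  obtain ⟨t, t1, t2⟩ := key _ h4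
  have h5 : g ^ a ∈ closure (Subtype.val '' s) ⊔ B := by
    have := hf (t⁻¹ * ⟨g, hg⟩ ^ a) (by
      rw [map_mul, map_inv, map_zpow, inv_mul_eq_one]
      exact t2)
    rw [← mul_inv_cancel_left t.1 (g ^ a)]
    exact mul_mem (mem_sup_left t1) (mem_sup_right this)
  refine ⟨a.natAbs, Int.natAbs_pos.2 ha, ?_⟩
  rw [← zpow_natCast]
  rcases Int.natAbs_eq a with c | c
  · rwa [← c]
  · rwa [← inv_mem_iff, ← zpow_neg, ← c]

end RK0x

theorem p_RK0 :
    S_RK0 := by
  intro G _ L _ k h
  have e : ∀ j, derivedSeries G j ⊔ L = (derivedSeries (G ⧸ L) j).comap (QuotientGroup.mk' L) :=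
    fun j => by
      rw [← map_derivedSeries_eq (QuotientGroup.mk'_surjective L), comap_map_eq,
        QuotientGroup.ker_mk']
  rw [e, e]
  refine RK0x.main _ _ (Abelianization.of.comp ((QuotientGroup.mk' L).subgroupComap _))
    (fun x hx => ?_) h
  have h1 : (QuotientGroup.mk' L).subgroupComap _ x ∈ _root_.commutator _ := by
    rw [← Abelianization.ker_of]
    exact hx
  have h2 := mem_map_of_mem (derivedSeries (G ⧸ L) k).subtype h1
  rwa [_root_.commutator_def, map_commutator, ← MonoidHom.range_eq_map, range_subtype] at h2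

end Pool.Agent.P.MP_3540e7_al.T5
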