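import Pool.Agent.P.MP_3540e7_al.T5.Iface

/-! Step RNF. -/

set_option autoImplicit false
set_option linter.unusedSectionVars false

namespace Pool.Agent.P.MP_3540e7_al.T5

open Subgroup
open scoped commutatorElement

theorem p_RNF (hMALN : S_MALN) :
    S_RNF := by
  intro G _ _ L H _ E hL hE hEL h
  have ex : ∀ e ∈ E, ∃ T : Set G, T.Finite ∧ T ⊆ orb H {e} ∧
      Subgroup.closure T = Subgroup.closure (orb H {e}) := fun e he =>
    exists_finite_closure (h e he).fg
  choose! T t1 t2 t3 using ex
  have hf : (Subgroup.closure (orb H E)).FG := by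
    refine (fg_iff _).2 ⟨⋃ e ∈ E, T e, le_antisymm (closure_mono ?_) ?_, hE.biUnion t1⟩
    · exact Set.iUnion₂_subset fun e he =>
        (t2 e he).trans (orb_mono le_rfl (Set.singleton_subset_iff.2 he))
    · refine (Subgroup.closure_le _).2 ?_
      rintro _ ⟨g, hg, e, he, rfl⟩
      have : g * e * g⁻¹ ∈ Subgroup.closure (T e) := by
        rw [t3 e he]
        exact subset_closure ⟨g, hg, e, rfl, rfl⟩
      exact closure_mono (Set.subset_biUnion_of_mem (u := T) he) this
  have hN := hL.noeth ((Subgroup.closure_le _).2 (orb_subset H hEL)) hf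
  exact (hMALN G H _ hN (le_normalizer_orb H E)).mono
    (inf_le_inf_left _ (centralizer_le ((subset_orb H E).trans subset_closure))) le_rfl

end Pool.Agent.P.MP_3540e7_al.T5
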