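import Pool.Agent.P.MP_3540e7_al.T5.Iface

/-! Step SAFE. -/

set_option autoImplicit false
set_option linter.unusedSectionVars false

namespace Pool.Agent.P.MP_3540e7_al.T5

open Subgroup
open scoped commutatorElement

theorem p_SAFE (hCH : S_CH) (hPCS : S_PCS) :
    S_SAFE := by
  intro G _ _ L L₁ _ _ hC hL hle hfi
  by_contra hne
  obtain ⟨E, hE, hEL, w, hw, hn, hpc⟩ := hCH G L₁ hne
  refine hn (hPCS G L (centralizer E) w ⟨hL, hle hw, fun E' hE' => ?_, fun E' hE' hs => ?_, hpc⟩)
  · rw [← centralizer_union]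
    exact hC _ (hE.union hE')
  · have h1 : E' ⊆ L₁ := hs.trans (orb_subset _ (by simpa using hw))
    have h2 := hfi _ (hE.union hE') (Set.union_subset hEL h1)
    rw [centralizer_union] at h2
    have h3 : ((centralizer E ⊓ centralizer E') ⊔ L).relIndex (centralizer E) ≠ 0 := by
      have := h2
      exact (instFiniteIndex_subgroupOf _ _).index_ne_zero
    intro h0
    apply h3
    rw [← inf_relIndex_right]
    refine relIndex_eq_zero_of_le_left ?_ h0
    rintro g ⟨hg, hgJ⟩
    obtain ⟨x, hx, m, hm, rfl⟩ := (mem_sup_norm (by rw [normalizer_eq_top]; exact le_top)).1 hg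
    refine mul_mem (mem_sup_left hx) (mem_sup_right ⟨?_, hm⟩)
    have hx1 : x ∈ centralizer E := (mem_inf.1 hx).1
    have hg1 : x * m ∈ centralizer E := hgJ
    have := mul_mem (inv_mem hx1) hg1
    simpa using this

end Pool.Agent.P.MP_3540e7_al.T5
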