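import Pool.Agent.P.MP_3540e7_al.T5.Iface

/-! Step SER. -/

set_option autoImplicit false
set_option linter.unusedSectionVars false

namespace Pool.Agent.P.MP_3540e7_al.T5

open Subgroup
open scoped commutatorElement

theorem p_SER :
    S_SER := by
  intro G _ _ L _
  obtain ⟨i, hi⟩ := exists_der_eq_bot (⊤ : Subgroup G)
  obtain ⟨d, hd⟩ := exists_der_eq_bot L
  have h1 : ∀ N : Subgroup G, Antitone (der N) := fun N => antitone_nat_of_succ_le (der_succ_le N)
  have h2 : ∀ k, i ≤ k → der (⊤ : Subgroup G) k = ⊥ := fun k hk =>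
    le_bot_iff.1 (hi ▸ h1 ⊤ hk)
  refine ⟨fun k => der ⊤ k ⊔ der L (k - i), i + d, i, ⟨top_sup_eq _, ?_, fun k => inferInstance,
    fun k => sup_le_sup (der_succ_le _ _) (h1 L (by omega)), fun k => ?_⟩, ?_, fun k hk => ?_⟩
  · simp [h2, hd]
  · rcases lt_or_ge k i with h | h
    · have := (map_le_map_iff (f := QuotientGroup.mk' L) (H := ⁅der ⊤ k ⊔ L, der ⊤ k ⊔ L⁆)
        (K := der ⊤ (k + 1))).1 (by
          rw [der_succ, map_commutator, map_commutator, Subgroup.map_sup,
            QuotientGroup.map_mk'_self, sup_bot_eq])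
      rw [QuotientGroup.ker_mk'] at this
      simpa only [show k - i = 0 by omega, show k + 1 - i = 0 by omega, der_zero] using this
    · simp only [h2 k h, bot_sup_eq, show k + 1 - i = k - i + 1 by omega]
      exact le_sup_right
  · simp [hi, der_zero]
  · simp only [show k - i = 0 by omega, der_zero, der_top]

end Pool.Agent.P.MP_3540e7_al.T5
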