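import Pool.Agent.P.MP_3540e7_al.T5.Iface

/-! Step SPAN. -/

set_option autoImplicit false
set_option linter.unusedSectionVars false

namespace Pool.Agent.P.MP_3540e7_al.T5

open Subgroup
open scoped commutatorElement

theorem p_SPAN :
    S_SPAN := by
  intro G _ V _ _ H f hf v hv
  let φ : H →* Multiplicative V := MonoidHom.mk' (fun h => Multiplicative.ofAdd (f h))
    fun a b => by rw [← ofAdd_add, ← hf a a.2 b b.2]; rfl
  have hz : ∀ h ∈ H, ∀ z : ℤ, f (h ^ z) = z • f h := by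
    intro h hh z
    have := congrArg Multiplicative.toAdd (map_zpow φ ⟨h, hh⟩ z)
    rw [toAdd_zpow] at this
    exact this
  have hn : ∀ h ∈ H, ∀ n : ℕ, f (h ^ n) = n • f h := by
    intro h hh n
    rw [← zpow_natCast, hz h hh, natCast_zsmul]
  induction hv using Submodule.span_induction with
  | mem v hv =>
    obtain ⟨h, hh, rfl⟩ := hv
    exact ⟨1, one_pos, h, hh, one_nsmul _⟩
  | zero =>
    refine ⟨1, one_pos, 1, one_mem _, ?_⟩
    have := hn 1 (one_mem _) 0
    rw [pow_zero, zero_nsmul] at this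
    rw [this, smul_zero]
  | add v w _ _ h1 h2 =>
    obtain ⟨n, hn0, a, ha, e1⟩ := h1
    obtain ⟨m, hm0, b, hb, e2⟩ := h2
    refine ⟨n * m, Nat.mul_pos hn0 hm0, a ^ m * b ^ n, mul_mem (pow_mem ha _) (pow_mem hb _), ?_⟩
    rw [hf _ (pow_mem ha _) _ (pow_mem hb _), hn a ha, hn b hb, ← e1, ← e2, smul_add, smul_smul,
      smul_smul, mul_comm m n]
  | smul q v _ h1 =>
    obtain ⟨n, hn0, a, ha, e1⟩ := h1
    refine ⟨q.den * n, Nat.mul_pos q.den_pos hn0, a ^ q.num, zpow_mem ha _, ?_⟩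
    rw [hz a ha, ← e1, ← Nat.cast_smul_eq_nsmul ℚ, ← Nat.cast_smul_eq_nsmul ℚ,
      ← Int.cast_smul_eq_zsmul ℚ, smul_smul, smul_smul]
    congr 1
    rw [← Rat.mul_den_eq_num]
    push_cast
    ring

end Pool.Agent.P.MP_3540e7_al.T5
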