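import Pool.Agent.P.MP_3540e7_al.T5.Iface

/-! Step TOP. -/

set_option autoImplicit false
set_option linter.unusedSectionVars false

namespace Pool.Agent.P.MP_3540e7_al.T5

open Subgroup
open scoped commutatorElement

theorem p_TOP (hIG : S_IG) (hTR : S_TR) (hAB : S_AB) :
    S_TOP := by
  intro G _ _ hfg R _ x hx hPC hWK
  obtain ⟨Γ, hΓ, hΓf⟩ := Group.fg_iff.1 hfg
  have key : ∀ k, ∃ F : Set G, F.Finite ∧ F ⊆ R ∧
      (∀ s ∈ Γ, ⁅x, s * x * s⁻¹⁆ ∈ F ∧ ⁅x, s⁻¹ * x * s⁆ ∈ F) ∧
      Per (normalClosure F ⊔ der R k) R := by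
    intro k
    induction k with
    | zero =>
      refine ⟨(fun s => ⁅x, s * x * s⁻¹⁆) '' Γ ∪ (fun s => ⁅x, s⁻¹ * x * s⁆) '' Γ,
        (hΓf.image _).union (hΓf.image _), ?_,
        fun s hs => ⟨Or.inl ⟨s, hs, rfl⟩, Or.inr ⟨s, hs, rfl⟩⟩,
        fun g hg => ⟨1, one_pos, mem_sup_right (by rw [pow_one]; exact hg)⟩⟩
      rintro _ (⟨s, -, rfl⟩ | ⟨s, -, rfl⟩)
      · exact hx s
      · simpa using hx s⁻¹
    | succ k ih =>
      obtain ⟨F, h1, h2, h3, h4⟩ := ih
      obtain ⟨N, hN⟩ : ∃ N, N = normalClosure F ⊔ der R (k + 1) := ⟨_, rfl⟩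
      have : N.Normal := by rw [hN]; infer_instance
      have hFN : normalClosure F ≤ N := hN ▸ le_sup_left
      have hDN : der R (k + 1) ≤ N := hN ▸ le_sup_right
      have hNR : N ≤ R := hN ▸ sup_le (normalClosure_le_normal h2) (der_le R _)
      have hs := QuotientGroup.mk'_surjective N
      obtain ⟨π, hπ⟩ : ∃ π, π = QuotientGroup.mk' N := ⟨_, rfl⟩
      have hk : π.ker = N := by rw [hπ, QuotientGroup.ker_mk']
      have hb : ∀ A : Subgroup G, A ≤ N → A.map π = ⊥ := fun A hA =>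
        (Subgroup.map_eq_bot_iff _).2 (hA.trans hk.ge)
      have hW := (hTR G N N R x le_rfl hNR).1 (hIG G R N x hPC hNR hWK)
      rw [← hπ] at hs hW
      rw [hb N le_rfl] at hW
      have : (R.map π).Normal := Normal.map inferInstance π hs
      have : ((der R k).map π).Normal := Normal.map inferInstance π hs
      have hc : ∀ y, ⁅x, y⁆ ∈ F → Commute (π x) (π y) := fun y hy => by
        rw [← commutatorElement_eq_one_iff_commute, ← map_commutatorElement, ← MonoidHom.mem_ker,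
          hk]
        exact hFN (subset_normalClosure hy)
      have hP : ∀ g ∈ normalClosure F ⊔ der R k, π g ∈ (der R k).map π := fun g hg => by
        have := mem_map_of_mem π hg
        rwa [Subgroup.map_sup, hb _ hFN, bot_sup_eq] at this
      obtain ⟨T', t1, t2, t3⟩ := hAB (G ⧸ N) (π '' Γ) (R.map π) ((der R k).map π) (π x)
        (by rw [← MonoidHom.map_closure, hΓ, map_top_of_surjective π hs])
        (by
          rintro _ ⟨s, hs, rfl⟩
          exact ⟨by simpa using hc _ (h3 s hs).1, by simpa using hc _ (h3 s hs).2⟩)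
        (fun g => by
          obtain ⟨g, rfl⟩ := hs g
          simpa using mem_map_of_mem π (hx g))
        (hPC.map π hs) (map_mono (der_le R k))
        (by rw [ab_iff, ← map_commutator]; exact hb _ hDN)
        (by
          rintro _ ⟨g, hg, rfl⟩
          obtain ⟨n, n0, hn⟩ := h4 g hg
          exact ⟨n, n0, by rw [← map_pow]; exact hP _ hn⟩) hW
      obtain ⟨T, u1, u2, rfl⟩ := exists_lift π t1 t2
      refine ⟨F ∪ T, h1.union u1, Set.union_subset h2 fun a ha => der_le R k (u2 ha),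
        fun s hs => ⟨Or.inl (h3 s hs).1, Or.inl (h3 s hs).2⟩, fun g hg => ?_⟩
      obtain ⟨n, n0, hn⟩ := h4 g hg
      obtain ⟨m, m0, hm⟩ := t3 _ (hP _ hn)
      refine ⟨n * m, Nat.mul_pos n0 m0, ?_⟩
      rw [← map_pow, ← MonoidHom.map_closure, ← mem_comap, comap_map_eq, hk, ← pow_mul] at hm
      refine (sup_le ?_ ?_ : closure T ⊔ N ≤ _) hm
      · exact le_sup_of_le_left ((Subgroup.closure_le _).2 fun a ha =>
          subset_normalClosure (Or.inr ha))
      · rw [hN]
        exact sup_le_sup_right (normalClosure_mono Set.subset_union_left) _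
  obtain ⟨d, hd⟩ := exists_der_eq_bot R
  obtain ⟨F, h1, h2, -, h4⟩ := key d
  rw [hd, sup_bot_eq] at h4
  exact ⟨F, h1, h2, h4⟩

end Pool.Agent.P.MP_3540e7_al.T5
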