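import Pool.Agent.P.MP_3540e7_al.T5.Iface

/-! Step TR. -/

set_option autoImplicit false
set_option linter.unusedSectionVars false

namespace Pool.Agent.P.MP_3540e7_al.T5

open Subgroup
open scoped commutatorElement

namespace TRx

theorem mem_map_iff {G : Type} [Group G] {A M : Subgroup G} [A.Normal] (h : A ≤ M) (g : G) :
    QuotientGroup.mk' A g ∈ M.map (QuotientGroup.mk' A) ↔ g ∈ M := by
  rw [← mem_comap, comap_map_eq, QuotientGroup.ker_mk', sup_eq_left.2 h]

theorem map_eq {G : Type} [Group G] (A N : Subgroup G) [A.Normal] (F : Set G) :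
    normalClosure (QuotientGroup.mk' A '' F) ⊔ N.map (QuotientGroup.mk' A) =
      (normalClosure F ⊔ N).map (QuotientGroup.mk' A) := by
  rw [Subgroup.map_sup, map_normalClosure F _ (QuotientGroup.mk'_surjective A)]

end TRx

open TRx in
theorem p_TR :
    S_TR := by
  intro G _ A N R _ _ x hAN hNR
  constructor
  · rintro ⟨F, hF, hFR, h⟩
    refine ⟨QuotientGroup.mk' A '' F, hF.image _, ?_, ?_⟩
    · rintro _ ⟨f, hf, rfl⟩
      exact mem_map_of_mem _ (hFR hf)
    · rintro _ ⟨g, hg, rfl⟩ hc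
      rw [← map_commutatorElement, mem_map_iff hAN] at hc
      obtain ⟨n, hn, h1⟩ := h g hg hc
      refine ⟨n, hn, ?_⟩
      rw [map_eq, ← map_pow]
      exact mem_map_of_mem _ h1
  · rintro ⟨F, hF, hFR, h⟩
    obtain ⟨F', h1, h2, rfl⟩ := exists_lift _ hF hFR
    refine ⟨F', h1, h2, fun g hg hc => ?_⟩
    obtain ⟨n, hn, h3⟩ := h _ (mem_map_of_mem _ hg) (by
      rw [← map_commutatorElement]
      exact mem_map_of_mem _ hc)
    rw [map_eq, ← map_pow, mem_map_iff (hAN.trans le_sup_right)] at h3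
    exact ⟨n, hn, h3⟩

end Pool.Agent.P.MP_3540e7_al.T5
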