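import Pool.Agent.P.MP_3540e7_al.T5.Iface

/-! Step ZZ. -/

set_option autoImplicit false
set_option linter.unusedSectionVars false

namespace Pool.Agent.P.MP_3540e7_al.T5

open Subgroup
open scoped commutatorElement

theorem p_ZZ :
    S_ZZ := by
  intro G _ N D _ hD 𝓗 hF H hH ⟨Y, hY, hYN, hCl⟩
  obtain ⟨Z₀, hZ₀, hZH, hZY⟩ := hF.ep H hH Y hY hYN
  obtain ⟨T, hT, hTt⟩ := finiteIndex_iff'.1 (hF.fi H hH)
  have key : ∃ Z ∈ 𝓗, Z ≤ H ∧ ∀ t ∈ T, ∀ z ∈ Z, t⁻¹ * z * t ∈ Z₀ := by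
    clear hTt
    induction T, hT using Set.Finite.induction_on with
    | empty => exact ⟨H, hH, le_rfl, fun t ht => ht.elim⟩
    | @insert a s _ _ ih =>
      obtain ⟨Z, h1, h2, h3⟩ := ih
      refine ⟨Z ⊓ Z₀.comap (MulAut.conj a⁻¹).toMonoidHom, hF.inf _ h1 _ (hF.conj _ hZ₀ _),
        inf_le_left.trans h2, ?_⟩
      rintro t (rfl | ht) z hz
      · have h4 : t⁻¹ * z * t⁻¹⁻¹ ∈ Z₀ := hz.2
        rwa [inv_inv] at h4
      · exact h3 t ht z hz.1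
  obtain ⟨Z, h1, h2, h3⟩ := key
  refine ⟨Z, h1, h2, fun g => ?_⟩
  obtain ⟨t, ht, hg⟩ := hTt g
  rw [sup_comm] at hg
  obtain ⟨n, hn, h', hh', e⟩ := mem_sup_of_normal_left.1 hg
  obtain ⟨a, ha, y, hy, h, hh, rfl⟩ := hCl n hn
  refine ⟨t * y, h * h', mul_mem hh.1 hh', (y * h * h')⁻¹ * a * (y * h * h')⁻¹⁻¹,
    hD.conj_mem a ha _, ?_, fun z hz => ?_⟩
  · have : g = t * (a * y * h * h') := by rw [e]; group
    rw [this]; group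
  · have h4 := hZH (hZY y⁻¹ (inv_mem hy) _ (h3 t ht z hz))
    have e' : (t * y)⁻¹ * z * (t * y) = y⁻¹ * (t⁻¹ * z * t) * y⁻¹⁻¹ := by group
    rwa [e']

end Pool.Agent.P.MP_3540e7_al.T5
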