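import Pool.Agent.P.MP_3540e7_al.T5.TMALR
import Pool.Agent.P.MP_3540e7_al.T5.TMALA
import Pool.Agent.P.MP_3540e7_al.T5.TMAL
import Pool.Agent.P.MP_3540e7_al.T5.TMALN
import Pool.Agent.P.MP_3540e7_al.T5.TQ0
import Pool.Agent.P.MP_3540e7_al.T5.TQ0C
import Pool.Agent.P.MP_3540e7_al.T5.TFINA
import Pool.Agent.P.MP_3540e7_al.T5.TFIN
import Pool.Agent.P.MP_3540e7_al.T5.TPCX
import Pool.Agent.P.MP_3540e7_al.T5.TLAY
import Pool.Agent.P.MP_3540e7_al.T5.TCH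
import Pool.Agent.P.MP_3540e7_al.T5.TFI1
import Pool.Agent.P.MP_3540e7_al.T5.TFI
import Pool.Agent.P.MP_3540e7_al.T5.TRAT
import Pool.Agent.P.MP_3540e7_al.T5.TSPAN
import Pool.Agent.P.MP_3540e7_al.T5.THOM
import Pool.Agent.P.MP_3540e7_al.T5.TDCC
import Pool.Agent.P.MP_3540e7_al.T5.TRK0
import Pool.Agent.P.MP_3540e7_al.T5.TSER
import Pool.Agent.P.MP_3540e7_al.T5.TMIN
import Pool.Agent.P.MP_3540e7_al.T5.TLFD
import Pool.Agent.P.MP_3540e7_al.T5.TKER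
import Pool.Agent.P.MP_3540e7_al.T5.TLIN
import Pool.Agent.P.MP_3540e7_al.T5.TPRE
import Pool.Agent.P.MP_3540e7_al.T5.TPOW
import Pool.Agent.P.MP_3540e7_al.T5.TI1
import Pool.Agent.P.MP_3540e7_al.T5.TI
import Pool.Agent.P.MP_3540e7_al.T5.TTR
import Pool.Agent.P.MP_3540e7_al.T5.TIG
import Pool.Agent.P.MP_3540e7_al.T5.TPATH
import Pool.Agent.P.MP_3540e7_al.T5.TCOC
import Pool.Agent.P.MP_3540e7_al.T5.TABC
import Pool.Agent.P.MP_3540e7_al.T5.TQUO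
import Pool.Agent.P.MP_3540e7_al.T5.TAB
import Pool.Agent.P.MP_3540e7_al.T5.TTOP
import Pool.Agent.P.MP_3540e7_al.T5.TCNT
import Pool.Agent.P.MP_3540e7_al.T5.TB2
import Pool.Agent.P.MP_3540e7_al.T5.TB1
import Pool.Agent.P.MP_3540e7_al.T5.TBC
import Pool.Agent.P.MP_3540e7_al.T5.TB
import Pool.Agent.P.MP_3540e7_al.T5.TZZ
import Pool.Agent.P.MP_3540e7_al.T5.TFKA
import Pool.Agent.P.MP_3540e7_al.T5.TFKB
import Pool.Agent.P.MP_3540e7_al.T5.TFKC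
import Pool.Agent.P.MP_3540e7_al.T5.TFK
import Pool.Agent.P.MP_3540e7_al.T5.TCL1
import Pool.Agent.P.MP_3540e7_al.T5.TCLA
import Pool.Agent.P.MP_3540e7_al.T5.TEP
import Pool.Agent.P.MP_3540e7_al.T5.TRNF
import Pool.Agent.P.MP_3540e7_al.T5.TPC2
import Pool.Agent.P.MP_3540e7_al.T5.TFAM
import Pool.Agent.P.MP_3540e7_al.T5.TPCS
import Pool.Agent.P.MP_3540e7_al.T5.TSAFE
import Pool.Agent.P.MP_3540e7_al.T5.TMAIN0
import Pool.Agent.P.MP_3540e7_al.T5.TMAIN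

/-! Assembly. -/

set_option autoImplicit false

namespace Pool.Agent.P.MP_3540e7_al.T5

theorem q_MALR : S_MALR := p_MALR

theorem q_MALA : S_MALA := p_MALA q_MALR

theorem q_MAL : S_MAL := p_MAL q_MALA

theorem q_MALN : S_MALN := p_MALN q_MAL

theorem q_Q0 : S_Q0 := p_Q0 q_MAL

theorem q_Q0C : S_Q0C := p_Q0C q_Q0

theorem q_FINA : S_FINA := p_FINA

theorem q_FIN : S_FIN := p_FIN q_FINA

theorem q_PCX : S_PCX := p_PCX

theorem q_LAY : S_LAY := p_LAY q_PCX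

theorem q_CH : S_CH := p_CH

theorem q_FI1 : S_FI1 := p_FI1

theorem q_FI : S_FI := p_FI q_FI1 q_FINA

theorem q_RAT : S_RAT := p_RAT

theorem q_SPAN : S_SPAN := p_SPAN

theorem q_HOM : S_HOM := p_HOM q_SPAN

theorem q_DCC : S_DCC := p_DCC q_RAT q_SPAN

theorem q_RK0 : S_RK0 := p_RK0

theorem q_SER : S_SER := p_SER

theorem q_MIN : S_MIN := p_MIN q_DCC

theorem q_LFD : S_LFD := p_LFD

theorem q_KER : S_KER := p_KER

theorem q_LIN : S_LIN := p_LIN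

theorem q_PRE : S_PRE := p_PRE

theorem q_POW : S_POW := p_POW q_FINA

theorem q_I1 : S_I1 := p_I1 q_HOM

theorem q_I : S_I := p_I q_MAL q_RAT q_LFD q_KER q_LIN q_I1 q_POW

theorem q_TR : S_TR := p_TR

theorem q_IG : S_IG := p_IG q_I q_TR

theorem q_PATH : S_PATH := p_PATH

theorem q_COC : S_COC := p_COC

theorem q_ABC : S_ABC := p_ABC q_PATH q_COC q_PRE

theorem q_QUO : S_QUO := p_QUO

theorem q_AB : S_AB := p_AB q_RAT q_LFD q_KER q_LIN q_PRE q_QUO q_ABC q_FIN q_HOM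

theorem q_TOP : S_TOP := p_TOP q_IG q_TR q_AB

theorem q_CNT : S_CNT := p_CNT

theorem q_B2 : S_B2 := p_B2 q_FIN q_CNT q_PCX q_MAL

theorem q_B1 : S_B1 := p_B1 q_TOP q_Q0C q_B2

theorem q_BC : S_BC := p_BC q_B1

theorem q_B : S_B := p_B q_BC q_Q0C

theorem q_ZZ : S_ZZ := p_ZZ

theorem q_FKA : S_FKA := p_FKA

theorem q_FKB : S_FKB := p_FKB

theorem q_FKC : S_FKC := p_FKC

theorem q_FK : S_FK := p_FK q_ZZ q_FKA q_FKB q_FKC

theorem q_CL1 : S_CL1 := p_CL1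

theorem q_CLA : S_CLA := p_CLA q_FK q_CL1

theorem q_EP : S_EP := p_EP

theorem q_RNF : S_RNF := p_RNF q_MALN

theorem q_PC2 : S_PC2 := p_PC2

theorem q_FAM : S_FAM := p_FAM q_EP q_RNF q_PC2

theorem q_PCS : S_PCS := p_PCS q_FAM q_CLA

theorem q_SAFE : S_SAFE := p_SAFE q_CH q_PCS

theorem q_MAIN0 : S_MAIN0 := p_MAIN0 q_FI q_SAFE q_LAY q_B

theorem q_MAIN : S_MAIN := p_MAIN q_RK0 q_SER q_MIN q_MAIN0

end Pool.Agent.P.MP_3540e7_al.T5
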