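import Pool.Agent.P.MP_3540e7_al.Cfg

/-! Definitions and small tools for the locally polycyclic by finite rank case. -/

set_option autoImplicit false

namespace Pool.Agent.P.MP_3540e7_al.T5

open Subgroup
open scoped commutatorElement

variable {G : Type} [Group G] {Q : Type} [Group Q]

/-- property (C) for finite sets -/
def HC (G : Type) [Group G] : Prop := ∀ F : Set G, F.Finite → (centralizer F).FG

/-- derived series of a subgroup, inside the ambient group -/
def der (N : Subgroup G) : ℕ → Subgroup G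
  | 0 => N
  | k + 1 => ⁅der N k, der N k⁆

/-- locally polycyclic -/
def LP (L : Subgroup G) : Prop := ∀ F : Set G, F.Finite → F ⊆ L → Noeth (closure F)

/-- finite subsets have polycyclic normal closure in the ambient group -/
def PC (R : Subgroup G) : Prop := ∀ F : Set G, F.Finite → F ⊆ R → Noeth (normalClosure F)

/-- conjugates of the elements of `E` by the elements of `H` -/
def orb (H : Subgroup G) (E : Set G) : Set G := {w | ∃ h ∈ H, ∃ e ∈ E, w = h * e * h⁻¹}

/-- every element of `R` has a power in `B` -/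
def Per (B R : Subgroup G) : Prop := ∀ g ∈ R, ∃ n : ℕ, 0 < n ∧ g ^ n ∈ B

/-- finite rank of the abelian section `A / B` -/
def FR (A B : Subgroup G) : Prop := ∃ T : Set G, T.Finite ∧ T ⊆ A ∧ Per (closure T ⊔ B) A

/-- weak killer modulo `N` -/
def WK (N R : Subgroup G) (x : G) : Prop :=
  ∃ F : Set G, F.Finite ∧ F ⊆ R ∧
    ∀ g ∈ R, ⁅g, x⁆ ∈ N → ∃ n : ℕ, 0 < n ∧ g ^ n ∈ normalClosure F ⊔ N

/-- all finite subsets have a non-polycyclic centralizer -/
def Safe (L : Subgroup G) : Prop := ∀ E : Set G, E.Finite → E ⊆ L → ¬ Noeth (centralizer E)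

/-- `A` is abelian -/
def Ab (A : Subgroup G) : Prop := ∀ a ∈ A, ∀ b ∈ A, a * b = b * a

/-- a normal series with abelian factors -/
structure Ser (s : ℕ → Subgroup G) (d : ℕ) : Prop where
  top : s 0 = ⊤
  bot : s d = ⊥
  nrm : ∀ k, (s k).Normal
  le : ∀ k, s (k + 1) ≤ s k
  cm : ∀ k, ⁅s k, s k⁆ ≤ s (k + 1)

/-- a rational module spanned by an equivariant additive image of `A` -/
structure Rt (A : Subgroup G) {V : Type} [AddCommGroup V] [Module ℚ V]
    (a : G →* Module.End ℚ V) (ι : G → V) : Prop where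
  add : ∀ b ∈ A, ∀ c ∈ A, ι (b * c) = ι b + ι c
  conj : ∀ g, ∀ b ∈ A, ι (g * b * g⁻¹) = a g (ι b)
  triv : ∀ b ∈ A, a b = 1
  span : ∀ v : V, ∃ n : ℕ, 0 < n ∧ ∃ b ∈ A, n • v = ι b

/-- locally finite-dimensional representation -/
def LFD {V : Type} [AddCommGroup V] [Module ℚ V] (a : G →* Module.End ℚ V) : Prop :=
  ∀ U : Submodule ℚ V, FiniteDimensional ℚ U →
    ∃ W : Submodule ℚ V, U ≤ W ∧ FiniteDimensional ℚ W ∧ ∀ g, ∀ w ∈ W, a g w ∈ W

/-- the family of pointwise stabilizers, abstractly -/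
structure Fam (N : Subgroup G) (𝓗 : Set (Subgroup G)) : Prop where
  lp : LP N
  fg : ∀ H ∈ 𝓗, H.FG
  fi : ∀ H ∈ 𝓗, (H ⊔ N).FiniteIndex
  inf : ∀ H ∈ 𝓗, ∀ H' ∈ 𝓗, H ⊓ H' ∈ 𝓗
  conj : ∀ H ∈ 𝓗, ∀ g : G, H.comap (MulAut.conj g).toMonoidHom ∈ 𝓗
  ep : ∀ H ∈ 𝓗, ∀ Y : Set G, Y.Finite → Y ⊆ N →
    ∃ Z ∈ 𝓗, Z ≤ H ∧ ∀ y ∈ closure Y, ∀ z ∈ Z, y * z * y⁻¹ ∈ Z
  rn : ∀ H ∈ 𝓗, ∀ Z ∈ 𝓗, Z ≤ H → RN Z H

/-- `N = D ⟨Y⟩ (H ∩ N)` for a finite `Y` -/
def Cl (N D H : Subgroup G) : Prop :=
  ∃ Y : Set G, Y.Finite ∧ Y ⊆ N ∧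
    ∀ n ∈ N, ∃ a ∈ D, ∃ y ∈ closure Y, ∃ h ∈ H ⊓ N, n = a * y * h

/-- `D / (H ∩ D) D'` is finitely generated -/
def Fk (D D' H : Subgroup G) : Prop :=
  ∃ Y : Set G, Y.Finite ∧ Y ⊆ D ∧ D ≤ closure Y ⊔ ((H ⊓ D) ⊔ D')

/-- the situation produced by the chain bound -/
structure Cx (L J : Subgroup G) (w : G) : Prop where
  lp : LP L
  mem : w ∈ L
  fg : ∀ E : Set G, E.Finite → (J ⊓ centralizer E).FG
  fi : ∀ E : Set G, E.Finite → E ⊆ orb J {w} →
    ((J ⊓ centralizer E) ⊔ (J ⊓ L)).relIndex J ≠ 0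
  pc : ∀ w' ∈ orb J {w}, Noeth (closure (orb (J ⊓ centralizer {w}) {w'}))

/-! ### derived series -/

theorem der_zero (N : Subgroup G) : der N 0 = N := rfl

theorem der_succ (N : Subgroup G) (k : ℕ) : der N (k + 1) = ⁅der N k, der N k⁆ := rfl

instance der_normal (N : Subgroup G) [N.Normal] : ∀ k, (der N k).Normal
  | 0 => ‹_›
  | k + 1 => by
    have := der_normal N k
    rw [der_succ]; infer_instance

theorem der_succ_le (N : Subgroup G) (k : ℕ) : der N (k + 1) ≤ der N k := by
  rw [der_succ, commutator_le]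
  intro a ha b hb
  rw [commutatorElement_def]
  exact mul_mem (mul_mem (mul_mem ha hb) (inv_mem ha)) (inv_mem hb)

theorem der_le (N : Subgroup G) : ∀ k, der N k ≤ N
  | 0 => le_rfl
  | k + 1 => (der_succ_le N k).trans (der_le N k)

theorem der_mono {N N' : Subgroup G} (h : N ≤ N') : ∀ k, der N k ≤ der N' k
  | 0 => h
  | k + 1 => commutator_mono (der_mono h k) (der_mono h k)

theorem der_map (f : G →* Q) (N : Subgroup G) : ∀ k, (der N k).map f = der (N.map f) k
  | 0 => rfl
  | k + 1 => by rw [der_succ, der_succ, map_commutator, der_map f N k]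

theorem der_top : ∀ k, der (⊤ : Subgroup G) k = derivedSeries G k
  | 0 => rfl
  | k + 1 => by rw [der_succ, der_top k, derivedSeries_succ]

theorem exists_der_eq_bot [Group.IsSolvable G] (N : Subgroup G) : ∃ d, der N d = ⊥ := by
  obtain ⟨n, hn⟩ := Group.IsSolvable.solvable (G := G)
  exact ⟨n, le_bot_iff.1 ((der_mono le_top n).trans (by rw [der_top, hn]))⟩

theorem ab_iff {A : Subgroup G} : Ab A ↔ ⁅A, A⁆ = ⊥ := by
  rw [← le_bot_iff, commutator_le]
  simp only [Ab, mem_bot, commutatorElement_eq_one_iff_mul_comm]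

/-! ### finite generation -/

theorem HC.fg (h : HC G) : Group.FG G := by
  have := h ∅ Set.finite_empty
  rw [show centralizer (∅ : Set G) = ⊤ from by ext; simp [mem_centralizer_iff]] at this
  exact ⟨this⟩

theorem centralizer_union (E F : Set G) : centralizer (E ∪ F) = centralizer E ⊓ centralizer F := by
  ext g
  simp only [mem_centralizer_iff, mem_inf, Set.mem_union]
  exact ⟨fun h => ⟨fun a ha => h a (Or.inl ha), fun a ha => h a (Or.inr ha)⟩,
    fun h a ha => ha.elim (h.1 a) (h.2 a)⟩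

theorem centralizer_subgroupOf (J : Subgroup G) (E : Set J) :
    centralizer E = (centralizer ((↑) '' E : Set G)).subgroupOf J := by
  ext g
  simp only [mem_centralizer_iff, mem_subgroupOf]
  constructor
  · rintro h _ ⟨a, ha, rfl⟩
    exact congrArg Subtype.val (h a ha)
  · intro h a ha
    exact Subtype.ext (h a ⟨a, ha, rfl⟩)

theorem fg_subgroupOf {K J : Subgroup G} (h : (J ⊓ K).FG) : (K.subgroupOf J).FG := by
  have h1 : Group.FG ↥(J ⊓ K) := (Group.fg_iff_subgroup_fg _).2 h
  have h2 : Group.FG ((J ⊓ K).subgroupOf J) := Group.fg_of_surjective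
    (f := (subgroupOfEquivOfLe (inf_le_left : J ⊓ K ≤ J)).symm.toMonoidHom)
    (subgroupOfEquivOfLe _).symm.surjective
  rw [inf_subgroupOf_left] at h2
  exact (Group.fg_iff_subgroup_fg _).1 h2

theorem noeth_subgroupOf {K J : Subgroup G} : Noeth (K.subgroupOf J) ↔ Noeth (J ⊓ K) := by
  constructor
  · intro h
    have := h.map J.subtype
    rwa [subgroupOf_map_subtype, inf_comm] at this
  · intro h
    have := RN.comap J.subtype bot_le h
    rwa [MonoidHom.comap_bot, ker_subtype, comap_subtype, inf_subgroupOf_left] at this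

theorem HC.centralizer (h : HC G) {E : Set G} (hE : E.Finite) : HC (centralizer E) := by
  intro F hF
  rw [centralizer_subgroupOf]
  refine fg_subgroupOf ?_
  rw [← centralizer_union]
  exact h _ (hE.union (hF.image _))

/-- a finitely generated closure is generated by a finite part of the set -/
theorem exists_finite_closure {S : Set G} (h : (closure S).FG) :
    ∃ T : Set G, T.Finite ∧ T ⊆ S ∧ closure T = closure S := by
  obtain ⟨U, hU, hUf⟩ := (fg_iff _).1 h
  have key : ∀ u ∈ closure S, ∃ T : Set G, T.Finite ∧ T ⊆ S ∧ u ∈ closure T := by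
    intro u hu
    induction hu using closure_induction with
    | mem x hx => exact ⟨{x}, Set.finite_singleton x, by simpa using hx, subset_closure rfl⟩
    | one => exact ⟨∅, Set.finite_empty, Set.empty_subset _, one_mem _⟩
    | mul x y _ _ hx hy =>
      obtain ⟨T, h1, h2, h3⟩ := hx
      obtain ⟨T', h1', h2', h3'⟩ := hy
      exact ⟨T ∪ T', h1.union h1', Set.union_subset h2 h2',
        mul_mem (closure_mono Set.subset_union_left h3) (closure_mono Set.subset_union_right h3')⟩
    | inv x _ hx =>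
      obtain ⟨T, h1, h2, h3⟩ := hx
      exact ⟨T, h1, h2, inv_mem h3⟩
  choose! T h1 h2 h3 using key
  have hUS : ∀ u ∈ U, u ∈ closure S := fun u hu => hU ▸ subset_closure hu
  refine ⟨⋃ u ∈ U, T u, hUf.biUnion fun u hu => h1 u (hUS u hu),
    Set.iUnion₂_subset fun u hu => h2 u (hUS u hu),
    le_antisymm (closure_mono (Set.iUnion₂_subset fun u hu => h2 u (hUS u hu))) ?_⟩
  rw [← hU, closure_le]
  intro u hu
  exact closure_mono (Set.subset_biUnion_of_mem (u := T) hu) (h3 u (hUS u hu))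

theorem rn_fg_of {M K : Subgroup G} (h : RN M K) (hM : M ≤ K) (hf : M.FG) : K.FG := by
  obtain ⟨S, hS, -, hSK⟩ := h.fg hM
  obtain ⟨U, hU, hUf⟩ := (fg_iff _).1 hf
  exact (fg_iff _).2 ⟨S ∪ U, by rw [Subgroup.closure_union, hU, hSK], hS.union hUf⟩

/-- finite sets in an image lift to finite sets -/
theorem exists_lift (f : G →* Q) {R : Subgroup G} {F : Set Q} (hF : F.Finite) (h : F ⊆ R.map f) :
    ∃ F' : Set G, F'.Finite ∧ F' ⊆ R ∧ f '' F' = F := by
  have : ∀ q ∈ F, ∃ g ∈ R, f g = q := fun q hq => h hq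
  choose! σ h1 h2 using this
  refine ⟨σ '' F, hF.image _, ?_, ?_⟩
  · rintro _ ⟨q, hq, rfl⟩; exact h1 q hq
  · ext q
    constructor
    · rintro ⟨_, ⟨p, hp, rfl⟩, rfl⟩; rwa [h2 p hp]
    · exact fun hq => ⟨σ q, ⟨q, hq, rfl⟩, h2 q hq⟩

theorem noeth_of_quot {P : Subgroup G} [P.Normal] (hP : Noeth P)
    (h : Noeth (⊤ : Subgroup (G ⧸ P))) : Noeth (⊤ : Subgroup G) :=
  RN.trans' hP ((rn_iff_map le_top).2 (h.le le_top)) bot_le le_top

/-! ### LP and PC -/

theorem LP.mono {L L' : Subgroup G} (h : LP L) (hL : L' ≤ L) : LP L' :=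
  fun F hF hF' => h F hF (hF'.trans hL)

theorem LP.noeth {L K : Subgroup G} (h : LP L) (hK : K ≤ L) (hf : K.FG) : Noeth K := by
  obtain ⟨U, hU, hUf⟩ := (fg_iff _).1 hf
  rw [← hU]
  exact h U hUf fun u hu => hK (hU ▸ subset_closure hu)

theorem LP.subgroupOf {L : Subgroup G} (h : LP L) (J : Subgroup G) : LP (L.subgroupOf J) := by
  intro F hF hF'
  have h1 := h (J.subtype '' F) (hF.image _) (by rintro _ ⟨a, ha, rfl⟩; exact hF' ha)
  refine (noeth_subgroupOf.2 (h1.le inf_le_right)).le ((closure_le _).2 fun a ha => ?_)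
  exact subset_closure (k := J.subtype '' F) ⟨a, ha, rfl⟩

theorem PC.mono {R R' : Subgroup G} (h : PC R) (hR : R' ≤ R) : PC R' :=
  fun F hF hF' => h F hF (hF'.trans hR)

theorem normalClosure_union (E F : Set G) :
    normalClosure (E ∪ F) = normalClosure E ⊔ normalClosure F := by
  refine le_antisymm (normalClosure_le_normal (Set.union_subset ?_ ?_)) (sup_le
    (normalClosure_mono Set.subset_union_left) (normalClosure_mono Set.subset_union_right))
  · exact fun a ha => mem_sup_left (subset_normalClosure ha)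
  · exact fun a ha => mem_sup_right (subset_normalClosure ha)

theorem pc_of_single {R : Subgroup G} (h : ∀ g ∈ R, Noeth (normalClosure {g})) : PC R := by
  intro F hF
  induction F, hF using Set.Finite.induction_on with
  | empty =>
    intro _
    exact RN.of_le (normalClosure_le_normal (Set.empty_subset _))
  | @insert a s _ _ ih =>
    intro hs
    rw [Set.insert_eq, normalClosure_union]
    exact Noeth.sup (h a (hs (Set.mem_insert _ _))) (ih ((Set.subset_insert _ _).trans hs))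

theorem PC.map {R : Subgroup G} (h : PC R) (f : G →* Q) (hf : Function.Surjective f) :
    PC (R.map f) := by
  intro F hF hF'
  obtain ⟨F', h1, h2, rfl⟩ := exists_lift f hF hF'
  rw [← map_normalClosure F' f hf]
  exact (h F' h1 h2).map f

theorem PC.subgroupOf {R : Subgroup G} (h : PC R) (J : Subgroup G) : PC (R.subgroupOf J) := by
  intro F hF hF'
  have h1 := h (J.subtype '' F) (hF.image _) (by rintro _ ⟨a, ha, rfl⟩; exact hF' ha)
  refine (noeth_subgroupOf.2 (h1.le inf_le_right)).le (normalClosure_le_normal fun a ha => ?_)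
  exact subset_normalClosure (s := J.subtype '' F) ⟨a, ha, rfl⟩

theorem closure_orb_top (E : Set G) : closure (orb ⊤ E) = normalClosure E := by
  refine le_antisymm ((closure_le _).2 ?_) ?_
  · rintro _ ⟨h, -, e, he, rfl⟩
    exact (normalClosure_normal (s := E)).conj_mem e (subset_normalClosure he) h
  · refine closure_mono fun a ha => ?_
    obtain ⟨e, he, hc⟩ := Group.mem_conjugatesOfSet_iff.1 ha
    obtain ⟨c, rfl⟩ := isConj_iff.1 hc
    exact ⟨c, mem_top _, e, he, rfl⟩

theorem subset_orb (H : Subgroup G) (E : Set G) : E ⊆ orb H E :=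
  fun e he => ⟨1, one_mem _, e, he, by simp⟩

theorem orb_mono {H H' : Subgroup G} {E E' : Set G} (h : H ≤ H') (hE : E ⊆ E') :
    orb H E ⊆ orb H' E' := by
  rintro _ ⟨g, hg, e, he, rfl⟩
  exact ⟨g, h hg, e, hE he, rfl⟩

theorem conj_mem_orb {H : Subgroup G} {E : Set G} {g w : G} (hg : g ∈ H) (hw : w ∈ orb H E) :
    g * w * g⁻¹ ∈ orb H E := by
  obtain ⟨h, hh, e, he, rfl⟩ := hw
  exact ⟨g * h, mul_mem hg hh, e, he, by group⟩

theorem orb_subset {L : Subgroup G} [hL : L.Normal] (H : Subgroup G) {E : Set G} (hE : E ⊆ L) :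
    orb H E ⊆ L := by
  rintro _ ⟨g, -, e, he, rfl⟩
  exact hL.conj_mem e (hE he) g

theorem le_normalizer_orb (H : Subgroup G) (E : Set G) :
    H ≤ normalizer (closure (orb H E) : Set G) := by
  refine le_normalizer_of_conj fun g hg j hj => ?_
  have : closure (orb H E) ≤ (closure (orb H E)).comap (MulAut.conj g).toMonoidHom :=
    (closure_le _).2 fun w hw => subset_closure (conj_mem_orb hg hw)
  exact this hj

/-! ### rational modules -/

section
variable {A : Subgroup G} {V : Type} [AddCommGroup V] [Module ℚ V] {a : G →* Module.End ℚ V}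
  {ι : G → V}

theorem Rt.one (h : Rt A a ι) : ι 1 = 0 := by
  have := h.add 1 (one_mem _) 1 (one_mem _)
  rw [one_mul] at this
  simpa using this

theorem Rt.inv (h : Rt A a ι) {b : G} (hb : b ∈ A) : ι b⁻¹ = - ι b := by
  have := h.add b hb b⁻¹ (inv_mem hb)
  rw [mul_inv_cancel, h.one] at this
  exact eq_neg_of_add_eq_zero_right this.symm

theorem Rt.pow (h : Rt A a ι) {b : G} (hb : b ∈ A) (n : ℕ) : ι (b ^ n) = n • ι b := by
  induction n with
  | zero => simp [h.one]
  | succ n ih => rw [pow_succ, h.add _ (pow_mem hb n) _ hb, ih, succ_nsmul]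

theorem Rt.mem_span (h : Rt A a ι) {T : Set G} (hT : T ⊆ A) {b : G} (hb : b ∈ closure T) :
    ι b ∈ Submodule.span ℚ (ι '' T) := by
  have hle : closure T ≤ A := (closure_le _).2 hT
  induction hb using closure_induction with
  | mem x hx => exact Submodule.subset_span ⟨x, hx, rfl⟩
  | one => rw [h.one]; exact zero_mem _
  | mul x y hx hy ihx ihy => rw [h.add x (hle hx) y (hle hy)]; exact add_mem ihx ihy
  | inv x hx ih => rw [h.inv (hle hx)]; exact neg_mem ih

theorem mem_of_nsmul_mem {U : Submodule ℚ V} {n : ℕ} (hn : 0 < n) {v : V} (h : n • v ∈ U) :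
    v ∈ U := by
  have h1 := U.smul_mem ((n : ℚ)⁻¹) h
  rwa [← Nat.cast_smul_eq_nsmul ℚ, smul_smul, inv_mul_cancel₀ (by exact_mod_cast hn.ne'),
    one_smul] at h1

end

end Pool.Agent.P.MP_3540e7_al.T5
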