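import Pool.Agent.P.MP_3540e7_al.T5.Base

/-! Statements of the steps. -/

set_option autoImplicit false

namespace Pool.Agent.P.MP_3540e7_al.T5

open Subgroup
open scoped commutatorElement

-- deps:
def S_MALR : Prop :=
  ∀ (d : ℕ) (S : Type) [Group S] (A : Type) [AddCommGroup A] [Module.Finite ℤ A]
    (ρ : S →* Module.End ℤ A), derivedSeries S d ≤ ρ.ker → RN ρ.ker ⊤

-- deps: MALR
def S_MALA : Prop :=
  ∀ (G : Type) [Group G] [Group.IsSolvable G] (A : Subgroup G) [A.Normal], Ab A → A.FG →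
    RN (centralizer (A : Set G)) ⊤

-- deps: MALA
def S_MAL : Prop :=
  ∀ (G : Type) [Group G] [Group.IsSolvable G] (P : Subgroup G) [P.Normal], Noeth P →
    RN (centralizer (P : Set G)) ⊤

-- deps: MAL
def S_MALN : Prop :=
  ∀ (G : Type) [Group G] [Group.IsSolvable G] (H P : Subgroup G), Noeth P →
    H ≤ normalizer (P : Set G) → RN (H ⊓ centralizer (P : Set G)) H

-- deps: MAL
def S_Q0 : Prop :=
  ∀ (G : Type) [Group G] [Group.IsSolvable G] (P : Subgroup G) [P.Normal], Noeth P →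
    ∀ F : Set G, F.Finite → RN (centralizer F ⊓ centralizer (P : Set G)) (CMs P F)

-- deps: Q0
def S_Q0C : Prop :=
  ∀ (G : Type) [Group G] [Group.IsSolvable G] (P : Subgroup G) [P.Normal], Noeth P →
    (HC G → HC (G ⧸ P)) ∧ ∀ F : Set G, F.Finite → Noeth (centralizer F) →
      Noeth (centralizer (QuotientGroup.mk' P '' F))

-- deps:
def S_FINA : Prop :=
  ∀ (G : Type) [Group G] (M A : Subgroup G) (T : Set G), M ≤ A → ⁅A, A⁆ ≤ M → T.Finite → T ⊆ A →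
    A ≤ closure T ⊔ M → Per M A → M.relIndex A ≠ 0

-- deps: FINA
def S_FIN : Prop :=
  ∀ (G : Type) [Group G] [Group.IsSolvable G] (B P : Subgroup G) [B.Normal], Noeth P → Per B P →
    B.relIndex P ≠ 0

-- deps:
def S_PCX : Prop :=
  ∀ (G : Type) [Group G] [Group.FG G] (R K : Subgroup G) [R.Normal] [K.Normal], PC R → R ≤ K →
    ⁅K, K⁆ ≤ R → RN R K → PC K

-- deps: PCX
def S_LAY : Prop :=
  ∀ (G : Type) [Group G] [Group.FG G] (L R S : Subgroup G) [L.Normal] [R.Normal] [S.Normal],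
    PC R → R ≤ S → L ≤ S → ⁅S, S⁆ ≤ R → (∀ x ∈ S, (centralizer {x} ⊔ L).FiniteIndex) → PC S

-- deps:
def S_CH : Prop :=
  ∀ (G : Type) [Group G] [Group.IsSolvable G] (L : Subgroup G) [L.Normal], ¬ PC L →
    ∃ E : Set G, E.Finite ∧ E ⊆ L ∧ ∃ w ∈ L, ¬ Noeth (closure (orb (centralizer E) {w})) ∧
      ∀ w' ∈ orb (centralizer E) {w}, Noeth (closure (orb (centralizer E ⊓ centralizer {w}) {w'}))

-- deps:
def S_FI1 : Prop :=
  ∀ (G : Type) [Group G] (H A B : Subgroup G) [A.Normal] [B.Normal], B ≤ A → ⁅A, A⁆ ≤ B →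
    (H ⊔ A).FG →
    (∀ a ∈ A, ∃ H' : Subgroup G, H'.relIndex H ≠ 0 ∧ ∀ h ∈ H', h ∈ H → ⁅h, a⁆ ∈ (H ⊓ A) ⊔ B) →
    ∃ T : Set G, T.Finite ∧ T ⊆ A ∧ A ≤ closure T ⊔ ((H ⊓ A) ⊔ B)

-- deps: FI1 FINA
def S_FI : Prop :=
  ∀ (G : Type) [Group G] [Group.FG G] (s : ℕ → Subgroup G) (d i : ℕ), Ser s d →
    ∀ (L : Subgroup G) [L.Normal],
    (∀ k < i, ∀ E : Set G, E.Finite → E ⊆ L → Per ((centralizer E ⊓ s k) ⊔ s (k + 1)) (s k)) →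
    ∀ E : Set G, E.Finite → E ⊆ L → (centralizer E ⊔ s i).FiniteIndex

-- deps:
def S_RAT : Prop :=
  ∀ (G : Type) [Group G] (A : Subgroup G) [A.Normal], Ab A →
    ∃ (V : Type) (_ : AddCommGroup V) (_ : Module ℚ V) (a : G →* Module.End ℚ V) (ι : G → V),
      Rt A a ι ∧ ∀ b ∈ A, ι b = 0 → ∃ n : ℕ, 0 < n ∧ b ^ n = 1

-- deps:
def S_SPAN : Prop :=
  ∀ (G : Type) [Group G] (V : Type) [AddCommGroup V] [Module ℚ V] (H : Subgroup G) (f : G → V),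
    (∀ a ∈ H, ∀ b ∈ H, f (a * b) = f a + f b) →
    ∀ v ∈ Submodule.span ℚ (f '' H), ∃ n : ℕ, 0 < n ∧ ∃ h ∈ H, n • v = f h

-- deps: SPAN
def S_HOM : Prop :=
  ∀ (G : Type) [Group G] (V : Type) [AddCommGroup V] [Module ℚ V] [FiniteDimensional ℚ V]
    (H : Subgroup G) (f : G → V), (∀ a ∈ H, ∀ b ∈ H, f (a * b) = f a + f b) →
    ∃ T : Set G, T.Finite ∧ T ⊆ H ∧ ∀ g ∈ H, ∃ n : ℕ, 0 < n ∧ ∃ t ∈ closure T, f (g ^ n) = f t

-- deps: RAT SPAN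
def S_DCC : Prop :=
  ∀ (G : Type) [Group G] (A B : Subgroup G) [A.Normal] [B.Normal], B ≤ A → ⁅A, A⁆ ≤ B → FR A B →
    ∃ r : Subgroup G → ℕ, Monotone r ∧
      ∀ H H' : Subgroup G, H ≤ H' → r H = r H' → Per ((H ⊓ A) ⊔ B) (H' ⊓ A)

-- deps:
def S_RK0 : Prop :=
  ∀ (G : Type) [Group G] (L : Subgroup G) [L.Normal] (k : ℕ),
    Module.rank ℤ (Additive (Abelianization (derivedSeries (G ⧸ L) k))) < Cardinal.aleph0 →
    FR (derivedSeries G k ⊔ L) (derivedSeries G (k + 1) ⊔ L)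

-- deps:
def S_SER : Prop :=
  ∀ (G : Type) [Group G] [Group.IsSolvable G] (L : Subgroup G) [L.Normal],
    ∃ (s : ℕ → Subgroup G) (d i : ℕ), Ser s d ∧ s i = L ∧
      ∀ k ≤ i, s k = derivedSeries G k ⊔ L

-- deps: DCC
def S_MIN : Prop :=
  ∀ (G : Type) [Group G] (s : ℕ → Subgroup G) (d i : ℕ), Ser s d →
    (∀ k < i, FR (s k) (s (k + 1))) → ¬ Noeth (⊤ : Subgroup G) →
    ∃ E₀ : Set G, E₀.Finite ∧ ¬ Noeth (centralizer E₀) ∧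
      ∀ k < i, ∀ E : Set G, E.Finite → ¬ Noeth (centralizer E₀ ⊓ centralizer E) →
        Per ((centralizer E₀ ⊓ centralizer E ⊓ s k) ⊔ s (k + 1)) (centralizer E₀ ⊓ s k)

-- deps:
def S_LFD : Prop :=
  ∀ (G : Type) [Group G] (A : Subgroup G) [A.Normal] (V : Type) [AddCommGroup V] [Module ℚ V]
    (a : G →* Module.End ℚ V) (ι : G → V), Rt A a ι → PC A →
    LFD a ∧ ∀ U : Submodule ℚ V, FiniteDimensional ℚ U →
      ∃ F : Set G, F.Finite ∧ F ⊆ A ∧ U ≤ Submodule.span ℚ (ι '' F)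

-- deps:
def S_KER : Prop :=
  ∀ (G : Type) [Group G] (R A : Subgroup G) [A.Normal] (V : Type) [AddCommGroup V] [Module ℚ V]
    (a : G →* Module.End ℚ V) (ι : G → V) (x : G), Rt A a ι →
    (∀ b ∈ A, ι b = 0 → ∃ n : ℕ, 0 < n ∧ b ^ n = 1) → Ab A → A ≤ R → PC R → WK ⊥ R x →
    FiniteDimensional ℚ (LinearMap.ker (a x - 1))

-- deps:
def S_LIN : Prop :=
  ∀ (V : Type) [AddCommGroup V] [Module ℚ V] (φ : Module.End ℚ V),
    (∀ U : Submodule ℚ V, FiniteDimensional ℚ U →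
      ∃ W : Submodule ℚ V, U ≤ W ∧ FiniteDimensional ℚ W ∧ ∀ w ∈ W, φ w ∈ W) →
    FiniteDimensional ℚ (LinearMap.ker φ) →
    ∃ U : Submodule ℚ V, FiniteDimensional ℚ U ∧ U ⊔ LinearMap.range φ = ⊤

-- deps:
def S_PRE : Prop :=
  ∀ (V : Type) [AddCommGroup V] [Module ℚ V] (φ : Module.End ℚ V) (U : Submodule ℚ V),
    FiniteDimensional ℚ (LinearMap.ker φ) → FiniteDimensional ℚ U →
    FiniteDimensional ℚ (U.comap φ)

-- deps: FINA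
def S_POW : Prop :=
  ∀ (G : Type) [Group G] (A : Subgroup G) [A.Normal] (x g : G), Ab A → ⁅g, x⁆ ∈ A →
    Noeth (normalClosure {⁅g, x⁆}) → (∃ m : ℕ, 0 < m ∧ ∃ b ∈ A, ⁅g, x⁆ ^ m = ⁅x, b⁆) →
    ∃ j : ℕ, 0 < j ∧ ∃ b ∈ A, ⁅b * g ^ j, x⁆ = 1

-- deps: HOM
def S_I1 : Prop :=
  ∀ (G : Type) [Group G] (A H : Subgroup G) [A.Normal] (V : Type) [AddCommGroup V] [Module ℚ V]
    (a : G →* Module.End ℚ V) (ι : G → V) (x : G) (F : Set G), Rt A a ι →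
    (∀ b ∈ A, ι b = 0 → ∃ n : ℕ, 0 < n ∧ b ^ n = 1) → Ab A → F.Finite → F ⊆ A →
    Submodule.span ℚ (ι '' F) ⊔ LinearMap.range (a x - 1) = ⊤ → H ≤ CM A x → H ≤ centralizer F →
    ∃ T : Set G, T.Finite ∧ T ⊆ H ∧ ∀ g ∈ H, ∃ n : ℕ, 0 < n ∧ ∃ t ∈ closure T,
      ∃ m : ℕ, 0 < m ∧ ∃ b ∈ A, ⁅t⁻¹ * g ^ n, x⁆ ^ m = ⁅x, b⁆

-- deps: MAL RAT LFD KER LIN I1 POW
def S_I : Prop :=
  ∀ (G : Type) [Group G] [Group.IsSolvable G] (R A : Subgroup G) [R.Normal] [A.Normal] (x : G),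
    PC R → A ≤ R → Ab A → WK ⊥ R x → WK A R x

-- deps:
def S_TR : Prop :=
  ∀ (G : Type) [Group G] (A N R : Subgroup G) [A.Normal] [N.Normal] (x : G), A ≤ N → N ≤ R →
    (WK N R x ↔ WK (N.map (QuotientGroup.mk' A)) (R.map (QuotientGroup.mk' A))
      (QuotientGroup.mk' A x))

-- deps: I TR
def S_IG : Prop :=
  ∀ (G : Type) [Group G] [Group.IsSolvable G] (R N : Subgroup G) [R.Normal] [N.Normal] (x : G),
    PC R → N ≤ R → WK ⊥ R x → WK N R x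

-- deps:
def S_PATH : Prop :=
  ∀ (G : Type) [Group G] (Γ : Set G) (x : G), closure Γ = ⊤ →
    (∀ s ∈ Γ, Commute x (s * x * s⁻¹) ∧ Commute x (s⁻¹ * x * s)) →
    ∀ g : G, ∃ Y : Set G, Y.Finite ∧ Y ⊆ orb ⊤ {x} ∧ x ∈ Y ∧ g * x * g⁻¹ ∈ Y ∧
      ∀ p : G → Prop, p x → (∀ y ∈ Y, ∀ y' ∈ Y, Commute y y' → p y → p y') → p (g * x * g⁻¹)

-- deps:
def S_COC : Prop :=
  ∀ (G : Type) [Group G] (B Q : Subgroup G) [B.Normal] [Q.Normal] (V : Type) [AddCommGroup V]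
    [Module ℚ V] (a : G →* Module.End ℚ V) (ι : G → V) (x : G), Rt B a ι → B ≤ Q →
    B.relIndex Q ≠ 0 →
    ∃ (c : G → V) (n : ℕ) (T : V → V), 0 < n ∧
      (∀ g ∈ CM Q x, ∀ h ∈ CM Q x, c (g * h) = a g (c h) + c g) ∧
      (∀ b ∈ B, c b = n • ι b - T (ι b)) ∧
      (∀ r ∈ Q, ∀ v, a r (T v) = T v) ∧
      ∀ U : Submodule ℚ V, (∀ u ∈ U, a x u ∈ U) → ∀ v, (∀ r ∈ Q, a r v - v ∈ U) →
        T v - n • a x v ∈ U

-- deps: PATH COC PRE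
def S_ABC : Prop :=
  ∀ (G : Type) [Group G] (Γ : Set G) (R B : Subgroup G) [B.Normal] (V : Type) [AddCommGroup V]
    [Module ℚ V] (a : G →* Module.End ℚ V) (ι : G → V) (x : G), closure Γ = ⊤ →
    (∀ s ∈ Γ, Commute x (s * x * s⁻¹) ∧ Commute x (s⁻¹ * x * s)) →
    (∀ g : G, ⁅x, g * x * g⁻¹⁆ ∈ R) →
    (∀ F : Set G, F.Finite → F ⊆ R →
      ∃ Q : Subgroup G, Q.Normal ∧ B ≤ Q ∧ F ⊆ Q ∧ B.relIndex Q ≠ 0) →
    Rt B a ι → LFD a → Function.Surjective (a x - 1 : Module.End ℚ V) →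
    FiniteDimensional ℚ (LinearMap.ker (a x - 1)) → FiniteDimensional ℚ V

-- deps:
def S_QUO : Prop :=
  ∀ (G : Type) [Group G] (B : Subgroup G) (V : Type) [AddCommGroup V] [Module ℚ V]
    (a : G →* Module.End ℚ V) (ι : G → V) (W : Submodule ℚ V), Rt B a ι →
    (∀ g, ∀ w ∈ W, a g w ∈ W) →
    ∃ a' : G →* Module.End ℚ (V ⧸ W), (∀ g v, a' g (W.mkQ v) = W.mkQ (a g v)) ∧
      Rt B a' (fun g => W.mkQ (ι g))

-- deps: RAT LFD KER LIN PRE QUO ABC FIN HOM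
def S_AB : Prop :=
  ∀ (G : Type) [Group G] [Group.IsSolvable G] (Γ : Set G) (R B : Subgroup G) [R.Normal] [B.Normal]
    (x : G), closure Γ = ⊤ → (∀ s ∈ Γ, Commute x (s * x * s⁻¹) ∧ Commute x (s⁻¹ * x * s)) →
    (∀ g : G, ⁅x, g * x * g⁻¹⁆ ∈ R) → PC R → B ≤ R → Ab B → Per B R → WK ⊥ R x →
    ∃ T : Set G, T.Finite ∧ T ⊆ B ∧ Per (closure T) B

-- deps: IG TR AB
def S_TOP : Prop :=
  ∀ (G : Type) [Group G] [Group.IsSolvable G] [Group.FG G] (R : Subgroup G) [R.Normal] (x : G),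
    (∀ g : G, ⁅x, g * x * g⁻¹⁆ ∈ R) → PC R → WK ⊥ R x →
    ∃ F : Set G, F.Finite ∧ F ⊆ R ∧ Per (normalClosure F) R

-- deps:
def S_CNT : Prop :=
  ∀ (G : Type) [Group G] (R : Subgroup G) [R.Normal] (x : G),
    (∀ F : Set G, F.Finite → F ⊆ R → Finite (normalClosure F)) →
    Finite ↥(centralizer {x} ⊓ R) → (centralizer {x} ⊔ R).relIndex (CM R x) ≠ 0

-- deps: FIN CNT PCX MAL
def S_B2 : Prop :=
  ∀ (G : Type) [Group G] [Group.IsSolvable G] [Group.FG G] (R : Subgroup G) [R.Normal] (x : G),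
    (∀ g : G, ⁅x, g * x * g⁻¹⁆ ∈ R) → PC R → Per ⊥ R → Noeth (centralizer {x}) →
    Noeth (⊤ : Subgroup G)

-- deps: TOP Q0C B2
def S_B1 : Prop :=
  ∀ (G : Type) [Group G] [Group.IsSolvable G] [Group.FG G] (R : Subgroup G) [R.Normal] (x : G),
    (∀ g : G, ⁅x, g * x * g⁻¹⁆ ∈ R) → PC R → Noeth (centralizer {x}) → Noeth (⊤ : Subgroup G)

-- deps: B1
def S_BC : Prop :=
  ∀ (G : Type) [Group G] [Group.IsSolvable G] (R M : Subgroup G) [R.Normal] [M.Normal], HC G →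
    ⁅M, M⁆ ≤ R → PC R → ∀ F : Set G, F.Finite → F ⊆ M → (∀ a ∈ F, ∀ b ∈ F, a * b = b * a) →
    Noeth (centralizer F) → Noeth (⊤ : Subgroup G)

-- deps: BC Q0C
def S_B : Prop :=
  ∀ (G : Type) [Group G] [Group.IsSolvable G] (R M : Subgroup G) [R.Normal] [M.Normal], HC G →
    ⁅M, M⁆ ≤ R → PC R → ∀ F : Set G, F.Finite → F ⊆ M → Noeth (centralizer F) →
    Noeth (⊤ : Subgroup G)

-- deps:
def S_ZZ : Prop :=
  ∀ (G : Type) [Group G] (N D : Subgroup G) [N.Normal] [D.Normal] (𝓗 : Set (Subgroup G)),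
    Fam N 𝓗 → ∀ H ∈ 𝓗, Cl N D H →
    ∃ Z ∈ 𝓗, Z ≤ H ∧ ∀ g : G, ∃ u : G, ∃ h ∈ H, ∃ a ∈ D, g = u * h * a ∧
      ∀ z ∈ Z, u⁻¹ * z * u ∈ H

-- deps:
def S_FKA : Prop :=
  ∀ (G : Type) [Group G] [Group.IsSolvable G] [Group.FG G] (D K B H : Subgroup G) [D.Normal]
    [K.Normal] [B.Normal], B ≤ D → D ≤ K → K ≤ H ⊔ D → RN K ⊤ → (K ⊓ H).FG →
    (∀ d ∈ D, ∃ T : Set G, T.Finite ∧ T ⊆ D ∧ normalClosure {d} ≤ closure T ⊔ B) →
    ∃ Y : Set G, Y.Finite ∧ Y ⊆ D ∧ D ≤ closure Y ⊔ ((H ⊓ D) ⊔ B)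

-- deps:
def S_FKB : Prop :=
  ∀ (G : Type) [Group G] (N D K H Z : Subgroup G) [N.Normal] [D.Normal] [K.Normal], LP N →
    (H ⊔ N).FiniteIndex → Cl N D H → D ≤ K → Z ≤ K → Z ≤ H → RN Z H → RN K ⊤

-- deps:
def S_FKC : Prop :=
  ∀ (G : Type) [Group G] (N D B H : Subgroup G) [N.Normal] [D.Normal] [B.Normal] (d : G), LP N →
    D ≤ N → ⁅D, D⁆ ≤ B → (H ⊔ N).FiniteIndex → Cl N D H → d ∈ D → (∀ h ∈ H, ⁅h, d⁆ ∈ B) →
    ∃ T : Set G, T.Finite ∧ T ⊆ D ∧ normalClosure {d} ≤ closure T ⊔ B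

-- deps: ZZ FKA FKB FKC
def S_FK : Prop :=
  ∀ (G : Type) [Group G] [Group.IsSolvable G] [Group.FG G] (N D D' : Subgroup G) [N.Normal]
    [D.Normal] [D'.Normal] (𝓗 : Set (Subgroup G)), Fam N 𝓗 → D ≤ N → D' ≤ D → ⁅D, D⁆ ≤ D' →
    (∀ H ∈ 𝓗, Cl N D H) → ∀ H ∈ 𝓗, Fk D D' H

-- deps:
def S_CL1 : Prop :=
  ∀ (G : Type) [Group G] (N D D' : Subgroup G) [N.Normal] [D.Normal] [D'.Normal]
    (𝓗 : Set (Subgroup G)), Fam N 𝓗 → D ≤ N → D' ≤ D → ⁅D, D⁆ ≤ D' →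
    (∀ H ∈ 𝓗, Cl N D H) → (∀ H ∈ 𝓗, Fk D D' H) → ∀ H ∈ 𝓗, Cl N D' H

-- deps: FK CL1
def S_CLA : Prop :=
  ∀ (G : Type) [Group G] [Group.IsSolvable G] [Group.FG G] (N : Subgroup G) [N.Normal]
    (𝓗 : Set (Subgroup G)), Fam N 𝓗 → ∀ H ∈ 𝓗, Cl N ⊥ H

-- deps:
def S_EP : Prop :=
  ∀ (G : Type) [Group G] (L : Subgroup G) (E Y : Set G), LP L → E.Finite → E ⊆ L → Y.Finite →
    Y ⊆ L → ∃ E' : Set G, E'.Finite ∧ E ⊆ E' ∧ E' ⊆ orb (closure Y) E ∧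
      ∀ y ∈ closure Y, ∀ z ∈ centralizer E', y * z * y⁻¹ ∈ centralizer E'

-- deps: MALN
def S_RNF : Prop :=
  ∀ (G : Type) [Group G] [Group.IsSolvable G] (L H : Subgroup G) [L.Normal] (E : Set G), LP L →
    E.Finite → E ⊆ L → (∀ e ∈ E, Noeth (closure (orb H {e}))) → RN (H ⊓ centralizer E) H

-- deps:
def S_PC2 : Prop :=
  ∀ (G : Type) [Group G] (L J : Subgroup G) (w : G), Cx L J w →
    ∀ v ∈ orb J {w}, ∀ v' ∈ orb J {w}, Noeth (closure (orb (J ⊓ centralizer {v}) {v'}))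

-- deps: EP RNF PC2
def S_FAM : Prop :=
  ∀ (G : Type) [Group G] [Group.IsSolvable G] (L J : Subgroup G) [L.Normal] (w : G), Cx L J w →
    Fam (L.subgroupOf J) {H | ∃ E : Set G, E.Finite ∧ E.Nonempty ∧ E ⊆ orb J {w} ∧
      H = (centralizer E).subgroupOf J}

-- deps: FAM CLA
def S_PCS : Prop :=
  ∀ (G : Type) [Group G] [Group.IsSolvable G] (L J : Subgroup G) [L.Normal] (w : G), Cx L J w →
    Noeth (closure (orb J {w}))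

-- deps: CH PCS
def S_SAFE : Prop :=
  ∀ (G : Type) [Group G] [Group.IsSolvable G] (L L₁ : Subgroup G) [L.Normal] [L₁.Normal], HC G →
    LP L → L₁ ≤ L → (∀ E : Set G, E.Finite → E ⊆ L₁ → (centralizer E ⊔ L).FiniteIndex) → PC L₁

-- deps: FI SAFE LAY B
def S_MAIN0 : Prop :=
  ∀ (G : Type) [Group G] [Group.IsSolvable G] (s : ℕ → Subgroup G) (d i : ℕ), HC G → Ser s d →
    LP (s i) →
    (∀ k < i, ∀ E : Set G, E.Finite → ¬ Noeth (centralizer E) →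
      Per ((centralizer E ⊓ s k) ⊔ s (k + 1)) (s k)) →
    Noeth (⊤ : Subgroup G)

-- deps: RK0 SER MIN MAIN0
def S_MAIN : Prop :=
  ∀ (G : Type) [Group G] [Group.IsSolvable G] (L : Subgroup G) [L.Normal], HC G → LP L →
    (∀ k, Module.rank ℤ (Additive (Abelianization (derivedSeries (G ⧸ L) k))) < Cardinal.aleph0) →
    Noeth (⊤ : Subgroup G)

end Pool.Agent.P.MP_3540e7_al.T5
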