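import Pool.Agent.P.MP_3540e7_al.T5.Iface

/-! Step CH. -/

set_option autoImplicit false
set_option linter.unusedSectionVars false

namespace Pool.Agent.P.MP_3540e7_al.T5

open Subgroup
open scoped commutatorElement

namespace CHx

variable {G : Type} [Group G]

/-- chains of conjugates, each step fixing the earlier elements -/
def Ch (D : Subgroup G) : ℕ → Set G → G → Prop
  | 0, _, _ => True
  | k + 1, F, w => ∃ g ∈ D, g ∈ centralizer F ∧ g * w * g⁻¹ ≠ w ∧
      Ch D k (insert w F) (g * w * g⁻¹)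

theorem conj {D : Subgroup G} {u : G} (hu : u ∈ D) : ∀ (k : ℕ) (F F' : Set G) (w : G),
    (∀ f' ∈ F', ∃ f ∈ F, f' = u * f * u⁻¹) → Ch D k F w → Ch D k F' (u * w * u⁻¹)
  | 0, _, _, _, _, _ => trivial
  | k + 1, F, F', w, h, ⟨g, g1, g2, g3, g4⟩ => by
    have e : u * g * u⁻¹ * (u * w * u⁻¹) * (u * g * u⁻¹)⁻¹ = u * (g * w * g⁻¹) * u⁻¹ := by group
    refine ⟨u * g * u⁻¹, mul_mem (mul_mem hu g1) (inv_mem hu), fun f' hf' => ?_, ?_, ?_⟩
    · obtain ⟨f, hf, rfl⟩ := h f' hf'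
      calc _ = u * (f * g) * u⁻¹ := by group
        _ = _ := by rw [g2 f hf]; group
    · rw [e]
      exact fun c => g3 (mul_left_cancel (mul_right_cancel c))
    · rw [e]
      refine conj hu k _ _ _ ?_ g4
      rintro f' (rfl | hf')
      · exact ⟨w, Or.inl rfl, rfl⟩
      · obtain ⟨f, hf, c⟩ := h f' hf'
        exact ⟨f, Or.inr hf, c⟩

theorem double {D : Subgroup G} : ∀ (k : ℕ) (F : Set G) (w : G), Ch D (2 * k) F w →
    Ch ⁅D, D⁆ k F w
  | 0, _, _, _ => trivial
  | k + 1, F, w, ⟨g, g1, g2, _, h, h1, h2, h3, h4⟩ => by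
    have hw : h⁻¹ * w * h = w := by rw [mul_assoc, h2 w (Or.inl rfl)]; group
    have e : ⁅g⁻¹, h⁆ * w * ⁅g⁻¹, h⁆⁻¹ = g⁻¹ * (h * (g * w * g⁻¹) * h⁻¹) * g⁻¹⁻¹ := by
      conv_rhs => rw [← hw]
      rw [commutatorElement_def]
      group
    have h5 : h ∈ centralizer F := fun f hf => h2 f (Or.inr hf)
    refine ⟨⁅g⁻¹, h⁆, commutator_mem_commutator (inv_mem g1) h1, ?_, ?_, ?_⟩
    · rw [commutatorElement_def]
      exact mul_mem (mul_mem (mul_mem (inv_mem g2) h5) (inv_mem (inv_mem g2))) (inv_mem h5)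
    · rw [e]
      intro c
      apply h3
      conv_rhs => rw [← c]
      group
    · rw [e]
      refine double k _ _ (conj (inv_mem g1) _ _ _ _ ?_ h4)
      rintro f (rfl | hf)
      · exact ⟨_, Or.inl rfl, by group⟩
      · exact ⟨f, Or.inr (Or.inr hf), by rw [inv_inv, mul_assoc, g2 f hf]; group⟩

theorem toDer (F : Set G) (w : G) : ∀ d k : ℕ, Ch ⊤ (2 ^ d * k) F w → Ch (der ⊤ d) k F w
  | 0, k, h => by rwa [pow_zero, one_mul] at h
  | d + 1, k, h => double k F w (toDer F w d (2 * k) (by rwa [pow_succ, mul_assoc] at h))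

theorem fix (H : Subgroup G) (w : G) : Noeth (closure (orb (H ⊓ centralizer {w}) {w})) := by
  refine Noeth.le (noeth_of_comm (closure_comm (S := {w}) fun a ha b hb => by rw [ha, hb])
    ((fg_iff _).2 ⟨_, rfl, Set.finite_singleton _⟩)) (closure_mono ?_)
  rintro _ ⟨x, hx, _, rfl, rfl⟩
  rw [← hx.2 _ rfl, mul_inv_cancel_right]
  rfl

end CHx

open CHx in
theorem p_CH :
    S_CH := by
  intro G _ _ L _ hL
  by_contra hc
  have key : ∀ (k : ℕ) (E : Set G), E.Finite → E ⊆ L → ∀ w ∈ L,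
      ¬ Noeth (closure (orb (centralizer E) {w})) → Ch ⊤ k E w := by
    intro k
    induction k with
    | zero => exact fun _ _ _ _ _ _ => trivial
    | succ k ih =>
      intro E hE hEL w hw hn
      obtain ⟨w', ⟨g, hg, _, rfl, rfl⟩, h⟩ : ∃ w' ∈ orb (centralizer E) {w},
          ¬ Noeth (closure (orb (centralizer E ⊓ centralizer {w}) {w'})) := by
        by_contra h
        exact hc ⟨E, hE, hEL, w, hw, hn, fun w' hw' => by_contra fun c => h ⟨w', hw', c⟩⟩
      refine ⟨g, mem_top _, hg, fun c => h ?_, ih _ (hE.insert _) (Set.insert_subset hw hEL) _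
        (Normal.conj_mem ‹_› _ hw g) (by rwa [Set.insert_eq, centralizer_union, inf_comm])⟩
      rw [c]
      exact fix _ _
  obtain ⟨w, hw, hn⟩ : ∃ w ∈ L, ¬ Noeth (normalClosure {w}) := by
    by_contra h
    exact hL (pc_of_single fun g hg => by_contra fun c => h ⟨g, hg, c⟩)
  obtain ⟨d, hd⟩ := exists_der_eq_bot (⊤ : Subgroup G)
  obtain ⟨g, g1, -, g2, -⟩ := toDer ∅ w d 1 (key _ ∅ Set.finite_empty (Set.empty_subset _) w hw (by
    rwa [show centralizer (∅ : Set G) = ⊤ from by ext; simp [mem_centralizer_iff],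
      closure_orb_top]))
  rw [hd, mem_bot] at g1
  exact g2 (by rw [g1]; group)

end Pool.Agent.P.MP_3540e7_al.T5
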