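import Pool.Agent.P.MP_3540e7_al.T5.Iface

/-! Step FKC. -/

set_option autoImplicit false
set_option linter.unusedSectionVars false

namespace Pool.Agent.P.MP_3540e7_al.T5

open Subgroup
open scoped commutatorElement

theorem p_FKC :
    S_FKC := by
  intro G _ N D B H hN hD hB d hLP hDN hDB hfi ⟨Y, hY, hYN, hcl⟩ hd hH
  obtain ⟨T₀, hT₀, h0⟩ := finiteIndex_iff'.1 hfi
  have h1 : Noeth (closure (insert d Y)) :=
    hLP _ (hY.insert d) (Set.insert_subset (hDN hd) hYN)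
  obtain ⟨T₁, h2, hT₁⟩ := (fg_iff _).1 (h1.le (inf_le_left (b := D))).fg
  refine ⟨Set.image2 (fun t p => t * p * t⁻¹) T₀ T₁, hT₀.image2 _ hT₁, ?_, ?_⟩
  · rintro _ ⟨t, -, p, hp, rfl⟩
    exact hD.conj_mem p (h2.le (subset_closure hp)).2 t
  rw [← closure_orb_top, Subgroup.closure_le]
  rintro _ ⟨g, -, e, he, rfl⟩
  obtain rfl : e = d := he
  obtain ⟨t, ht, h3⟩ := h0 g
  rw [sup_comm] at h3
  obtain ⟨n, hn, h', hh', h4⟩ := mem_sup_of_normal_left.1 h3
  obtain ⟨a, ha, y, hy, h, hh, rfl⟩ := hcl n hn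
  obtain rfl : g = t * (a * y * h * h') := by rw [h4]; group
  have h5 : y * e * y⁻¹ ∈ D := hD.conj_mem e hd y
  have h6 : y ∈ closure (insert e Y) := Subgroup.closure_mono (Set.subset_insert _ _) hy
  have h7 : Subgroup.closure T₁ ≤ (Subgroup.closure (Set.image2 (fun t p => t * p * t⁻¹) T₀ T₁)).comap
      (MulAut.conj t).toMonoidHom :=
    (Subgroup.closure_le _).2 fun p hp => Subgroup.subset_closure ⟨t, ht, p, hp, rfl⟩
  have h8 := h7 (h2.ge (mem_inf.2 ⟨mul_mem (mul_mem h6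
    (Subgroup.subset_closure (Set.mem_insert _ _))) (inv_mem h6), h5⟩))
  have h9 := mul_mem (mem_sup_right (S := Subgroup.closure (Set.image2 (fun t p => t * p * t⁻¹) T₀ T₁))
    (mul_mem (hB.conj_mem _ (hH _ (mul_mem hh.1 hh')) (t * a * y))
      (hB.conj_mem _ (hDB (commutator_mem_commutator ha h5)) t))) (mem_sup_left h8)
  rw [SetLike.mem_coe]
  convert h9 using 1
  simp only [commutatorElement_def, MulEquiv.toMonoidHom_eq_coe, MonoidHom.coe_coe,
    MulAut.conj_apply]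
  group

end Pool.Agent.P.MP_3540e7_al.T5
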