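import Pool.Agent.P.MP_3540e7_al.T5.Iface

/-! Step KER. -/

set_option autoImplicit false
set_option linter.unusedSectionVars false

namespace Pool.Agent.P.MP_3540e7_al.T5

open Subgroup
open scoped commutatorElement

theorem p_KER :
    S_KER := by
  rintro G _ R A hA V _ _ a ι x h hk hab hAR hPC ⟨F, hF, hFR, hW⟩
  obtain ⟨T, hT, hTf⟩ := (fg_iff _).1 ((hPC F hF hFR).le (inf_le_left (b := A))).fg
  have hTA : T ⊆ A := fun t ht => (hT ▸ subset_closure ht : t ∈ normalClosure F ⊓ A).2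
  have := FiniteDimensional.span_of_finite ℚ (hTf.image ι)
  refine Submodule.finiteDimensional_of_le (S₂ := Submodule.span ℚ (ι '' T)) fun v hv => ?_
  obtain ⟨n, n0, b, hb, e⟩ := h.span v
  have hv' : a x v = v := by simpa [sub_eq_zero] using hv
  have hc := hA.conj_mem b hb x
  obtain ⟨m, m0, hm⟩ := hk _ (mul_mem hc (inv_mem hb)) (by
    rw [h.add _ hc _ (inv_mem hb), h.conj x b hb, h.inv hb, ← e, map_nsmul, hv', add_neg_cancel])
  rw [Commute.mul_pow (hab _ hc _ (inv_mem hb)), conj_pow, inv_pow, mul_inv_eq_one,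
    mul_inv_eq_iff_eq_mul] at hm
  obtain ⟨k, k0, hk'⟩ := hW _ (hAR (pow_mem hb m))
    (mem_bot.2 (commutatorElement_eq_one_iff_mul_comm.2 hm.symm))
  rw [sup_bot_eq] at hk'
  have := h.mem_span hTA (hT.ge (mem_inf.2 ⟨hk', pow_mem (pow_mem hb m) k⟩))
  rw [h.pow (pow_mem hb m), h.pow hb, ← e] at this
  exact mem_of_nsmul_mem n0 (mem_of_nsmul_mem m0 (mem_of_nsmul_mem k0 this))

end Pool.Agent.P.MP_3540e7_al.T5
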