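import Pool.Agent.P.MP_3540e7_al.T5.Iface

/-! Step MAIN. -/

set_option autoImplicit false
set_option linter.unusedSectionVars false

namespace Pool.Agent.P.MP_3540e7_al.T5

open Subgroup
open scoped commutatorElement

namespace MAINx

theorem ser_subgroupOf {G : Type} [Group G] {s : ℕ → Subgroup G} {d : ℕ} (h : Ser s d)
    (J : Subgroup G) : Ser (fun k => (s k).subgroupOf J) d where
  top := by rw [h.top, top_subgroupOf]
  bot := by rw [h.bot, bot_subgroupOf]
  nrm k := by have := h.nrm k; infer_instance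
  le k := fun _ hx => h.le k hx
  cm k := by
    rw [commutator_le]
    intro a ha b hb
    exact h.cm k (commutator_mem_commutator (mem_subgroupOf.1 ha) (mem_subgroupOf.1 hb))

end MAINx

theorem p_MAIN (hRK0 : S_RK0) (hSER : S_SER) (hMIN : S_MIN) (hMAIN0 : S_MAIN0) :
    S_MAIN := by
  intro G _ _ L _ hC hL hrk
  by_contra hn
  obtain ⟨s, d, i, hs, hi, hk⟩ := hSER G L
  obtain ⟨E₀, hE₀, hnE, hper⟩ := hMIN G s d i hs (fun k hki => by
    rw [hk k hki.le, hk (k + 1) hki]
    exact hRK0 G L k (hrk k)) hn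
  refine hnE (noeth_of_top (hMAIN0 (centralizer E₀) (fun k => (s k).subgroupOf (centralizer E₀))
    d i (hC.centralizer hE₀) (MAINx.ser_subgroupOf hs _) ((hi ▸ hL).subgroupOf _) ?_))
  intro k hki E hE hnc g hg
  rw [centralizer_subgroupOf, noeth_subgroupOf] at hnc
  obtain ⟨n, hn0, hgn⟩ := hper k hki _ (hE.image _) hnc g ⟨g.2, hg⟩
  refine ⟨n, hn0, ?_⟩
  have := hs.nrm (k + 1)
  obtain ⟨c, hc, a, ha, hca⟩ := (mem_sup_norm le_norm_top).1 hgn
  have ha1 : a ∈ centralizer E₀ := by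
    have e : a = c⁻¹ * (g : G) ^ n := by rw [← hca]; group
    rw [e]
    exact mul_mem (inv_mem hc.1.1) (pow_mem g.2 n)
  have e : g ^ n = (⟨c, hc.1.1⟩ : centralizer E₀) * ⟨a, ha1⟩ := Subtype.ext hca.symm
  rw [e]
  refine mul_mem (mem_sup_left ⟨?_, hc.2⟩) (mem_sup_right ha)
  rw [centralizer_subgroupOf]
  exact hc.1.2

end Pool.Agent.P.MP_3540e7_al.T5
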