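import Pool.Agent.P.MP_3540e7_al.T5.Iface

/-! Step MALR. -/

set_option autoImplicit false
set_option linter.unusedSectionVars false

namespace Pool.Agent.P.MP_3540e7_al.T5

open Subgroup
open scoped commutatorElement

namespace MALRx

variable {S : Type} [Group S] {A : Type} [AddCommGroup A] [Module.Finite ℤ A]

/-- conjugation on the endomorphism ring -/
noncomputable def cj (ρ : S →* Module.End ℤ A) (g : S) :
    Module.End ℤ A →ₗ[ℤ] Module.End ℤ A :=
  (LinearMap.mulLeft ℤ (ρ g)).comp (LinearMap.mulRight ℤ (ρ g⁻¹))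

theorem cj_apply (ρ : S →* Module.End ℤ A) (g : S) (r : Module.End ℤ A) :
    cj ρ g r = ρ g * (r * ρ g⁻¹) := rfl

/-- span of the image of `X` -/
def WW (ρ : S →* Module.End ℤ A) (X : Subgroup S) : Submodule ℤ (Module.End ℤ A) :=
  Submodule.span ℤ (ρ '' X)

theorem cj_mem (ρ : S →* Module.End ℤ A) (X : Subgroup S) [hX : X.Normal] (g : S) :
    ∀ r ∈ WW ρ X, cj ρ g r ∈ WW ρ X := by
  have : WW ρ X ≤ (WW ρ X).comap (cj ρ g) := by
    refine Submodule.span_le.2 ?_
    rintro _ ⟨x, hx, rfl⟩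
    refine Submodule.subset_span ⟨g * x * g⁻¹, hX.conj_mem x hx g, ?_⟩
    rw [cj_apply, map_mul, map_mul, mul_assoc]
  exact fun r hr => this hr

/-- the action on the span -/
noncomputable def act (ρ : S →* Module.End ℤ A) (X : Subgroup S) [X.Normal] :
    S →* Module.End ℤ (WW ρ X) where
  toFun g := (cj ρ g).restrict (cj_mem ρ X g)
  map_one' := by
    ext r : 1
    apply Subtype.ext
    change cj ρ 1 r.1 = r.1
    rw [cj_apply]; simp
  map_mul' g h := by
    ext r : 1
    apply Subtype.ext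
    change cj ρ (g * h) r.1 = cj ρ g (cj ρ h r.1)
    simp only [cj_apply, mul_inv_rev, map_mul, mul_assoc]

theorem mem_ker (ρ : S →* Module.End ℤ A) (X : Subgroup S) [X.Normal] (g : S) :
    g ∈ (act ρ X).ker ↔ ∀ x ∈ X, ρ g * ρ x = ρ x * ρ g := by
  have hi : ρ g⁻¹ * ρ g = 1 := by rw [← map_mul, inv_mul_cancel, map_one]
  have hi' : ρ g * ρ g⁻¹ = 1 := by rw [← map_mul, mul_inv_cancel, map_one]
  rw [MonoidHom.mem_ker]
  constructor
  · intro h x hx
    have h1 : cj ρ g (ρ x) = ρ x := congrArg (fun φ : Module.End ℤ (WW ρ X) =>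
      (φ ⟨ρ x, Submodule.subset_span ⟨x, hx, rfl⟩⟩).1) h
    rw [cj_apply] at h1
    calc ρ g * ρ x = ρ g * (ρ x * ρ g⁻¹) * ρ g := by
          rw [mul_assoc, mul_assoc, hi, mul_one]
      _ = ρ x * ρ g := by rw [h1]
  · intro h
    ext r : 1
    apply Subtype.ext
    change cj ρ g r.1 = r.1
    have : WW ρ X ≤ LinearMap.eqLocus (cj ρ g) LinearMap.id := by
      refine Submodule.span_le.2 ?_
      rintro _ ⟨x, hx, rfl⟩
      change cj ρ g (ρ x) = ρ x
      rw [cj_apply, ← mul_assoc, h x hx, mul_assoc, hi', mul_one]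
    exact this r.2

theorem rn_comm (ρ : S →* Module.End ℤ A) (N : Subgroup S)
    (hc : ∀ x ∈ N, ∀ y ∈ N, ρ x * ρ y = ρ y * ρ x) : RN ρ.ker N := by
  have hcomm : ∀ x ∈ ρ '' N, ∀ y ∈ ρ '' N, x * y = y * x := by
    rintro _ ⟨x, hx, rfl⟩ _ ⟨y, hy, rfl⟩
    exact hc x hx y hy
  let R := Algebra.adjoin ℤ (ρ '' N)
  have hR := Algebra.isMulCommutative_adjoin ℤ hcomm
  let : CommRing R := { (inferInstance : Ring R) with mul_comm := hR.is_comm.comm }
  have : Module.Finite ℤ R := Module.Finite.of_injective R.val.toLinearMap Subtype.val_injective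
  let ψ : N →* R := (ρ.comp N.subtype).codRestrict R
    (fun n => Algebra.subset_adjoin ⟨n.1, n.2, rfl⟩)
  refine (rn_ker ψ.toHomUnits ((noeth_units R).le le_top)).mono ?_ le_rfl
  rintro _ ⟨n, hn, rfl⟩
  exact congrArg (fun u : Rˣ => ((u : R) : Module.End ℤ A)) hn

end MALRx

open MALRx in
theorem p_MALR :
    S_MALR := by
  intro d
  induction d with
  | zero =>
    intro S _ A _ _ ρ h
    exact RN.of_le h
  | succ d ih =>
    intro S _ A _ _ ρ h
    have fin : ∀ X : Subgroup S, Module.Finite ℤ (WW ρ X) := fun X =>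
      Module.Finite.of_injective (WW ρ X).subtype Subtype.val_injective
    set B := derivedSeries S d with hB
    have hBc : ∀ x ∈ B, ∀ y ∈ B, ρ x * ρ y = ρ y * ρ x := by
      intro x hx y hy
      have h1 : ρ ⁅x, y⁆ = 1 := h (by
        rw [derivedSeries_succ]; exact commutator_mem_commutator hx hy)
      have h2 : x * y = ⁅x, y⁆ * (y * x) := by simp only [commutatorElement_def]; group
      rw [← map_mul, h2, map_mul, h1, one_mul, map_mul]
    have := fin B
    have h1 := ih S (WW ρ B) (act ρ B) fun g hg => (mem_ker ρ B g).2 fun x hx => hBc g hg x hx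
    set C := (act ρ B).ker with hC
    have := fin C
    have h2 := ih S (WW ρ C) (act ρ C) fun g hg => (mem_ker ρ C g).2 fun x hx =>
      ((mem_ker ρ B x).1 hx g hg).symm
    set C2 := (act ρ C).ker with hC2
    have h3 : RN (C ⊓ C2) ⊤ := h1.inf h2 le_top le_top le_norm_top le_norm_top
    have h4 : RN ρ.ker (C ⊓ C2) :=
      rn_comm ρ _ fun x hx y hy => (mem_ker ρ C x).1 hx.2 y hy.1
    refine RN.trans' h4 h3 (fun g hg => ?_) le_top
    have hg' : ρ g = 1 := hg
    exact ⟨(mem_ker ρ B g).2 fun x _ => by rw [hg', one_mul, mul_one],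
      (mem_ker ρ C g).2 fun x _ => by rw [hg', one_mul, mul_one]⟩

end Pool.Agent.P.MP_3540e7_al.T5
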