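import Pool.Agent.P.MP_3540e7_al.T5.Iface

/-! Step QUO. -/

set_option autoImplicit false
set_option linter.unusedSectionVars false

namespace Pool.Agent.P.MP_3540e7_al.T5

open Subgroup
open scoped commutatorElement

theorem p_QUO :
    S_QUO := by
  intro G _ B V _ _ a ι W h hW
  let b : G → Module.End ℚ (V ⧸ W) := fun g => W.mapQ W (a g) (fun w hw => hW g w hw)
  have hb : ∀ g v, b g (W.mkQ v) = W.mkQ (a g v) := fun g v => rfl
  have ext : ∀ f f' : Module.End ℚ (V ⧸ W), (∀ v, f (W.mkQ v) = f' (W.mkQ v)) → f = f' := by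
    intro f f' hf
    refine LinearMap.ext fun x => ?_
    obtain ⟨v, rfl⟩ := W.mkQ_surjective x
    exact hf v
  let a' : G →* Module.End ℚ (V ⧸ W) :=
    { toFun := b
      map_one' := ext _ _ fun v => by rw [hb, map_one]; rfl
      map_mul' := fun g g' => ext _ _ fun v => by
        rw [hb, map_mul, Module.End.mul_apply, Module.End.mul_apply, hb, hb] }
  have ha' : ∀ g v, a' g (W.mkQ v) = W.mkQ (a g v) := hb
  refine ⟨a', ha', fun x hx y hy => ?_, fun g x hx => ?_, fun x hx => ?_, fun v => ?_⟩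
  · rw [h.add x hx y hy, map_add]
  · rw [ha', h.conj g x hx]
  · refine ext _ _ fun v => ?_
    rw [ha', h.triv x hx]
    rfl
  · obtain ⟨u, rfl⟩ := W.mkQ_surjective v
    obtain ⟨n, hn, x, hx, e⟩ := h.span u
    exact ⟨n, hn, x, hx, by rw [← e, map_nsmul]⟩

end Pool.Agent.P.MP_3540e7_al.T5
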